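import Pool.Agent.TH57.TT2.Mod

set_option autoImplicit false
set_option linter.style.haveILetI false
set_option linter.unusedSectionVars false
set_option linter.unusedVariables false

/-! Projective modules over group rings whose relations have at most two terms. -/

namespace TH57.TT2

variable {R : Type} [Ring R] {G : Type} [Group G] {ι : Type} [Fintype ι] [DecidableEq ι]

/-- monomials with unit coefficients are units of the group ring -/
noncomputable def monoU (R : Type) [Ring R] (G : Type) [Group G] :
    G × Rˣ →* (MonoidAlgebra R G)ˣ where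
  toFun p := ⟨MonoidAlgebra.single p.1 (p.2 : R), MonoidAlgebra.single p.1⁻¹ ((p.2⁻¹ : Rˣ) : R),
    by rw [MonoidAlgebra.single_mul_single, mul_inv_cancel, Units.mul_inv]; rfl,
    by rw [MonoidAlgebra.single_mul_single, inv_mul_cancel, Units.inv_mul]; rfl⟩
  map_one' := by
    apply Units.ext
    rfl
  map_mul' p q := by
    apply Units.ext
    simp [MonoidAlgebra.single_mul_single]

theorem monoU_val (p : G × Rˣ) :
    ((monoU R G p : (MonoidAlgebra R G)ˣ) : MonoidAlgebra R G) = MonoidAlgebra.single p.1 (p.2 : R) :=
  rfl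

theorem neg_mem_monoU : (-1 : (MonoidAlgebra R G)ˣ) ∈ (monoU R G).range := by
  refine ⟨(1, -1), ?_⟩
  apply Units.ext
  rw [monoU_val]
  simp [MonoidAlgebra.one_def, ← MonoidAlgebra.coeff_inj]

open Classical in
/-- the part of an element supported on a subgroup -/
noncomputable def resH (H : Subgroup G) : MonoidAlgebra R G →+ MonoidAlgebra R G where
  toFun x := MonoidAlgebra.ofCoeff (x.coeff.filter (· ∈ H))
  map_zero' := by
    ext g
    by_cases h : g ∈ H <;> simp [h]
  map_add' x y := by
    ext g
    by_cases h : g ∈ H <;> simp [h, Finsupp.filter_apply]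

open Classical in
theorem resH_coeff (H : Subgroup G) (x : MonoidAlgebra R G) (g : G) :
    (resH H x).coeff g = if g ∈ H then x.coeff g else 0 := by
  show (x.coeff.filter (· ∈ H)) g = _
  rw [Finsupp.filter_apply]

theorem coeff_mul_single' (x : MonoidAlgebra R G) (g m : G) (r : R) :
    (x * MonoidAlgebra.single g r).coeff m = x.coeff (m * g⁻¹) * r :=
  MonoidAlgebra.coeff_mul_single_eq_coeff_mul _ fun m' _ => by rw [eq_mul_inv_iff_mul_eq]

theorem coeff_single_mul' (x : MonoidAlgebra R G) (g m : G) (r : R) :
    (MonoidAlgebra.single g r * x).coeff m = r * x.coeff (g⁻¹ * m) :=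
  MonoidAlgebra.coeff_single_mul_eq_mul_coeff _ fun m' _ => by rw [eq_inv_mul_iff_mul_eq]

theorem resH_mul_single (H : Subgroup G) (x : MonoidAlgebra R G) {g : G} (hg : g ∈ H) (r : R) :
    resH H (x * MonoidAlgebra.single g r) = resH H x * MonoidAlgebra.single g r := by
  ext m
  rw [resH_coeff, coeff_mul_single', coeff_mul_single', resH_coeff]
  have : m * g⁻¹ ∈ H ↔ m ∈ H := by
    constructor
    · intro h
      have := mul_mem h hg
      rwa [inv_mul_cancel_right] at this
    · exact fun h => mul_mem h (inv_mem hg)
  by_cases h : m ∈ H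
  · rw [if_pos h, if_pos (this.2 h)]
  · rw [if_neg h, if_neg (fun h' => h (this.1 h')), zero_mul]

theorem resH_single_mul (H : Subgroup G) (x : MonoidAlgebra R G) {g : G} (hg : g ∈ H) (r : R) :
    resH H (MonoidAlgebra.single g r * x) = MonoidAlgebra.single g r * resH H x := by
  ext m
  rw [resH_coeff, coeff_single_mul', coeff_single_mul', resH_coeff]
  have : g⁻¹ * m ∈ H ↔ m ∈ H := by
    constructor
    · intro h
      have := mul_mem hg h
      rwa [mul_inv_cancel_left] at this
    · exact fun h => mul_mem (inv_mem hg) h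
  by_cases h : m ∈ H
  · rw [if_pos h, if_pos (this.2 h)]
  · rw [if_neg h, if_neg (fun h' => h (this.1 h')), mul_zero]

theorem resH_one (H : Subgroup G) : resH H (1 : MonoidAlgebra R G) = 1 := by
  classical
  ext m
  rw [resH_coeff, MonoidAlgebra.one_def, MonoidAlgebra.coeff_single, Finsupp.single_apply]
  by_cases h : 1 = m
  · rw [if_pos h, if_pos (h ▸ one_mem H)]
  · rw [if_neg h, ite_self]

/-- the group parts of the monomial units fixing `e` -/
noncomputable def stabH (e : MonoidAlgebra R G) : Subgroup G :=
  Subgroup.map (MonoidHom.fst G Rˣ)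
    { carrier := {p | MonoidAlgebra.single p.1 (p.2 : R) * e = e}
      one_mem' := by
        show MonoidAlgebra.single (1 : G) (1 : R) * e = e
        rw [← MonoidAlgebra.one_def, one_mul]
      mul_mem' := by
        intro p q hp hq
        have hp' : MonoidAlgebra.single p.1 (p.2 : R) * e = e := hp
        have hq' : MonoidAlgebra.single q.1 (q.2 : R) * e = e := hq
        have h := monoU_val (R := R) (G := G) (p * q)
        rw [map_mul, Units.val_mul, monoU_val, monoU_val] at h
        show MonoidAlgebra.single (p * q).1 ((p * q).2 : R) * e = e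
        rw [← h, mul_assoc, hq', hp']
      inv_mem' := by
        intro p hp
        have hp' : MonoidAlgebra.single p.1 (p.2 : R) * e = e := hp
        have h := (monoU R G p).inv_mul
        rw [← map_inv, monoU_val, monoU_val] at h
        show MonoidAlgebra.single (p⁻¹).1 ((p⁻¹).2 : R) * e = e
        conv_lhs => rw [← hp']
        rw [← mul_assoc, h, one_mul] }

theorem mem_stabH {e : MonoidAlgebra R G} {g : G} :
    g ∈ stabH e ↔ ∃ u : Rˣ, MonoidAlgebra.single g (u : R) * e = e := by
  constructor
  · rintro ⟨p, hp, rfl⟩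
    exact ⟨p.2, hp⟩
  · rintro ⟨u, hu⟩
    exact ⟨(g, u), hu, rfl⟩

theorem stabH_finite {e : MonoidAlgebra R G} (he : e ≠ 0) : Finite (stabH e) := by
  obtain ⟨g, hg⟩ : ∃ g, e.coeff g ≠ 0 := by
    by_contra hcon
    push Not at hcon
    apply he
    ext g
    exact hcon g
  have key : ∀ h : stabH e, e.coeff ((h : G) * g) ≠ 0 := by
    rintro ⟨h, hh⟩
    obtain ⟨u, hu⟩ := mem_stabH.1 hh
    intro h0
    have h1 := congrArg (fun x => MonoidAlgebra.coeff x (h * g)) hu
    simp only [coeff_single_mul', inv_mul_cancel_left] at h1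
    rw [h0] at h1
    exact hg ((Units.mul_right_eq_zero u).1 h1)
  have : Function.Injective fun h : stabH e => (⟨(h : G) * g, by
      rw [Finsupp.mem_support_iff]; exact key h⟩ : e.coeff.support) := by
    intro h h' hh
    have := congrArg Subtype.val hh
    exact Subtype.ext (mul_right_cancel this)
  exact Finite.of_injective _ this

/-- an idempotent complementing a left ideal generated by elements with at most two terms comes
from a finite subgroup -/
theorem exists_finite_idem (T : Set (MonoidAlgebra R G))
    (hT : ∀ x ∈ T, ∃ x1 x2, UZ (monoU R G).range x1 ∧ UZ (monoU R G).range x2 ∧ x = x1 + x2)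
    (e : MonoidAlgebra R G) (h0 : ∀ x ∈ Submodule.span (MonoidAlgebra R G) T, x * e = 0)
    (h1 : 1 - e ∈ Submodule.span (MonoidAlgebra R G) T) :
    ∃ (H : Subgroup G) (e' : MonoidAlgebra R H), Finite H ∧ IsIdempotentElem e' ∧
      ∀ z, z ∈ Submodule.span (MonoidAlgebra R G) T
        ↔ z * MonoidAlgebra.mapDomain H.subtype e' = 0 := by
  by_cases he : e = 0
  · refine ⟨⊥, 0, inferInstance, by simp [IsIdempotentElem], fun z => ?_⟩
    rw [MonoidAlgebra.mapDomain_zero, mul_zero]
    refine ⟨fun _ => rfl, fun _ => ?_⟩
    rw [he, sub_zero] at h1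
    have := Submodule.smul_mem _ z h1
    rwa [smul_eq_mul, mul_one] at this
  · haveI := stabH_finite he
    set J := Submodule.span (MonoidAlgebra R G) T with hJ
    -- every generator is a left multiple of `1 - m` with `m` fixing `e`
    have hgen : ∀ x ∈ T, ∃ (y : MonoidAlgebra R G) (y' : MonoidAlgebra R G) (g : G) (u : Rˣ),
        MonoidAlgebra.single g (u : R) * e = e ∧ x = y * (1 - MonoidAlgebra.single g (u : R)) ∧
        y' * x = 1 - MonoidAlgebra.single g (u : R) := by
      intro x hx
      have hxe := h0 x (Submodule.subset_span hx)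
      obtain ⟨x1, x2, hx1, hx2, hx12⟩ := hT x hx
      rcases hx1 with hx1 | ⟨u1, hu1, hx1⟩
      · rcases hx2 with hx2 | ⟨u2, hu2, hx2⟩
        · refine ⟨0, 0, 1, 1, ?_, ?_, ?_⟩
          · rw [Units.val_one, ← MonoidAlgebra.one_def, one_mul]
          · rw [hx12, hx1, hx2, zero_mul, add_zero]
          · rw [zero_mul, Units.val_one, ← MonoidAlgebra.one_def, sub_self]
        · exfalso
          rw [hx12, hx1, hx2, zero_add] at hxe
          exact he ((Units.mul_right_eq_zero u2).1 hxe)
      · rcases hx2 with hx2 | ⟨u2, hu2, hx2⟩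
        · exfalso
          rw [hx12, hx1, hx2, add_zero] at hxe
          exact he ((Units.mul_right_eq_zero u1).1 hxe)
        · have hm : (-1 : (MonoidAlgebra R G)ˣ) * (u1⁻¹ * u2) ∈ (monoU R G).range :=
            mul_mem neg_mem_monoU (mul_mem (inv_mem hu1) hu2)
          obtain ⟨p, hp⟩ := hm
          have hp' : MonoidAlgebra.single p.1 (p.2 : R)
              = -(((u1⁻¹ : (MonoidAlgebra R G)ˣ) : MonoidAlgebra R G) * (u2 : MonoidAlgebra R G)) := by
            rw [← monoU_val, hp]
            simp
          have hx' : x = (u1 : MonoidAlgebra R G) * (1 - MonoidAlgebra.single p.1 (p.2 : R)) := by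
            rw [hp', hx12, hx1, hx2, sub_neg_eq_add, mul_add, mul_one, ← mul_assoc, Units.mul_inv,
              one_mul]
          refine ⟨u1, ((u1⁻¹ : (MonoidAlgebra R G)ˣ) : MonoidAlgebra R G), p.1, p.2, ?_, hx', ?_⟩
          · rw [hx', mul_assoc, _root_.sub_mul, one_mul] at hxe
            have := (Units.mul_right_eq_zero u1).1 hxe
            exact (sub_eq_zero.1 this).symm
          · rw [hx', ← mul_assoc, Units.inv_mul, one_mul]
    have hres : ∀ (g : G) (u : Rˣ), MonoidAlgebra.single g (u : R) * e = e →
        MonoidAlgebra.single g (u : R) * resH (stabH e) e = resH (stabH e) e := by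
      intro g u hgu
      rw [← resH_single_mul _ _ (mem_stabH.2 ⟨u, hgu⟩), hgu]
    have hz0 : ∀ z ∈ J, z * resH (stabH e) e = 0 := by
      intro z hz
      induction hz using Submodule.span_induction with
      | mem x hx =>
        obtain ⟨y, y', g, u, hgu, hxy, -⟩ := hgen x hx
        rw [hxy, mul_assoc, _root_.sub_mul, one_mul, hres g u hgu, sub_self, mul_zero]
      | zero => rw [zero_mul]
      | add x y _ _ hx hy => rw [add_mul, hx, hy, add_zero]
      | smul a x _ hx => rw [smul_eq_mul, mul_assoc, hx, mul_zero]
    have hzr : ∀ z ∈ J, ∀ w, resH (stabH e) (w * z) ∈ J := by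
      intro z hz
      induction hz using Submodule.span_induction with
      | mem x hx =>
        intro w
        obtain ⟨y, y', g, u, hgu, hxy, hy'⟩ := hgen x hx
        have : resH (stabH e) (w * x) = resH (stabH e) (w * y) * y' * x := by
          rw [mul_assoc _ y' x, hy', mul_sub, mul_one,
            ← resH_mul_single _ _ (mem_stabH.2 ⟨u, hgu⟩), ← map_sub, ← mul_one_sub, mul_assoc w y,
            ← hxy]
        rw [this, ← smul_eq_mul]
        exact Submodule.smul_mem _ _ (Submodule.subset_span hx)
      | zero =>
        intro w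
        rw [mul_zero, map_zero]
        exact zero_mem _
      | add x y _ _ hx hy =>
        intro w
        rw [mul_add, map_add]
        exact add_mem (hx w) (hy w)
      | smul a x _ hx =>
        intro w
        rw [smul_eq_mul, ← mul_assoc]
        exact hx (w * a)
    have h1' : 1 - resH (stabH e) e ∈ J := by
      have := hzr _ h1 1
      rwa [one_mul, map_sub, resH_one] at this
    have hid : resH (stabH e) e * resH (stabH e) e = resH (stabH e) e := by
      have := hz0 _ h1'
      rw [_root_.sub_mul, one_mul, sub_eq_zero] at this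
      exact this.symm
    have hsup : ↑(resH (stabH e) e).coeff.support ⊆ Set.range (stabH e).subtype := by
      intro g hg
      rw [Finset.mem_coe, Finsupp.mem_support_iff, resH_coeff] at hg
      by_cases hgH : g ∈ stabH e
      · exact ⟨⟨g, hgH⟩, rfl⟩
      · rw [if_neg hgH] at hg
        exact absurd rfl hg
    have hmap := MonoidAlgebra.mapDomain_comapDomain hsup (stabH e).subtype_injective
    refine ⟨stabH e, MonoidAlgebra.comapDomain (stabH e).subtype (stabH e).subtype_injective
      (resH (stabH e) e), inferInstance, ?_, fun z => ?_⟩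
    · apply MonoidAlgebra.mapDomain_injective (stabH e).subtype_injective
      rw [MonoidAlgebra.mapDomain_mul, hmap, hid]
    · rw [hmap]
      refine ⟨hz0 z, fun hz => ?_⟩
      have : z = z • (1 - resH (stabH e) e) := by
        rw [smul_eq_mul, mul_sub, hz, mul_one, sub_zero]
      rw [this]
      exact Submodule.smul_mem _ _ h1'

/-- **Projective modules with two-term relations**: they are direct sums of modules
`Λ e`, `e` an idempotent in the group ring of a finite subgroup. -/
theorem proj_two {P : Type} [AddCommGroup P] [Module (MonoidAlgebra R G) P]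
    [Module.Projective (MonoidAlgebra R G) P]
    (f : (ι → MonoidAlgebra R G) →ₗ[MonoidAlgebra R G] P) (hf : Function.Surjective f)
    (Q : Set (ι → MonoidAlgebra R G)) (hQ : LinearMap.ker f = Submodule.span _ Q)
    (hQ2 : ∀ r ∈ Q, Two (monoU R G).range r) :
    ∃ (H : ι → Subgroup G) (e : ∀ c, MonoidAlgebra R (H c)), (∀ c, Finite (H c)) ∧
      (∀ c, IsIdempotentElem (e c)) ∧
      Nonempty (P ≃ₗ[MonoidAlgebra R G] (∀ c : ι, Submodule.span (MonoidAlgebra R G)
        {MonoidAlgebra.mapDomain (H c).subtype (e c)})) := by
  classical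
  by_cases hS : Subsingleton R
  · haveI : Subsingleton (MonoidAlgebra R G) := inferInstance
    haveI : Subsingleton P := Module.subsingleton (MonoidAlgebra R G) P
    haveI : ∀ c : ι, Subsingleton (Submodule.span (MonoidAlgebra R G)
        {MonoidAlgebra.mapDomain (⊥ : Subgroup G).subtype (0 : MonoidAlgebra R (⊥ : Subgroup G))}) :=
      fun c => Module.subsingleton (MonoidAlgebra R G) _
    exact ⟨fun _ => ⊥, fun _ => 0, fun _ => inferInstance, fun _ => by simp [IsIdempotentElem],
      ⟨LinearEquiv.ofSubsingleton _ _⟩⟩
  haveI : Nontrivial R := not_subsingleton_iff_nontrivial.1 hS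
  haveI : Nontrivial (MonoidAlgebra R G) := inferInstance
  have hnice : Nice (monoU R G).range (LinearMap.ker f) := by
    have h := nice_span (U := (monoU R G).range) neg_mem_monoU _ (Finset.univ : Finset ι) Q rfl
      (fun r hr => ⟨hQ2 r hr, fun j hj => absurd (Finset.mem_univ j) hj⟩)
    have hu : Q ∪ {r | ∃ j ∉ (Finset.univ : Finset ι), r = Pi.single j 1} = Q := by
      rw [Set.union_eq_left]
      rintro r ⟨j, hj, -⟩
      exact absurd (Finset.mem_univ j) hj
    rw [hu] at h
    rw [hQ]
    exact h
  obtain ⟨ε, T, hT, hN⟩ := hnice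
  set F : (ι → MonoidAlgebra R G) →ₗ[MonoidAlgebra R G] P := f ∘ₗ ε.symm.toLinearMap with hF
  have hFs : Function.Surjective F := hf.comp ε.symm.surjective
  have hFk : ∀ w, F w = 0 ↔ ∀ c, w c ∈ Submodule.span (MonoidAlgebra R G) (T c) := by
    intro w
    rw [← hN w, Submodule.mem_map]
    constructor
    · intro h
      exact ⟨ε.symm w, h, ε.apply_symm_apply w⟩
    · rintro ⟨v, hv, hvw⟩
      rw [← hvw]
      show f (ε.symm (ε v)) = 0
      rw [ε.symm_apply_apply]
      exact hv
  obtain ⟨s, hs⟩ := Module.projective_lifting_property F LinearMap.id hFs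
  have hs' : ∀ p, F (s p) = p := fun p => LinearMap.congr_fun hs p
  have hstep : ∀ c, ∃ (H : Subgroup G) (e' : MonoidAlgebra R H), Finite H ∧ IsIdempotentElem e' ∧
      ∀ z, z ∈ Submodule.span (MonoidAlgebra R G) (T c)
        ↔ z * MonoidAlgebra.mapDomain H.subtype e' = 0 := by
    intro c
    apply exists_finite_idem (T c) (hT c) (s (F (Pi.single c 1)) c)
    · intro x hx
      have h1 : F (Pi.single c x) = 0 := by
        rw [hFk]
        intro c'
        by_cases h : c' = c
        · subst h
          rw [Pi.single_eq_same]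
          exact hx
        · rw [Pi.single_eq_of_ne h]
          exact zero_mem _
      have h2 : (Pi.single c x : ι → MonoidAlgebra R G) = x • Pi.single c 1 := by
        rw [← Pi.single_smul, smul_eq_mul, mul_one]
      rw [h2, map_smul] at h1
      have h3 := congrArg (fun p => s p c) h1
      simpa using h3
    · have h1 : F (Pi.single c 1 - s (F (Pi.single c 1))) = 0 := by
        rw [map_sub, hs', sub_self]
      have := (hFk _).1 h1 c
      simpa using this
  choose H e hH he hJ using hstep
  refine ⟨H, e, hH, he, ?_⟩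
  -- the map to the product
  let Φ : (ι → MonoidAlgebra R G) →ₗ[MonoidAlgebra R G] (∀ c : ι, Submodule.span
      (MonoidAlgebra R G) {MonoidAlgebra.mapDomain (H c).subtype (e c)}) :=
    LinearMap.pi fun c => (LinearMap.toSpanSingleton (MonoidAlgebra R G) _
      (⟨_, Submodule.mem_span_singleton_self (MonoidAlgebra.mapDomain (H c).subtype (e c))⟩ :
        Submodule.span (MonoidAlgebra R G) {MonoidAlgebra.mapDomain (H c).subtype (e c)})) ∘ₗ
      LinearMap.proj c
  have hΦ : ∀ w c, ((Φ w c : Submodule.span (MonoidAlgebra R G)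
      {MonoidAlgebra.mapDomain (H c).subtype (e c)}) : MonoidAlgebra R G)
        = w c * MonoidAlgebra.mapDomain (H c).subtype (e c) := fun w c => rfl
  have hΦs : Function.Surjective Φ := by
    intro y
    have : ∀ c, ∃ a : MonoidAlgebra R G,
        a • MonoidAlgebra.mapDomain (H c).subtype (e c) = (y c : MonoidAlgebra R G) :=
      fun c => Submodule.mem_span_singleton.1 (y c).2
    choose a ha using this
    refine ⟨a, ?_⟩
    funext c
    apply Subtype.ext
    rw [hΦ, ← ha c, smul_eq_mul]
  have hker : LinearMap.ker F = LinearMap.ker Φ := by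
    ext w
    rw [LinearMap.mem_ker, LinearMap.mem_ker, hFk]
    constructor
    · intro h
      funext c
      apply Subtype.ext
      rw [hΦ]
      exact (hJ c _).1 (h c)
    · intro h c
      rw [hJ c, ← hΦ, h]
      rfl
  exact ⟨(F.quotKerEquivOfSurjective hFs).symm.trans ((Submodule.quotEquivOfEq _ _ hker).trans
    (Φ.quotKerEquivOfSurjective hΦs))⟩

end TH57.TT2
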