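import Pool.Agent.TH57.TT2.Graph

set_option autoImplicit false
set_option linter.style.haveILetI false
set_option linter.unusedSectionVars false
set_option linter.unusedVariables false

/-! Rectangular matrices over group rings with sparse support. -/

namespace TH57.TT2

open Matrix

variable {R : Type} [Ring R] {G : Type} [Group G] {ι κ : Type} [Fintype ι] [DecidableEq ι]
  [Fintype κ] [DecidableEq κ]

/-- the number of nonzero coefficients -/
def nzr (x : MonoidAlgebra R G) : ℕ := x.coeff.support.card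

/-- the support of a matrix -/
def supR (A : Matrix ι κ (MonoidAlgebra R G)) : Finset ((_ : ι × κ) × G) :=
  (Finset.univ : Finset (ι × κ)).sigma fun p => (A p.1 p.2).coeff.support

theorem mem_supR (A : Matrix ι κ (MonoidAlgebra R G)) (i : ι) (j : κ) (g : G) :
    (⟨(i, j), g⟩ : (_ : ι × κ) × G) ∈ supR A ↔ (A i j).coeff g ≠ 0 := by
  unfold supR
  rw [Finset.mem_sigma]
  simp

open Classical in
theorem nE_supR (A : Matrix ι κ (MonoidAlgebra R G)) (r : ι ⊕ κ → ι ⊕ κ) (b : ι ⊕ κ) :
    nE (supR A) r b = ∑ i ∈ Finset.univ.filter (fun i => r (Sum.inl i) = b),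
      ∑ j, nzr (A i j) := by
  unfold nE
  have h1 : (supR A).filter (fun e => r (Sum.inl e.1.1) = b)
      = ((Finset.univ.filter fun i => r (Sum.inl i) = b) ×ˢ (Finset.univ : Finset κ)).sigma
        fun p => (A p.1 p.2).coeff.support := by
    ext e
    unfold supR
    rw [Finset.mem_filter, Finset.mem_sigma, Finset.mem_sigma, Finset.mem_product]
    simp
    tauto
  have h2 := congrArg Finset.card h1
  rw [Finset.card_sigma, Finset.sum_product] at h2
  convert h2 using 1
  · congr
  · rfl

open Classical in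
theorem nV_supR (r : ι ⊕ κ → ι ⊕ κ) (b : ι ⊕ κ) :
    nV r b = (Finset.univ.filter fun i : ι => r (Sum.inl i) = b).card
      + (Finset.univ.filter fun j : κ => r (Sum.inr j) = b).card := by
  unfold nV
  rw [Finset.card_filter, Finset.card_filter, Finset.card_filter, Fintype.sum_sum_type]
  congr 1
  · refine Finset.sum_congr rfl fun _ _ => ?_
    congr
  · refine Finset.sum_congr rfl fun _ _ => ?_
    congr

/-- at most as many nonzero coefficients as rows and columns in every direct summand -/
def SparseR (A : Matrix ι κ (MonoidAlgebra R G)) : Prop :=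
  ∀ (S : Finset ι) (T : Finset κ), (∀ i j, A i j ≠ 0 → (i ∈ S ↔ j ∈ T)) →
    ∑ i ∈ S, ∑ j ∈ T, nzr (A i j) ≤ S.card + T.card

theorem exists_coeff' {x : MonoidAlgebra R G} (h : x ≠ 0) : ∃ g, x.coeff g ≠ 0 := by
  by_contra hcon
  push Not at hcon
  apply h
  ext g
  exact hcon g

open Classical in
theorem rect_lab (A : Matrix ι κ (MonoidAlgebra R G)) (hA : SparseR A) :
    ∃ (r : ι ⊕ κ → ι ⊕ κ) (w : ι ⊕ κ → G) (C : ι ⊕ κ → Subgroup G),
      (∀ i j g, (A i j).coeff g ≠ 0 → r (Sum.inl i) = r (Sum.inr j) ∧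
        w (Sum.inl i) * g * (w (Sum.inr j))⁻¹ ∈ C (r (Sum.inl i))) ∧ ∀ b, IsCyclic (C b) := by
  obtain ⟨r, w, C, h⟩ := exists_lab (supR A)
  refine ⟨r, w, C, fun i j g hg => h.mem ⟨(i, j), g⟩ ((mem_supR A i j g).2 hg), fun b => ?_⟩
  apply h.cyc
  rw [nE_supR, nV_supR]
  have hlab : ∀ i j, A i j ≠ 0 → r (Sum.inl i) = r (Sum.inr j) := by
    intro i j hij
    obtain ⟨g, hg⟩ := exists_coeff' hij
    exact (h.mem _ ((mem_supR A i j g).2 hg)).1
  refine le_trans (le_of_eq ?_) (hA _ _ ?_)
  · refine Finset.sum_congr rfl fun i hi => ?_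
    symm
    apply Finset.sum_subset (Finset.subset_univ _)
    intro j _ hj
    rw [Finset.mem_filter] at hi hj
    have h0 : A i j = 0 := by
      by_contra h0
      exact hj ⟨Finset.mem_univ _, by rw [← hlab i j h0, hi.2]⟩
    rw [h0]
    rfl
  · intro i j hij
    rw [Finset.mem_filter, Finset.mem_filter, hlab i j hij]
    simp

end TH57.TT2
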