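import Pool.Agent.TH6.PF.BassT
import Pool.Agent.TH57.TT2.Rect
import Pool.Agent.TH57.TT2.Proj

set_option autoImplicit false
set_option linter.style.haveILetI false
set_option linter.unusedSectionVars false
set_option linter.unusedVariables false

/-! The Hattori–Stallings rank of projective modules with a sparse presentation. -/

namespace TH57.TT2

open Matrix TH57.Thr TH6.PF
open Pool.Agent.H23R2.Cyc (ell ell_single ell_mul_comm ell_eq_sum tf tf_apply)
open Pool.Agent.H26R2.Bass (tf_zero_of_prime tf_zero_of_finite almostDiv_of_tf ell_class tau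
  tau_eq ind_comm)

/-- vanishing at elements of infinite order implies the trace conjecture -/
theorem bass_of_inf {R : Type} [CommRing R] [IsDomain R] {G : Type} [Group G] {k m n : ℕ}
    (A : Matrix (Fin k) (Fin k) (MonoidAlgebra R G)) (hA : A * A = A)
    (M : Matrix (Fin m) (Fin n) (MonoidAlgebra R G))
    (φ : LinearMap.range A.vecMulLinear ≃ₗ[MonoidAlgebra R G] Coker M)
    (g : G) (hg : ¬ IsUnit ((orderOf g : ℕ) : R))
    (hinf : orderOf g = 0 → ∀ X : Matrix (Fin n) (Fin m) (MonoidAlgebra R G), M * X * M = M →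
      tf (Pool.Agent.H26R2.Bass.ind R g) (1 - X * M) = 0) : tau A g = 0 := by
  rw [tau_eq]
  by_cases hfin : orderOf g = 0
  · have hP : Module.Projective (MonoidAlgebra R G) (LinearMap.range A.vecMulLinear) := by
      refine Module.Projective.of_split (LinearMap.range A.vecMulLinear).subtype
        A.vecMulLinear.rangeRestrict ?_
      refine LinearMap.ext fun z => ?_
      obtain ⟨_, ⟨x, rfl⟩⟩ := z
      apply Subtype.ext
      change (x ᵥ* A) ᵥ* A = x ᵥ* A
      rw [Matrix.vecMul_vecMul, hA]
    obtain ⟨X, hX⟩ := regular_of_projective M _ hP φ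
    obtain ⟨U, V, h1, h2⟩ := idem_iso A hA M X hX φ
    rw [← h1, tf_mul_rect _ (ind_comm g), h2, hinf hfin X hX]
  · exact tf_zero_of_finite _ hA g hfin hg

theorem tf_one_inf {R : Type} [CommRing R] {G : Type} [Group G] {n : ℕ} (g : G)
    (hfin : orderOf g = 0) : tf (Pool.Agent.H26R2.Bass.ind R g)
        (1 : Matrix (Fin n) (Fin n) (MonoidAlgebra R G)) = 0 := by
  classical
  rw [tf_apply]
  refine Finset.sum_eq_zero fun i _ => ?_
  rw [Matrix.one_apply_eq, MonoidAlgebra.one_def, ell_single, one_mul]
  unfold Pool.Agent.H26R2.Bass.ind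
  rw [if_neg]
  intro h3
  have h4 : g = 1 := isConj_one_right.1 h3
  rw [h4, orderOf_one] at hfin
  exact one_ne_zero hfin

/-- sparse presentations -/
theorem bass_sparse {R : Type} [CommRing R] [IsDomain R] {G : Type} [Group G] {m n : ℕ}
    (M : Matrix (Fin m) (Fin n) (MonoidAlgebra R G)) (hM : SparseR M)
    (X : Matrix (Fin n) (Fin m) (MonoidAlgebra R G)) (hX : M * X * M = M)
    (g : G) (hfin : orderOf g = 0) : tf (Pool.Agent.H26R2.Bass.ind R g) (1 - X * M) = 0 := by
  classical
  rw [map_sub]
  obtain ⟨ρ, u, C, hst, hC⟩ := rect_lab M hM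
  have h1 : tf (Pool.Agent.H26R2.Bass.ind R g) (X * M) = 0 :=
    bass_pattern M (fun i => ρ (Sum.inl i)) (fun j => ρ (Sum.inr j)) C
      (fun i => u (Sum.inl i)) (fun j => u (Sum.inr j)) hst (fun b => by
        obtain ⟨t, ht⟩ := hC b
        refine ⟨t, ?_⟩
        have : Subgroup.zpowers t = ⊤ := by
          rw [Subgroup.eq_top_iff']
          exact ht
        rw [this]
        infer_instance) X hX g hfin
  rw [h1, tf_one_inf g hfin, sub_zero]

/-! ### at most two nonzero coefficients in every row -/

/-- a row over the group ring of a field with at most two nonzero coefficients has at most two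
terms -/
theorem two_of_support {K : Type} [Field K] {G : Type} [Group G] {n : ℕ}
    (hn : n ≠ 0) (r : Fin n → MonoidAlgebra K G) (hr : ∑ j, nzr (r j) ≤ 2) :
    Two (monoU K G).range r := by
  classical
  have huz : ∀ (g : G) (a : K), UZ (monoU K G).range (MonoidAlgebra.single g a) := by
    intro g a
    by_cases ha : a = 0
    · subst ha
      exact Or.inl (MonoidAlgebra.single_zero g)
    · exact Or.inr ⟨monoU K G (g, Units.mk0 a ha), ⟨_, rfl⟩, rfl⟩
  have hnz : ∀ x : MonoidAlgebra K G, nzr x ≤ 2 → ∃ g h a b,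
      x = MonoidAlgebra.single g a + MonoidAlgebra.single h b := by
    intro x hx
    have hsum : x = ∑ g ∈ x.coeff.support, MonoidAlgebra.single g (x.coeff g) :=
      (MonoidAlgebra.sum_coeff_single x).symm
    have hc : x.coeff.support.card = 0 ∨ x.coeff.support.card = 1 ∨
        x.coeff.support.card = 2 := by unfold nzr at hx; omega
    rcases hc with hc | hc | hc
    · rw [Finset.card_eq_zero] at hc
      rw [hc, Finset.sum_empty] at hsum
      exact ⟨1, 1, 0, 0, by rw [hsum, MonoidAlgebra.single_zero, add_zero]⟩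
    · obtain ⟨g, hg⟩ := Finset.card_eq_one.1 hc
      rw [hg, Finset.sum_singleton] at hsum
      exact ⟨g, 1, x.coeff g, 0, by rw [MonoidAlgebra.single_zero, add_zero]; exact hsum⟩
    · obtain ⟨g, h, hgh, hg⟩ := Finset.card_eq_two.1 hc
      rw [hg, Finset.sum_pair hgh] at hsum
      exact ⟨g, h, _, _, hsum⟩
  have hnz1 : ∀ x : MonoidAlgebra K G, nzr x ≤ 1 → ∃ g a, x = MonoidAlgebra.single g a := by
    intro x hx
    have hsum : x = ∑ g ∈ x.coeff.support, MonoidAlgebra.single g (x.coeff g) :=
      (MonoidAlgebra.sum_coeff_single x).symm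
    have hc : x.coeff.support.card = 0 ∨ x.coeff.support.card = 1 := by
      unfold nzr at hx; omega
    rcases hc with hc | hc
    · rw [Finset.card_eq_zero] at hc
      rw [hc, Finset.sum_empty] at hsum
      exact ⟨1, 0, by rw [hsum, MonoidAlgebra.single_zero]⟩
    · obtain ⟨g, hg⟩ := Finset.card_eq_one.1 hc
      rw [hg, Finset.sum_singleton] at hsum
      exact ⟨g, x.coeff g, hsum⟩
  have hnz0 : ∀ x : MonoidAlgebra K G, nzr x = 0 → x = 0 := by
    intro x hx
    have : x.coeff.support = ∅ := Finset.card_eq_zero.1 hx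
    have h1 : x = ∑ g ∈ x.coeff.support, MonoidAlgebra.single g (x.coeff g) :=
      (MonoidAlgebra.sum_coeff_single x).symm
    rw [h1, this, Finset.sum_empty]
  by_cases h0 : r = 0
  · let c : Fin n := ⟨0, Nat.pos_of_ne_zero hn⟩
    exact ⟨c, c, 0, 0, UZ.zero, UZ.zero, by rw [h0, Pi.single_zero, add_zero]⟩
  · obtain ⟨i, hi⟩ := Function.ne_iff.1 h0
    have hi' : 1 ≤ nzr (r i) := by
      by_contra hcon
      exact hi (hnz0 _ (by omega))
    by_cases h1 : ∃ j, j ≠ i ∧ r j ≠ 0
    · obtain ⟨j, hji, hj⟩ := h1
      have hj' : 1 ≤ nzr (r j) := by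
        by_contra hcon
        exact hj (hnz0 _ (by omega))
      have hle : nzr (r i) + nzr (r j) ≤ 2 := by
        refine le_trans ?_ hr
        rw [← Finset.sum_pair (f := fun j => nzr (r j)) (Ne.symm hji)]
        exact Finset.sum_le_sum_of_subset (Finset.subset_univ _)
      obtain ⟨g, a, ha⟩ := hnz1 (r i) (by omega)
      obtain ⟨h, b, hb⟩ := hnz1 (r j) (by omega)
      refine ⟨i, j, _, _, huz g a, huz h b, ?_⟩
      funext l
      rw [Pi.add_apply]
      by_cases hli : l = i
      · subst hli
        rw [Pi.single_eq_same, Pi.single_eq_of_ne (Ne.symm hji), add_zero, ha]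
      · by_cases hlj : l = j
        · subst hlj
          rw [Pi.single_eq_same, Pi.single_eq_of_ne hli, zero_add, hb]
        · rw [Pi.single_eq_of_ne hli, Pi.single_eq_of_ne hlj, add_zero]
          apply hnz0
          have hle2 : nzr (r i) + (nzr (r j) + nzr (r l)) ≤ 2 := by
            refine le_trans ?_ hr
            rw [← Finset.sum_pair (f := fun j => nzr (r j)) (Ne.symm hlj),
              ← Finset.sum_insert (f := fun j => nzr (r j)) (by
                simp [Ne.symm hji, Ne.symm hli])]
            exact Finset.sum_le_sum_of_subset (Finset.subset_univ _)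
          omega
    · push Not at h1
      have hle : nzr (r i) ≤ 2 := le_trans (Finset.single_le_sum (f := fun j => nzr (r j))
        (fun _ _ => Nat.zero_le _) (Finset.mem_univ i)) hr
      obtain ⟨g, h, a, b, hab⟩ := hnz (r i) hle
      refine ⟨i, i, _, _, huz g a, huz h b, ?_⟩
      funext l
      rw [← Pi.single_add, ← hab]
      by_cases hli : l = i
      · subst hli
        rw [Pi.single_eq_same]
      · rw [Pi.single_eq_of_ne hli, h1 l hli]

/-- the cokernel of a regular matrix is projective -/
theorem proj_coker {S : Type} [Ring S] {m n : ℕ} (M : Matrix (Fin m) (Fin n) S)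
    (X : Matrix (Fin n) (Fin m) S) (hX : M * X * M = M) : Module.Projective S (Coker M) := by
  set T := LinearMap.range M.vecMulLinear with hT
  let f : (Fin n → S) →ₗ[S] (Fin n → S) := LinearMap.id - (X * M).vecMulLinear
  have hf : ∀ x, f x = x - x ᵥ* (X * M) := fun x => rfl
  have hker : T ≤ LinearMap.ker f := by
    rintro _ ⟨y, rfl⟩
    rw [LinearMap.mem_ker, hf, Matrix.vecMulLinear_apply, Matrix.vecMul_vecMul,
      ← Matrix.mul_assoc, hX, sub_self]
  refine Module.Projective.of_split (T.liftQ f hker) T.mkQ ?_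
  refine LinearMap.ext fun y => ?_
  obtain ⟨x, rfl⟩ := Submodule.mkQ_surjective _ y
  change T.mkQ (f x) = T.mkQ x
  rw [hf, map_sub, sub_eq_self, ← LinearMap.mem_ker, Submodule.ker_mkQ]
  exact ⟨x ᵥ* X, by rw [Matrix.vecMulLinear_apply, Matrix.vecMul_vecMul]⟩

/-- two-term presentations over fields -/
theorem bass_two_field {K : Type} [Field K] {G : Type} [Group G] {m n : ℕ}
    (M : Matrix (Fin m) (Fin n) (MonoidAlgebra K G)) (hM : ∀ i, ∑ j, nzr (M i j) ≤ 2)
    (X : Matrix (Fin n) (Fin m) (MonoidAlgebra K G)) (hX : M * X * M = M)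
    (g : G) (hfin : orderOf g = 0) : tf (Pool.Agent.H26R2.Bass.ind K g) (1 - X * M) = 0 := by
  classical
  by_cases hn : n = 0
  · subst hn
    rw [tf_apply]
    exact Finset.sum_eq_zero fun i _ => i.elim0
  haveI := proj_coker M X hX
  have hspan : LinearMap.ker (LinearMap.range M.vecMulLinear).mkQ
      = Submodule.span (MonoidAlgebra K G) (Set.range fun i => M i) := by
    rw [Submodule.ker_mkQ]
    apply le_antisymm
    · rintro _ ⟨y, rfl⟩
      have : y ᵥ* M = ∑ i, y i • M i := by
        funext j
        rw [Finset.sum_apply]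
        rfl
      rw [Matrix.vecMulLinear_apply, this]
      exact Submodule.sum_mem _ fun i _ => Submodule.smul_mem _ _
        (Submodule.subset_span ⟨i, rfl⟩)
    · rw [Submodule.span_le]
      rintro _ ⟨i, rfl⟩
      exact ⟨Pi.single i 1, by rw [Matrix.vecMulLinear_apply, Matrix.single_one_vecMul]; rfl⟩
  obtain ⟨H, e, hH, he, ⟨θ⟩⟩ := proj_two (LinearMap.range M.vecMulLinear).mkQ
    (Submodule.mkQ_surjective _) (Set.range fun i => M i) hspan (by
      rintro _ ⟨i, rfl⟩
      exact two_of_support hn _ (hM i))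
  -- the diagonal idempotent matrix
  let e' : Fin n → MonoidAlgebra K G := fun c => MonoidAlgebra.mapDomain (H c).subtype (e c)
  have he' : ∀ c, e' c * e' c = e' c := by
    intro c
    change MonoidAlgebra.mapDomain (H c).subtype (e c) * MonoidAlgebra.mapDomain (H c).subtype (e c)
      = _
    rw [← MonoidAlgebra.mapDomain_mul, he c]
  let D : Matrix (Fin n) (Fin n) (MonoidAlgebra K G) := Matrix.diagonal e'
  have hD : D * D = D := by
    rw [Matrix.diagonal_mul_diagonal]
    congr 1
    funext c
    exact he' c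
  let Ψ : (Fin n → MonoidAlgebra K G) →ₗ[MonoidAlgebra K G] (∀ c : Fin n, Submodule.span
      (MonoidAlgebra K G) {MonoidAlgebra.mapDomain (H c).subtype (e c)}) :=
    LinearMap.pi fun c => (LinearMap.toSpanSingleton (MonoidAlgebra K G) _
      (⟨_, Submodule.mem_span_singleton_self (MonoidAlgebra.mapDomain (H c).subtype (e c))⟩ :
        Submodule.span (MonoidAlgebra K G) {MonoidAlgebra.mapDomain (H c).subtype (e c)})) ∘ₗ
      LinearMap.proj c
  have hΨ : ∀ w c, ((Ψ w c : Submodule.span (MonoidAlgebra K G)
      {MonoidAlgebra.mapDomain (H c).subtype (e c)}) : MonoidAlgebra K G) = w c * e' c :=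
    fun w c => rfl
  have hΨs : Function.Surjective Ψ := by
    intro y
    have : ∀ c, ∃ a : MonoidAlgebra K G,
        a • MonoidAlgebra.mapDomain (H c).subtype (e c) = (y c : MonoidAlgebra K G) :=
      fun c => Submodule.mem_span_singleton.1 (y c).2
    choose a ha using this
    refine ⟨a, ?_⟩
    funext c
    apply Subtype.ext
    rw [hΨ, ← ha c, smul_eq_mul]
  have hker : LinearMap.ker D.vecMulLinear = LinearMap.ker Ψ := by
    ext w
    rw [LinearMap.mem_ker, LinearMap.mem_ker, Matrix.vecMulLinear_apply]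
    constructor
    · intro h
      funext c
      apply Subtype.ext
      rw [hΨ]
      have := congrFun h c
      rwa [Matrix.vecMul_diagonal] at this
    · intro h
      funext c
      rw [Matrix.vecMul_diagonal, ← hΨ, h]
      rfl
  let φ : LinearMap.range D.vecMulLinear ≃ₗ[MonoidAlgebra K G] Coker M :=
    (D.vecMulLinear.quotKerEquivRange).symm.trans ((Submodule.quotEquivOfEq _ _ hker).trans
      ((Ψ.quotKerEquivOfSurjective hΨs).trans θ.symm))
  obtain ⟨U, V, h1, h2⟩ := idem_iso D hD M X hX φ
  rw [← h2, tf_mul_rect _ (ind_comm g), h1, tf_apply]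
  refine Finset.sum_eq_zero fun c _ => ?_
  change ell _ (Matrix.diagonal e' c c) = 0
  rw [Matrix.diagonal_apply_eq]
  change ell (Pool.Agent.H26R2.Bass.ind K g) (MonoidAlgebra.mapDomain (H c).subtype (e c)) = 0
  generalize e c = x
  induction x using MonoidAlgebra.induction_linear with
  | zero => rw [MonoidAlgebra.mapDomain_zero, map_zero]
  | add x y hx hy => rw [MonoidAlgebra.mapDomain_add, map_add, hx, hy, add_zero]
  | single h a =>
    rw [MonoidAlgebra.mapDomain_single, ell_single]
    unfold Pool.Agent.H26R2.Bass.ind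
    rw [if_neg, mul_zero]
    intro hc
    obtain ⟨k, hk⟩ := isConj_iff.1 hc
    haveI := hH c
    have h3 : IsOfFinOrder g := by
      rw [← hk]
      exact MonoidHom.isOfFinOrder (MulAut.conj k).toMonoidHom
        (MonoidHom.isOfFinOrder (H c).subtype (isOfFinOrder_of_finite h))
    rw [orderOf_eq_zero_iff] at hfin
    exact hfin h3

theorem tf_map {R K : Type} [CommRing R] [CommRing K] {G : Type} [Group G] {n : ℕ} (f : R →+* K)
    (g : G) (A : Matrix (Fin n) (Fin n) (MonoidAlgebra R G)) :
    f (tf (Pool.Agent.H26R2.Bass.ind R g) A)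
      = tf (Pool.Agent.H26R2.Bass.ind K g) (A.map (MonoidAlgebra.mapRingHom G f)) := by
  classical
  rw [tf_apply, tf_apply, map_sum]
  refine Finset.sum_congr rfl fun i _ => ?_
  rw [Matrix.map_apply]
  generalize A i i = x
  induction x using MonoidAlgebra.induction_linear with
  | zero => simp
  | add x y hx hy => rw [map_add, map_add, map_add, map_add, hx, hy]
  | single h a =>
    have : MonoidAlgebra.mapRingHom G f (MonoidAlgebra.single h a)
        = MonoidAlgebra.single h (f a) := by
      ext m
      rw [MonoidAlgebra.coeff_mapRingHom, MonoidAlgebra.coeff_single, MonoidAlgebra.coeff_single,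
        Finsupp.single_apply, Finsupp.single_apply]
      split_ifs <;> simp
    rw [this, ell_single, ell_single, map_mul]
    congr 1
    unfold Pool.Agent.H26R2.Bass.ind
    split_ifs <;> simp

/-- two-term presentations over domains -/
theorem bass_two {R : Type} [CommRing R] [IsDomain R] {G : Type} [Group G] {m n : ℕ}
    (M : Matrix (Fin m) (Fin n) (MonoidAlgebra R G)) (hM : ∀ i, ∑ j, nzr (M i j) ≤ 2)
    (X : Matrix (Fin n) (Fin m) (MonoidAlgebra R G)) (hX : M * X * M = M)
    (g : G) (hfin : orderOf g = 0) : tf (Pool.Agent.H26R2.Bass.ind R g) (1 - X * M) = 0 := by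
  set f : R →+* FractionRing R := algebraMap R (FractionRing R) with hf
  have hinj : Function.Injective f := IsFractionRing.injective R (FractionRing R)
  apply hinj
  rw [map_zero, tf_map f g]
  set F := MonoidAlgebra.mapRingHom G f with hF
  have h1 : (1 - X * M).map F = 1 - X.map F * M.map F := by
    rw [← Matrix.map_mul, ← Matrix.map_one F (map_zero F) (map_one F)]
    exact Matrix.map_sub F (map_sub F) _ _
  rw [h1]
  apply bass_two_field (M.map F) _ (X.map F) _ g hfin
  · intro i
    refine le_trans (Finset.sum_le_sum fun j _ => ?_) (hM i)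
    apply Finset.card_le_card
    intro h hh
    rw [Finsupp.mem_support_iff] at hh ⊢
    intro h0
    apply hh
    rw [Matrix.map_apply, hF, MonoidAlgebra.coeff_mapRingHom, h0, map_zero]
  · rw [← Matrix.map_mul, ← Matrix.map_mul, hX]

/-- **The Bass trace conjecture for projective modules with sparse presentations.** -/
theorem bass_main {R : Type} [CommRing R] [IsDomain R] {G : Type} [Group G] {k m n : ℕ}
    (A : Matrix (Fin k) (Fin k) (MonoidAlgebra R G)) (hA : A * A = A)
    (M : Matrix (Fin m) (Fin n) (MonoidAlgebra R G))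
    (hM : (∀ i, ∑ j, nzr (M i j) ≤ 2) ∨ SparseR M)
    (φ : LinearMap.range A.vecMulLinear ≃ₗ[MonoidAlgebra R G] Coker M)
    (g : G) (hg : ¬ IsUnit ((orderOf g : ℕ) : R)) : tau A g = 0 :=
  bass_of_inf A hA M φ g hg fun hfin X hX => by
    rcases hM with h | h
    · exact bass_two M h X hX g hfin
    · exact bass_sparse M h X hX g hfin

end TH57.TT2
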