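import Pool.Agent.TH57.TT2.KOne
import Pool.Agent.TH57.TT2.Rect

set_option autoImplicit false
set_option linter.style.haveILetI false
set_option linter.unusedSectionVars false
set_option linter.unusedVariables false

/-! One-sided inverses of matrices over group rings with sparse rows. -/

namespace TH57.TT2.DF

open Matrix TH57.Thr TH6.PF TH6.LF TH57.TT2

theorem defect0 {Λ : Type} [CommRing Λ] {α : Type} [Fintype α] [DecidableEq α]
    (θ : Matrix α (α ⊕ Unit) Λ) (η : Matrix (α ⊕ Unit) α Λ) (h : θ * η = 1)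
    (z : Matrix Unit (α ⊕ Unit) Λ) (v : Matrix (α ⊕ Unit) Unit Λ) :
    (z * ((1 : Matrix (α ⊕ Unit) (α ⊕ Unit) Λ) - η * θ) * v : Matrix Unit Unit Λ) () () =
      (fromRows θ z).det * (fromCols η v).det := by
  rw [← Matrix.det_mul, fromRows_mul_fromCols, h, det_fromBlocks_one₁₁, Matrix.det_unique]
  congr 1
  simp only [Matrix.mul_sub, Matrix.sub_mul, Matrix.mul_one, Matrix.mul_assoc]

/-- over a commutative ring the defect of an `r × (r+1)` matrix with a right inverse has rank one -/
theorem defect {Λ : Type} [CommRing Λ] {α β : Type} [Fintype α] [DecidableEq α] [Fintype β]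
    [DecidableEq β] (e : β ≃ α ⊕ Unit) (θ : Matrix α β Λ) (η : Matrix β α Λ) (h : θ * η = 1) :
    ∃ p q : β → Λ, ∀ j k, (1 : Matrix β β Λ) j k - (η * θ) j k = p j * q k := by
  have h' : θ.submatrix id e.symm * η.submatrix e.symm id = 1 := by
    rw [Matrix.submatrix_mul_equiv, h]
    rfl
  refine ⟨fun j => (fromRows (θ.submatrix id e.symm)
      (Matrix.of fun _ i => if i = e j then 1 else 0)).det,
    fun k => (fromCols (η.submatrix e.symm id)
      (Matrix.of fun i _ => if i = e k then 1 else 0)).det, ?_⟩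
  intro j k
  rw [← defect0 _ _ h', Matrix.mul_apply]
  simp only [Matrix.mul_apply, Matrix.of_apply, ite_mul, one_mul, zero_mul, mul_ite, mul_one,
    mul_zero, Finset.sum_ite_eq', Finset.sum_ite_eq, Finset.mem_univ, if_true, Matrix.sub_apply,
    Matrix.submatrix_apply, Equiv.symm_apply_apply, id_eq]
  congr 1
  simp [Matrix.one_apply]

variable {R : Type} [CommRing R] {G : Type} [Group G] {ι κ : Type} [Fintype ι] [DecidableEq ι]
  [Fintype κ] [DecidableEq κ]

theorem coeff_dm (u : ι → G) (v : κ → G) (M : Matrix ι κ (MonoidAlgebra R G)) (i : ι) (j : κ)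
    (g : G) :
    (((dmU R u).val * M * (dmU R v)⁻¹.val) i j).coeff g
      = (M i j).coeff ((u i)⁻¹ * g * v j) := by
  change ((Matrix.diagonal (fun i => MonoidAlgebra.single (u i) (1 : R)) * M
    * Matrix.diagonal (fun i => MonoidAlgebra.single (v i)⁻¹ (1 : R)) :
      Matrix ι κ (MonoidAlgebra R G)) i j).coeff g = _
  rw [Matrix.mul_diagonal, Matrix.diagonal_mul, MonoidAlgebra.coeff_mul_single_apply,
    MonoidAlgebra.coeff_single_mul_apply]
  simp [mul_assoc]

theorem card_le {H : Type} [Group H] [Nontrivial R] {α β : Type} [Fintype α] [DecidableEq α]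
    [Fintype β] [DecidableEq β] (θ : Matrix α β (MonoidAlgebra R H))
    (η : Matrix β α (MonoidAlgebra R H)) (h : θ * η = 1) : Fintype.card α ≤ Fintype.card β := by
  have h1 : (θ.map (augR R H)) * (η.map (augR R H)) = 1 := by
    rw [← Matrix.map_mul, h, Matrix.map_one _ (map_zero _) (map_one _)]
  apply card_le_of_surjective R (θ.map (augR R H)).mulVecLin
  intro y
  refine ⟨(η.map (augR R H)).mulVec y, ?_⟩
  rw [Matrix.mulVecLin_apply, Matrix.mulVec_mulVec, h1, Matrix.one_mulVec]

theorem comm_defect {H : Type} [Group H] (hH : ∀ x y : H, x * y = y * x) {α β : Type}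
    [Fintype α] [DecidableEq α] [Fintype β] [DecidableEq β]
    (θ : Matrix α β (MonoidAlgebra R H)) (η : Matrix β α (MonoidAlgebra R H)) (h : θ * η = 1)
    (hc : Fintype.card α ≤ Fintype.card β) (hc' : Fintype.card β ≤ Fintype.card α + 1) :
    ∃ p q : β → MonoidAlgebra R H,
      (∀ j k, (1 : Matrix β β (MonoidAlgebra R H)) j k - (η * θ) j k = p j * q k) ∧
      (Fintype.card β ≤ Fintype.card α → p = 0 ∧ q = 0) := by
  letI cg : CommGroup H := { (inferInstance : Group H) with mul_comm := hH }
  by_cases h1 : Fintype.card β ≤ Fintype.card α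
  · have h2 : η * θ = 1 :=
      (Matrix.mul_eq_one_comm_of_card_eq _ _ (MonoidAlgebra R H) (le_antisymm hc h1)).1 h
    refine ⟨0, 0, fun j k => ?_, fun _ => ⟨rfl, rfl⟩⟩
    rw [h2]
    simp
  · have h2 : Fintype.card β = Fintype.card (α ⊕ Unit) := by
      rw [Fintype.card_sum, Fintype.card_unit]; omega
    obtain ⟨p, q, hpq⟩ := defect (Λ := MonoidAlgebra R H) (Fintype.equivOfCardEq h2) θ η h
    exact ⟨p, q, hpq, fun h3 => absurd h3 h1⟩

end TH57.TT2.DF
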