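import Pool.Agent.TH57.TT2.DF

set_option autoImplicit false
set_option linter.style.haveILetI false
set_option linter.unusedSectionVars false
set_option linter.unusedVariables false

/-! One-sided inverses of matrices over group rings with sparse rows. -/

namespace TH57.TT2.DF

open Matrix TH57.Thr TH6.PF TH6.LF TH57.TT2

variable {R : Type} [CommRing R] {G : Type} [Group G] {ι κ : Type} [Fintype ι] [DecidableEq ι]
  [Fintype κ] [DecidableEq κ]

theorem blockSum_apply {α γ β : Type} [DecidableEq β] (ρ : α → β) (σ : γ → β) (C : β → Subgroup G)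
    (θ : ∀ a, Matrix {i // ρ i = a} {j // σ j = a} (MonoidAlgebra R (C a))) (i : α) (j : γ)
    (a : β) (h1 : ρ i = a) (h2 : σ j = a) :
    blockSum ρ σ C θ i j = MonoidAlgebra.mapDomainRingHom R (C a).subtype (θ a ⟨i, h1⟩ ⟨j, h2⟩) := by
  subst h1
  exact dif_pos h2

open Classical in
theorem key [Nontrivial R] (A : Matrix ι κ (MonoidAlgebra R G)) (B : Matrix κ ι (MonoidAlgebra R G))
    (h : A * B = 1) (hc : Fintype.card κ ≤ Fintype.card ι + 1)
    (hA : ∀ (S : Finset ι) (T : Finset κ), (∀ i j, A i j ≠ 0 → (i ∈ S ↔ j ∈ T)) →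
      S.card ≤ T.card → T.card + Fintype.card ι ≤ S.card + Fintype.card κ →
      ∑ i ∈ S, ∑ j ∈ T, nzr (A i j) ≤ S.card + T.card) :
    ∃ P Q : κ → MonoidAlgebra R G, (Fintype.card κ ≤ Fintype.card ι → P = 0) ∧
      ∀ v : κ → MonoidAlgebra R G, A.mulVec v = 0 → ∀ j, v j = P j * ∑ k, Q k * v k := by
  obtain ⟨r, w, C, hL⟩ := exists_lab (supR A)
  set ρ : ι → ι ⊕ κ := fun i => r (Sum.inl i) with hρ
  set σ : κ → ι ⊕ κ := fun j => r (Sum.inr j) with hσ
  set u : ι → G := fun i => w (Sum.inl i) with hu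
  set t : κ → G := fun j => w (Sum.inr j) with ht
  set A' : Matrix ι κ (MonoidAlgebra R G) := (dmU R u).val * A * (dmU R t)⁻¹.val with hA'
  set B' : Matrix κ ι (MonoidAlgebra R G) := (dmU R t).val * B * (dmU R u)⁻¹.val with hB'
  have hAB' : A' * B' = 1 := by
    rw [hA', hB']
    calc _ = (dmU R u).val * (A * (((dmU R t)⁻¹.val * (dmU R t).val) * (B * (dmU R u)⁻¹.val))) := by
           simp only [Matrix.mul_assoc]
      _ = 1 := by
        rw [Units.inv_mul, Matrix.one_mul, ← Matrix.mul_assoc A, h, Matrix.one_mul, Units.mul_inv]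
  have hBs : ∀ i j g, (A' i j).coeff g ≠ 0 → ρ i = σ j ∧ g ∈ C (ρ i) := by
    intro i j g hg
    rw [hA', coeff_dm] at hg
    have h1 := hL.mem _ ((mem_supR _ _ _ _).2 hg)
    refine ⟨h1.1, ?_⟩
    have h2 := h1.2
    have h3 : w (Sum.inl i) * ((u i)⁻¹ * g * t j) * (w (Sum.inr j))⁻¹ = g := by
      rw [hu, ht]; group
    change w (Sum.inl i) * ((u i)⁻¹ * g * t j) * (w (Sum.inr j))⁻¹ ∈ C (ρ i) at h2
    rwa [h3] at h2
  have hinv : ∀ a, blk ρ σ C A' a * blk σ ρ C B' a = 1 := fun a => blk_mul ρ σ C _ _ hAB' hBs a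
  have hle : ∀ a, (Finset.univ.filter fun i => ρ i = a).card ≤
      (Finset.univ.filter fun j => σ j = a).card := by
    intro a
    have := card_le _ _ (hinv a)
    rwa [Fintype.card_subtype, Fintype.card_subtype] at this
  set f : ι ⊕ κ → ℕ := fun a => (Finset.univ.filter fun j => σ j = a).card -
    (Finset.univ.filter fun i => ρ i = a).card with hf
  have hfa : ∀ a, (Finset.univ.filter fun j => σ j = a).card =
      (Finset.univ.filter fun i => ρ i = a).card + f a := fun a => by
    have := hle a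
    simp only [hf]
    omega
  have hsum : Fintype.card κ = Fintype.card ι + ∑ a, f a := by
    have e1 : Fintype.card κ = ∑ a, (Finset.univ.filter fun j => σ j = a).card :=
      Finset.card_eq_sum_card_fiberwise (fun _ _ => Finset.mem_univ _)
    have e2 : Fintype.card ι = ∑ a, (Finset.univ.filter fun i => ρ i = a).card :=
      Finset.card_eq_sum_card_fiberwise (fun _ _ => Finset.mem_univ _)
    rw [e1, e2, ← Finset.sum_add_distrib]
    exact Finset.sum_congr rfl fun a _ => hfa a
  have hf1 : ∀ a, f a ≤ ∑ b, f b := fun a =>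
    Finset.single_le_sum (fun b _ => Nat.zero_le _) (Finset.mem_univ a)
  have hf2 : ∀ a b, a ≠ b → f a + f b ≤ ∑ c, f c := fun a b hab => by
    rw [← Finset.sum_pair hab]
    exact Finset.sum_le_sum_of_subset (Finset.subset_univ _)
  have hlab : ∀ i j, A i j ≠ 0 → r (Sum.inl i) = r (Sum.inr j) := by
    intro i j hij
    obtain ⟨g, hg⟩ := exists_coeff' hij
    exact (hL.mem _ ((mem_supR A i j g).2 hg)).1
  have hcyc : ∀ a, IsCyclic (C a) := by
    intro a
    apply hL.cyc
    rw [nE_supR, nV_supR]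
    refine le_trans (le_of_eq ?_) (hA _ _ ?_ (hle a) ?_)
    · refine Finset.sum_congr rfl fun i hi => ?_
      symm
      apply Finset.sum_subset (Finset.subset_univ _)
      intro j _ hj
      rw [Finset.mem_filter] at hi hj
      have h0 : A i j = 0 := by
        by_contra h0
        exact hj ⟨Finset.mem_univ _, by
          change r (Sum.inr j) = a
          rw [← hlab i j h0]
          exact hi.2⟩
      rw [h0]
      rfl
    · intro i j hij
      rw [Finset.mem_filter, Finset.mem_filter]
      simp only [Finset.mem_univ, true_and]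
      change r (Sum.inl i) = a ↔ r (Sum.inr j) = a
      rw [hlab i j hij]
    · have h1 := hfa a
      have h2 := hf1 a
      change (Finset.univ.filter fun j => σ j = a).card + Fintype.card ι ≤
        (Finset.univ.filter fun i => ρ i = a).card + Fintype.card κ
      omega
  have hcomm : ∀ a, ∀ x y : C a, x * y = y * x := by
    intro a x y
    haveI := hcyc a
    letI : CommGroup (C a) := IsCyclic.commGroup
    exact mul_comm x y
  have hd := fun a => comm_defect (hcomm a) _ _ (hinv a)
    (by rw [Fintype.card_subtype, Fintype.card_subtype]; exact hle a)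
    (by
      rw [Fintype.card_subtype, Fintype.card_subtype]
      have := hfa a
      have := hf1 a
      omega)
  choose p q hpq hpq0 using hd
  have hz : ∀ a, f a = 0 → p a = 0 ∧ q a = 0 := fun a ha => hpq0 a (by
    rw [Fintype.card_subtype, Fintype.card_subtype]
    have := hfa a
    omega)
  let P0 : κ → MonoidAlgebra R G := fun j =>
    MonoidAlgebra.mapDomainRingHom R (C (σ j)).subtype (p (σ j) ⟨j, rfl⟩)
  let Q0 : κ → MonoidAlgebra R G := fun j =>
    MonoidAlgebra.mapDomainRingHom R (C (σ j)).subtype (q (σ j) ⟨j, rfl⟩)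
  have hP0 : ∀ (j : κ) (a : ι ⊕ κ) (h1 : σ j = a),
      P0 j = MonoidAlgebra.mapDomainRingHom R (C a).subtype (p a ⟨j, h1⟩) := by
    rintro j a rfl
    rfl
  have hQ0 : ∀ (j : κ) (a : ι ⊕ κ) (h1 : σ j = a),
      Q0 j = MonoidAlgebra.mapDomainRingHom R (C a).subtype (q a ⟨j, h1⟩) := by
    rintro j a rfl
    rfl
  set N : Matrix κ ι (MonoidAlgebra R G) := blockSum σ ρ C (fun a => blk σ ρ C B' a) with hN
  have hNA : N * A' = blockSum σ σ C (fun a => blk σ ρ C B' a * blk ρ σ C A' a) := by
    conv_lhs => rw [← blockSum_blk ρ σ C A' hBs]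
    exact blockSum_mul σ ρ C σ _ _
  have hF : ∀ j k, (1 : Matrix κ κ (MonoidAlgebra R G)) j k - (N * A') j k = P0 j * Q0 k := by
    intro j k
    rw [hNA]
    by_cases hjk : σ k = σ j
    · rw [blockSum_apply σ σ C _ j k (σ j) rfl hjk, hP0 j (σ j) rfl, hQ0 k (σ j) hjk, ← map_mul,
        ← hpq (σ j) ⟨j, rfl⟩ ⟨k, hjk⟩, map_sub]
      congr 1
      rw [Matrix.one_apply, Matrix.one_apply]
      by_cases hj : j = k
      · rw [if_pos hj, if_pos (Subtype.ext hj), map_one]
      · rw [if_neg hj, if_neg (fun h' => hj (congrArg Subtype.val h')), map_zero]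
    · have h1 : blockSum σ σ C (fun a => blk σ ρ C B' a * blk ρ σ C A' a) j k = 0 :=
        dif_neg hjk
      have h2 : (1 : Matrix κ κ (MonoidAlgebra R G)) j k = 0 :=
        Matrix.one_apply_ne (fun h' => hjk (by rw [h']))
      rw [h1, h2, sub_zero]
      symm
      by_cases h3 : f (σ j) = 0
      · have h4 : P0 j = 0 := by
          change MonoidAlgebra.mapDomainRingHom R (C (σ j)).subtype (p (σ j) ⟨j, rfl⟩) = 0
          rw [(hz _ h3).1]
          exact map_zero _
        rw [h4, zero_mul]
      · have h3' : f (σ k) = 0 := by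
          have := hf2 (σ k) (σ j) hjk
          omega
        have h4 : Q0 k = 0 := by
          change MonoidAlgebra.mapDomainRingHom R (C (σ k)).subtype (q (σ k) ⟨k, rfl⟩) = 0
          rw [(hz _ h3').2]
          exact map_zero _
        rw [h4, mul_zero]
  refine ⟨fun j => MonoidAlgebra.single (t j)⁻¹ 1 * P0 j,
    fun k => Q0 k * MonoidAlgebra.single (t k) 1, ?_, ?_⟩
  · intro hcard
    funext j
    have h3 : f (σ j) = 0 := by
      have := hf1 (σ j)
      omega
    have h4 : P0 j = 0 := by
      change MonoidAlgebra.mapDomainRingHom R (C (σ j)).subtype (p (σ j) ⟨j, rfl⟩) = 0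
      rw [(hz _ h3).1]
      exact map_zero _
    change MonoidAlgebra.single (t j)⁻¹ 1 * P0 j = 0
    rw [h4, mul_zero]
  · intro v hv j
    set v' : κ → MonoidAlgebra R G := (dmU R t).val.mulVec v with hv'
    have hv'j : ∀ k, v' k = MonoidAlgebra.single (t k) 1 * v k := by
      intro k
      change (Matrix.diagonal (fun i => MonoidAlgebra.single (t i) (1 : R))).mulVec v k = _
      rw [Matrix.mulVec_diagonal]
    have hAv : A'.mulVec v' = 0 := by
      rw [hA', hv', Matrix.mulVec_mulVec, Matrix.mul_assoc, Units.inv_mul, Matrix.mul_one,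
        ← Matrix.mulVec_mulVec, hv, Matrix.mulVec_zero]
    have h5 : v' j = P0 j * ∑ k, Q0 k * v' k := by
      have h6 : (N * A').mulVec v' j = 0 := by
        rw [← Matrix.mulVec_mulVec, hAv, Matrix.mulVec_zero]
        rfl
      have h7 : v' j = ∑ k, ((1 : Matrix κ κ (MonoidAlgebra R G)) j k - (N * A') j k) * v' k := by
        simp only [sub_mul, Finset.sum_sub_distrib]
        have h8 : ∑ k, (1 : Matrix κ κ (MonoidAlgebra R G)) j k * v' k = v' j := by
          have := congrFun (Matrix.one_mulVec v') j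
          exact this
        have h9 : ∑ k, (N * A') j k * v' k = 0 := h6
        rw [h8, h9, sub_zero]
      rw [h7, Finset.mul_sum]
      refine Finset.sum_congr rfl fun k _ => ?_
      rw [hF, mul_assoc]
    have h10 : v j = MonoidAlgebra.single (t j)⁻¹ 1 * v' j := by
      rw [hv'j, ← mul_assoc, MonoidAlgebra.single_mul_single]
      simp [← MonoidAlgebra.one_def]
    rw [h10, h5, ← mul_assoc]
    congr 1
    refine Finset.sum_congr rfl fun k _ => ?_
    rw [hv'j, mul_assoc]

/-- all rows short -/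
theorem square [Nontrivial R] (A B : Matrix κ κ (MonoidAlgebra R G)) (h : A * B = 1)
    (hA : ∀ (S T : Finset κ), (∀ i j, A i j ≠ 0 → (i ∈ S ↔ j ∈ T)) → S.card = T.card →
      ∑ i ∈ S, ∑ j ∈ T, nzr (A i j) ≤ 2 * S.card) : B * A = 1 := by
  obtain ⟨P, Q, hP, hPQ⟩ := key A B h (Nat.le_succ _) (fun S T hST h1 h2 => by
    have := hA S T hST (by omega)
    omega)
  have h0 : ∀ v : κ → MonoidAlgebra R G, A.mulVec v = 0 → v = 0 := by
    intro v hv
    funext j
    rw [hPQ v hv j, hP le_rfl]
    simp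
  rw [← sub_eq_zero]
  have h1 : A * (B * A - 1) = 0 := by
    rw [Matrix.mul_sub, ← Matrix.mul_assoc, h, Matrix.one_mul, Matrix.mul_one, sub_self]
  ext1 i j
  have h2 := h0 (fun k => (B * A - 1 : Matrix κ κ (MonoidAlgebra R G)) k j) (by
    funext i
    exact congrFun (congrFun h1 i) j)
  exact congrFun h2 i

/-- all rows but one short -/
theorem oneLong [Nontrivial R] (A B : Matrix κ κ (MonoidAlgebra R G)) (h : A * B = 1) (i0 : κ)
    (hA : ∀ i, i ≠ i0 → ∑ j, nzr (A i j) ≤ 2)
    (hG : ∀ x y : MonoidAlgebra R G, x * y = 1 → y * x = 1) : B * A = 1 := by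
  set A1 : Matrix {i // i ≠ i0} κ (MonoidAlgebra R G) := A.submatrix Subtype.val id with hA1
  set B1 : Matrix κ {i // i ≠ i0} (MonoidAlgebra R G) := B.submatrix id Subtype.val with hB1
  have h1 : A1 * B1 = 1 := by
    ext1 i k
    have : (A1 * B1) i k = (A * B) i.1 k.1 := rfl
    rw [this, h, Matrix.one_apply, Matrix.one_apply]
    simp only [Subtype.ext_iff]
  have hcard : Fintype.card {i // i ≠ i0} + 1 = Fintype.card κ := by
    rw [Fintype.card_subtype_compl, Fintype.card_subtype_eq]
    have : 0 < Fintype.card κ := Fintype.card_pos_iff.2 ⟨i0⟩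
    omega
  obtain ⟨P, Q, -, hPQ⟩ := key A1 B1 h1 (by omega) (fun S T hST h1 h2 => by
    calc ∑ i ∈ S, ∑ j ∈ T, nzr (A1 i j) ≤ ∑ i ∈ S, 2 := Finset.sum_le_sum fun i _ =>
          le_trans (Finset.sum_le_sum_of_subset (Finset.subset_univ _)) (hA i.1 i.2)
      _ = S.card * 2 := by rw [Finset.sum_const, smul_eq_mul]
      _ ≤ S.card + T.card := by omega)
  set x := ∑ j, A i0 j * P j with hx
  set y := ∑ k, Q k * B k i0 with hy
  have hb : ∀ j, B j i0 = P j * y := by
    apply hPQ (fun k => B k i0)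
    funext i
    have : A1.mulVec (fun k => B k i0) i = (A * B) i.1 i0 := rfl
    rw [this, h, Matrix.one_apply_ne i.2]
    rfl
  have hxy : x * y = 1 := by
    have h2 : (A * B) i0 i0 = 1 := by rw [h, Matrix.one_apply_eq]
    rw [Matrix.mul_apply] at h2
    rw [← h2, hx, Finset.sum_mul]
    refine Finset.sum_congr rfl fun j _ => ?_
    rw [hb j, mul_assoc]
  have hyx := hG x y hxy
  have h0 : ∀ v : κ → MonoidAlgebra R G, A.mulVec v = 0 → v = 0 := by
    intro v hv
    have h3 := hPQ v (by
      funext i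
      exact congrFun hv i.1)
    have h4 : x * ∑ k, Q k * v k = 0 := by
      have h5 : ∑ j, A i0 j * v j = 0 := congrFun hv i0
      rw [hx, Finset.sum_mul, ← h5]
      refine Finset.sum_congr rfl fun j _ => ?_
      rw [mul_assoc, ← h3 j]
    have h6 : ∑ k, Q k * v k = 0 := by
      rw [← one_mul (∑ k, Q k * v k), ← hyx, mul_assoc, h4, mul_zero]
    funext j
    rw [h3 j, h6, mul_zero]
    rfl
  rw [← sub_eq_zero]
  have h1 : A * (B * A - 1) = 0 := by
    rw [Matrix.mul_sub, ← Matrix.mul_assoc, h, Matrix.one_mul, Matrix.mul_one, sub_self]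
  ext1 i j
  have h2 := h0 (fun k => (B * A - 1 : Matrix κ κ (MonoidAlgebra R G)) k j) (by
    funext i
    exact congrFun (congrFun h1 i) j)
  exact congrFun h2 i

end TH57.TT2.DF
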