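import Pool.Agent.TH57.TT2.DF2

set_option autoImplicit false
set_option linter.style.haveILetI false
set_option linter.unusedSectionVars false
set_option linter.unusedVariables false

/-! One-sided inverses of matrices over group rings with sparse rows: one long row per block. -/

namespace TH57.TT2.DF

open Matrix TH57.Thr TH6.PF TH6.LF TH57.TT2

variable {R : Type} [CommRing R] {G : Type} [Group G] {κ : Type} [Fintype κ] [DecidableEq κ]

theorem sum_sub {M : Type} [AddCommMonoid M] (p : κ → Prop) [DecidablePred p] (f : κ → M)
    (h : ∀ j, ¬ p j → f j = 0) : ∑ j : {j // p j}, f j.1 = ∑ j, f j := by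
  rw [← Fintype.sum_subtype_add_sum_subtype p f]
  have : ∑ j : {j // ¬ p j}, f j.1 = 0 := Finset.sum_eq_zero fun j _ => h j.1 j.2
  rw [this, add_zero]

theorem blocks [Nontrivial R] (A B : Matrix κ κ (MonoidAlgebra R G)) (h : A * B = 1)
    (c d : κ → ℕ) (hcd : ∀ i j, A i j ≠ 0 → c i = d j)
    (hA : ∀ i i', i ≠ i' → c i = c i' → ∑ j, nzr (A i j) ≤ 2 ∨ ∑ j, nzr (A i' j) ≤ 2)
    (hG : ∀ x y : MonoidAlgebra R G, x * y = 1 → y * x = 1) : B * A = 1 := by
  classical
  have h00 : ∀ i j, c i ≠ d j → A i j = 0 := fun i j hij => by
    by_contra h0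
    exact hij (hcd i j h0)
  have hAa : ∀ a : ℕ, (A.submatrix Subtype.val Subtype.val :
      Matrix {i // c i = a} {j // d j = a} (MonoidAlgebra R G)) *
      (B.submatrix Subtype.val Subtype.val :
      Matrix {j // d j = a} {i // c i = a} (MonoidAlgebra R G)) = 1 := by
    intro a
    ext1 i k
    rw [Matrix.mul_apply]
    simp only [Matrix.submatrix_apply]
    rw [sum_sub (fun j => d j = a) (fun j => A i.1 j * B j k.1) (fun j hj => by
      rw [h00 i.1 j (fun h' => hj (by rw [← h', i.2])), zero_mul])]
    rw [← Matrix.mul_apply, h, Matrix.one_apply, Matrix.one_apply]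
    simp only [Subtype.ext_iff]
  have hle : ∀ a, (Finset.univ.filter fun i => c i = a).card ≤
      (Finset.univ.filter fun j => d j = a).card := by
    intro a
    have := card_le _ _ (hAa a)
    rwa [Fintype.card_subtype, Fintype.card_subtype] at this
  have heq : ∀ j, (Finset.univ.filter fun i => c i = d j).card =
      (Finset.univ.filter fun k => d k = d j).card := by
    intro j
    set t : Finset ℕ := Finset.univ.image c ∪ Finset.univ.image d with ht
    have e1 : Fintype.card κ = ∑ a ∈ t, (Finset.univ.filter fun i => c i = a).card :=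
      Finset.card_eq_sum_card_fiberwise (fun i _ =>
        Finset.mem_union_left _ (Finset.mem_image_of_mem _ (Finset.mem_univ i)))
    have e2 : Fintype.card κ = ∑ a ∈ t, (Finset.univ.filter fun i => d i = a).card :=
      Finset.card_eq_sum_card_fiberwise (fun i _ =>
        Finset.mem_union_right _ (Finset.mem_image_of_mem _ (Finset.mem_univ i)))
    exact (Finset.sum_eq_sum_iff_of_le (fun a _ => hle a)).1 (e1.symm.trans e2) _
      (Finset.mem_union_right _ (Finset.mem_image_of_mem _ (Finset.mem_univ j)))
  have h0 : ∀ v : κ → MonoidAlgebra R G, A.mulVec v = 0 → v = 0 := by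
    intro v hv
    funext j
    have hcard : Fintype.card {i // c i = d j} = Fintype.card {k // d k = d j} := by
      rw [Fintype.card_subtype, Fintype.card_subtype]; exact heq j
    let e : {i // c i = d j} ≃ {k // d k = d j} := Fintype.equivOfCardEq hcard
    set M : Matrix {k // d k = d j} {k // d k = d j} (MonoidAlgebra R G) :=
      (A.submatrix Subtype.val Subtype.val :
        Matrix {i // c i = d j} {k // d k = d j} (MonoidAlgebra R G)).submatrix e.symm id with hM
    set N : Matrix {k // d k = d j} {k // d k = d j} (MonoidAlgebra R G) :=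
      (B.submatrix Subtype.val Subtype.val :
        Matrix {k // d k = d j} {i // c i = d j} (MonoidAlgebra R G)).submatrix id e.symm with hN
    have hMN : M * N = 1 := by
      have : M * N = ((A.submatrix Subtype.val Subtype.val :
          Matrix {i // c i = d j} {k // d k = d j} (MonoidAlgebra R G)) *
          (B.submatrix Subtype.val Subtype.val :
          Matrix {k // d k = d j} {i // c i = d j} (MonoidAlgebra R G))).submatrix e.symm e.symm :=
        rfl
      rw [this, hAa (d j), Matrix.submatrix_one_equiv]
    have hrow : ∀ i : {k // d k = d j}, ∑ k, nzr (M i k) ≤ ∑ k, nzr (A (e.symm i).1 k) := by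
      intro i
      exact le_of_eq (sum_sub (fun k => d k = d j) (fun k => nzr (A (e.symm i).1 k))
        (fun k hk => by
          have : A (e.symm i).1 k = 0 := h00 _ _ (fun h' => hk (by rw [← h', (e.symm i).2]))
          simp only [this]
          rfl))
    have hNM : N * M = 1 := by
      by_cases hl : ∃ i : {k // d k = d j}, ¬ ∑ k, nzr (A (e.symm i).1 k) ≤ 2
      · obtain ⟨i0, hi0⟩ := hl
        refine oneLong M N hMN i0 (fun i hi => ?_) hG
        refine le_trans (hrow i) ?_
        rcases hA (e.symm i).1 (e.symm i0).1 (fun h' => hi (e.symm.injective (Subtype.ext h')))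
          ((e.symm i).2.trans (e.symm i0).2.symm) with h1 | h1
        · exact h1
        · exact absurd h1 hi0
      · push Not at hl
        exact oneLong M N hMN ⟨j, rfl⟩ (fun i _ => le_trans (hrow i) (hl i)) hG
    have hMv : M.mulVec (fun k => v k.1) = 0 := by
      funext i
      change ∑ k : {k // d k = d j}, A (e.symm i).1 k.1 * v k.1 = 0
      rw [sum_sub (fun k => d k = d j) (fun k => A (e.symm i).1 k * v k) (fun k hk => by
        have : A (e.symm i).1 k = 0 := h00 _ _ (fun h' => hk (by rw [← h', (e.symm i).2]))
        rw [this, zero_mul])]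
      exact congrFun hv (e.symm i).1
    have h3 : (fun k : {k // d k = d j} => v k.1) = 0 := by
      rw [← Matrix.one_mulVec (fun k : {k // d k = d j} => v k.1), ← hNM, ← Matrix.mulVec_mulVec,
        hMv, Matrix.mulVec_zero]
    exact congrFun h3 ⟨j, rfl⟩
  rw [← sub_eq_zero]
  have h1 : A * (B * A - 1) = 0 := by
    rw [Matrix.mul_sub, ← Matrix.mul_assoc, h, Matrix.one_mul, Matrix.mul_one, sub_self]
  ext1 i j
  have h2 := h0 (fun k => (B * A - 1 : Matrix κ κ (MonoidAlgebra R G)) k j) (by
    funext i
    exact congrFun (congrFun h1 i) j)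
  exact congrFun h2 i

end TH57.TT2.DF
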