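import Pool.Agent.TH57.TT2.KR3

set_option autoImplicit false
set_option linter.style.haveILetI false
set_option linter.unusedSectionVars false
set_option linter.unusedVariables false

/-! Rings graded by a group with unique sums in which the nonzero homogeneous elements are
invertible: homogeneous components. -/

namespace TH57.TT2.GR

open Matrix TH57.Thr DirectSum

variable {ι : Type} [AddGroup ι] [DecidableEq ι] {S : Type} [Ring S] (𝒜 : ι → AddSubgroup S)
  [GradedRing 𝒜]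

/-- the degrees of the nonzero homogeneous components -/
def comps (x : S) : Set ι := {i | (decompose 𝒜 x i : S) ≠ 0}

theorem comps_finite (x : S) : (comps 𝒜 x).Finite := by
  classical
  refine Set.Finite.subset (Finset.finite_toSet (decompose 𝒜 x).support) fun i hi => ?_
  rw [Finset.mem_coe, DFinsupp.mem_support_iff]
  intro h
  apply hi
  rw [h]; rfl

/-- the number of nonzero homogeneous components -/
noncomputable def hc (x : S) : ℕ := (comps 𝒜 x).ncard

theorem hc_zero : hc 𝒜 (0 : S) = 0 := by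
  have : comps 𝒜 (0 : S) = ∅ := by
    ext i
    simp [comps]
  rw [hc, this, Set.ncard_empty]

theorem comps_empty {x : S} (h : comps 𝒜 x = ∅) : x = 0 := by
  apply (decompose 𝒜).injective
  rw [decompose_zero]
  ext i
  by_contra hne
  have : i ∈ comps 𝒜 x := fun h0 => hne (by rw [h0]; rfl)
  rw [h] at this
  exact this

theorem hc_eq_zero {x : S} (h : hc 𝒜 x = 0) : x = 0 :=
  comps_empty 𝒜 ((Set.ncard_eq_zero (comps_finite 𝒜 x)).1 h)

theorem hc_add (x y : S) : hc 𝒜 (x + y) ≤ hc 𝒜 x + hc 𝒜 y := by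
  refine le_trans (Set.ncard_le_ncard ?_ ((comps_finite 𝒜 x).union (comps_finite 𝒜 y)))
    (Set.ncard_union_le _ _)
  intro i hi
  by_contra hcon
  rw [Set.mem_union, not_or] at hcon
  apply hi
  have h1 : (decompose 𝒜 x i : S) = 0 := not_not.1 hcon.1
  have h2 : (decompose 𝒜 y i : S) = 0 := not_not.1 hcon.2
  rw [decompose_add, DirectSum.add_apply, AddSubgroup.coe_add, h1, h2, add_zero]

theorem hc_mul_hom (x b : S) (j : ι) (hb : b ∈ 𝒜 j) : hc 𝒜 (x * b) ≤ hc 𝒜 x := by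
  refine le_trans (Set.ncard_le_ncard ?_ ((comps_finite 𝒜 x).image (· + j)))
    (Set.ncard_image_le (comps_finite 𝒜 x))
  intro i hi
  refine ⟨i - j, fun h0 => hi ?_, sub_add_cancel _ _⟩
  have h1 := coe_decompose_mul_add_of_right_mem 𝒜 (a := x) (i := i - j) hb
  rw [sub_add_cancel] at h1
  rw [h1, h0, zero_mul]

theorem hc_le_one {x : S} (h : hc 𝒜 x ≤ 1) : ∃ i, x ∈ 𝒜 i := by
  rcases Set.eq_empty_or_nonempty (comps 𝒜 x) with h0 | ⟨i, hi⟩
  · exact ⟨0, by rw [comps_empty 𝒜 h0]; exact zero_mem _⟩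
  · refine ⟨i, ?_⟩
    have h1 : ∀ j, j ≠ i → (decompose 𝒜 x j : S) = 0 := by
      intro j hj
      by_contra hne
      have h2 : ({i, j} : Set ι) ⊆ comps 𝒜 x := by
        intro k hk
        rcases hk with rfl | hk
        · exact hi
        · rw [Set.mem_singleton_iff] at hk; rw [hk]; exact hne
      have h3 := Set.ncard_le_ncard h2 (comps_finite 𝒜 x)
      rw [Set.ncard_pair (Ne.symm hj)] at h3
      unfold hc at h
      omega
    have h2 : x = (decompose 𝒜 x i : S) := by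
      apply (decompose 𝒜).injective
      ext j
      by_cases hj : j = i
      · subst hj
        rw [decompose_of_mem_same 𝒜 (decompose 𝒜 x j).2]
      · rw [decompose_of_mem_ne 𝒜 (decompose 𝒜 x i).2 (Ne.symm hj), h1 j hj]
    rw [h2]
    exact (decompose 𝒜 x i).2

/-- nonzero homogeneous elements are invertible -/
def Div : Prop := ∀ i, ∀ a ∈ 𝒜 i, a ≠ 0 → ∃ b, a * b = 1 ∧ b * a = 1

/-- **One-sided inverses are homogeneous.** -/
theorem hom_of_mul [Nontrivial S] [UniqueSums ι] (hD : Div 𝒜) (x y : S) (hxy : x * y = 1) :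
    hc 𝒜 x ≤ 1 ∧ hc 𝒜 y ≤ 1 := by
  classical
  haveI : TwoUniqueSums ι := UniqueSums.toTwoUniqueSums_of_addGroup
  have hx0 : x ≠ 0 := fun h => one_ne_zero (by rw [← hxy, h, zero_mul] : (1 : S) = 0)
  have hy0 : y ≠ 0 := fun h => one_ne_zero (by rw [← hxy, h, mul_zero] : (1 : S) = 0)
  obtain ⟨X, hX⟩ : ∃ X, X = (decompose 𝒜 x).support := ⟨_, rfl⟩
  obtain ⟨Y, hY⟩ : ∃ Y, Y = (decompose 𝒜 y).support := ⟨_, rfl⟩
  have hmX : ∀ i, i ∈ X ↔ (decompose 𝒜 x i : S) ≠ 0 := fun i => by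
    rw [hX, DFinsupp.mem_support_iff, not_iff_not, ← ZeroMemClass.coe_eq_zero]
  have hmY : ∀ i, i ∈ Y ↔ (decompose 𝒜 y i : S) ≠ 0 := fun i => by
    rw [hY, DFinsupp.mem_support_iff, not_iff_not, ← ZeroMemClass.coe_eq_zero]
  have hcX : hc 𝒜 x = X.card := by
    rw [hc, ← Set.ncard_coe_finset]
    congr 1
    ext i
    exact (hmX i).symm
  have hcY : hc 𝒜 y = Y.card := by
    rw [hc, ← Set.ncard_coe_finset]
    congr 1
    ext i
    exact (hmY i).symm
  have hcard : X.card * Y.card ≤ 1 := by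
    by_contra hcon
    push Not at hcon
    obtain ⟨p, hp, q, hq, hpq, hup, huq⟩ := TwoUniqueSums.uniqueAdd_of_one_lt_card hcon
    rw [Finset.mem_product] at hp hq
    have key : ∀ p : ι × ι, p.1 ∈ X → p.2 ∈ Y → UniqueAdd X Y p.1 p.2 → p.1 + p.2 = 0 := by
      intro p h1 h2 h3
      have h4 : (decompose 𝒜 (x * y) (p.1 + p.2) : S)
          = (decompose 𝒜 x p.1 : S) * (decompose 𝒜 y p.2 : S) := by
        rw [decompose_mul, DirectSum.coe_mul_apply, ← hX, ← hY]
        refine Finset.sum_eq_single p (fun q hq hqp => ?_) (fun h => ?_)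
        · rw [Finset.mem_filter, Finset.mem_product] at hq
          exact absurd (Prod.ext (h3 hq.1.1 hq.1.2 hq.2).1 (h3 hq.1.1 hq.1.2 hq.2).2) hqp
        · exact (h (by
            rw [Finset.mem_filter]
            exact ⟨Finset.mem_product.2 ⟨h1, h2⟩, rfl⟩)).elim
      by_contra h5
      rw [hxy, decompose_of_mem_ne 𝒜 SetLike.GradedOne.one_mem (Ne.symm h5)] at h4
      obtain ⟨b, hb1, hb2⟩ := hD _ _ (decompose 𝒜 x p.1).2 ((hmX _).1 h1)
      have h6 : b * ((decompose 𝒜 x p.1 : S) * (decompose 𝒜 y p.2 : S)) = 0 := by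
        rw [← h4, mul_zero]
      rw [← mul_assoc, hb2, one_mul] at h6
      exact (hmY _).1 h2 h6
    have h1 := key p hp.1 hp.2 hup
    have h2 := key q hq.1 hq.2 huq
    have h3 := hup hq.1 hq.2 (by rw [h1, h2])
    exact hpq (Prod.ext h3.1.symm h3.2.symm)
  have h1 : 0 < X.card := by
    rw [← hcX]
    exact Nat.pos_of_ne_zero fun h => hx0 (hc_eq_zero 𝒜 h)
  have h2 : 0 < Y.card := by
    rw [← hcY]
    exact Nat.pos_of_ne_zero fun h => hy0 (hc_eq_zero 𝒜 h)
  rw [hcX, hcY]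
  constructor <;> nlinarith

/-- the homogeneous units generate this subgroup -/
def HU : Subgroup Sˣ := Subgroup.closure {u | ∃ i, (u : S) ∈ 𝒜 i}

theorem unit_of_right [Nontrivial S] [UniqueSums ι] (hD : Div 𝒜) (x y : S) (hxy : x * y = 1) :
    ∃ u : Sˣ, (u : S) = x ∧ u ∈ HU 𝒜 := by
  have h := hom_of_mul 𝒜 hD x y hxy
  obtain ⟨i, hi⟩ := hc_le_one 𝒜 h.1
  have hx0 : x ≠ 0 := fun h => one_ne_zero (by rw [← hxy, h, zero_mul] : (1 : S) = 0)
  obtain ⟨b, hb1, hb2⟩ := hD i x hi hx0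
  exact ⟨⟨x, b, hb1, hb2⟩, rfl, Subgroup.subset_closure ⟨i, hi⟩⟩

theorem unit_of_left [Nontrivial S] [UniqueSums ι] (hD : Div 𝒜) (x y : S) (hxy : x * y = 1) :
    ∃ u : Sˣ, (u : S) = y ∧ u ∈ HU 𝒜 := by
  have h := hom_of_mul 𝒜 hD x y hxy
  obtain ⟨i, hi⟩ := hc_le_one 𝒜 h.2
  have hy0 : y ≠ 0 := fun h => one_ne_zero (by rw [← hxy, h, mul_zero] : (1 : S) = 0)
  obtain ⟨b, hb1, hb2⟩ := hD i y hi hy0
  exact ⟨⟨y, b, hb1, hb2⟩, rfl, Subgroup.subset_closure ⟨i, hi⟩⟩

/-- the inverse of a homogeneous unit is homogeneous -/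
theorem inv_hom (a b : S) (i : ι) (ha : a ∈ 𝒜 i) (hab : a * b = 1) (hba : b * a = 1) :
    b ∈ 𝒜 (-i) := by
  have h1 := coe_decompose_mul_add_of_left_mem 𝒜 (i := i) (j := -i) (a := a) (b := b) ha
  rw [hab, add_neg_cancel, decompose_of_mem_same 𝒜 SetLike.GradedOne.one_mem] at h1
  have h2 : b = (decompose 𝒜 b (-i) : S) := by
    calc b = b * (a * (decompose 𝒜 b (-i) : S)) := by rw [← h1, mul_one]
    _ = (decompose 𝒜 b (-i) : S) := by rw [← mul_assoc, hba, one_mul]
  rw [h2]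
  exact (decompose 𝒜 b (-i)).2

end TH57.TT2.GR
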