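import Pool.Agent.TH57.TT2.GR

set_option autoImplicit false
set_option linter.style.haveILetI false
set_option linter.unusedSectionVars false
set_option linter.unusedVariables false

/-! Invertible matrices over graded rings with at most one long row of each colour. -/

namespace TH57.TT2.GR

open Matrix TH57.Thr DirectSum

variable {ι : Type} [AddGroup ι] [DecidableEq ι] {S : Type} [Ring S] (𝒜 : ι → AddSubgroup S)
  [GradedRing 𝒜]

/-- the shape of a short row -/
theorem short_cases {κ : Type} [Fintype κ] [DecidableEq κ] [Nonempty κ]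
    (r : κ → S) (hr : ∑ j, hc 𝒜 (r j) ≤ 2) :
    (∃ j, ∀ l, l ≠ j → r l = 0) ∨
    (∃ j k, j ≠ k ∧ (∃ i i', r j ∈ 𝒜 i ∧ r k ∈ 𝒜 i') ∧
      r j ≠ 0 ∧ r k ≠ 0 ∧ ∀ l, l ≠ j → l ≠ k → r l = 0) := by
  classical
  by_cases h0 : ∃ j, r j ≠ 0
  · obtain ⟨j, hj⟩ := h0
    by_cases h1 : ∃ k, k ≠ j ∧ r k ≠ 0
    · obtain ⟨k, hkj, hk⟩ := h1
      right
      have hj' : 1 ≤ hc 𝒜 (r j) := by
        by_contra hcon
        exact hj (hc_eq_zero 𝒜 (by omega))
      have hk' : 1 ≤ hc 𝒜 (r k) := by
        by_contra hcon
        exact hk (hc_eq_zero 𝒜 (by omega))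
      have hle : hc 𝒜 (r j) + hc 𝒜 (r k) ≤ 2 := by
        refine le_trans ?_ hr
        rw [← Finset.sum_pair (f := fun j => hc 𝒜 (r j)) (Ne.symm hkj)]
        exact Finset.sum_le_sum_of_subset (Finset.subset_univ _)
      obtain ⟨i, ha⟩ := hc_le_one 𝒜 (x := r j) (by omega)
      obtain ⟨i', hb⟩ := hc_le_one 𝒜 (x := r k) (by omega)
      refine ⟨j, k, Ne.symm hkj, ⟨i, i', ha, hb⟩, hj, hk, fun l hlj hlk => ?_⟩
      apply hc_eq_zero 𝒜
      have hle2 : hc 𝒜 (r j) + (hc 𝒜 (r k) + hc 𝒜 (r l)) ≤ 2 := by
        refine le_trans ?_ hr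
        rw [← Finset.sum_pair (f := fun j => hc 𝒜 (r j)) (Ne.symm hlk),
          ← Finset.sum_insert (f := fun j => hc 𝒜 (r j)) (by
            simp [Ne.symm hkj, Ne.symm hlj])]
        exact Finset.sum_le_sum_of_subset (Finset.subset_univ _)
      omega
    · push Not at h1
      exact Or.inl ⟨j, h1⟩
  · push Not at h0
    exact Or.inl ⟨Classical.arbitrary κ, fun l _ => h0 l⟩

/-- **Invertible matrices with at most one long row of each colour.** -/
theorem TR_long [Nontrivial S] [UniqueSums ι] (hD : Div 𝒜) (φ : ℤ →+* S) {I : Type} :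
    ∀ (N : ℕ) (κ : Type) [Fintype κ] [DecidableEq κ], Fintype.card κ = N →
    ∀ (x : (Matrix κ κ S)ˣ) (c d : κ → I),
      (∀ i j, x.val i j ≠ 0 → c i = d j) →
      (∀ i i', i ≠ i' → c i = c i' →
        ∑ j, hc 𝒜 (x.val i j) ≤ 2 ∨ ∑ j, hc 𝒜 (x.val i' j) ≤ 2) →
      TR φ (HU 𝒜) x := by
  intro N
  induction N with
  | zero =>
    intro κ _ _ hN x c d hcd hx
    have : IsEmpty κ := Fintype.card_eq_zero_iff.1 hN
    have h1 : x = 1 := Units.ext (Subsingleton.elim _ _)
    rw [h1]
    exact TR_one φ _
  | succ N ih =>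
    intro κ _ _ hN x c d hcd hx
    have hne : Nonempty κ := Fintype.card_pos_iff.1 (by omega)
    obtain ⟨Y, hY⟩ : ∃ Y, Y = (x⁻¹).val := ⟨_, rfl⟩
    have hxY : x.val * Y = 1 := by rw [hY]; exact x.mul_inv
    have hYx : Y * x.val = 1 := by rw [hY]; exact x.inv_mul
    -- pivot; `w` is `x` after a column operation
    have step1 : ∀ (w : (Matrix κ κ S)ˣ) (i j : κ), (∀ l, l ≠ j → w.val i l = 0) →
        (∃ u : Sˣ, (u : S) = w.val i j ∧ u ∈ HU 𝒜) →
        (∀ a l, w.val a l ≠ 0 → l ≠ j → c a = d l) →
        (∀ a, a ≠ i → ∑ l : {l // l ≠ j}, hc 𝒜 (w.val a l.1) ≤ ∑ l, hc 𝒜 (x.val a l)) →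
        TR φ (HU 𝒜) w := by
      intro w i j hl hu hcw hsw
      obtain ⟨u, hu, huU⟩ := hu
      obtain ⟨e, he⟩ : ∃ e : Unit ⊕ {l // l ≠ j} ≃ κ, e = (eq1 j).trans (Equiv.swap j i) :=
        ⟨_, rfl⟩
      have hei : e (Sum.inl ()) = i := by
        rw [he, Equiv.trans_apply]
        change Equiv.swap j i j = i
        exact Equiv.swap_apply_left _ _
      obtain ⟨y, hy, hyT⟩ := TR_sub φ (HU 𝒜) e (eq1 j) w
      have hyv : ∀ a b, y.val a b = w.val (e a) (eq1 j b) := fun a b => by rw [hy]; rfl
      obtain ⟨b, hb, hbT⟩ := pivot1 φ (HU 𝒜) y u huU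
        (by rw [hyv, hei, hu]; rfl)
        (fun s => by rw [hyv, hei]; exact hl _ s.2)
      refine hyT (hbT (ih {l // l ≠ j} ?_ b (fun a => c (e (Sum.inr a))) (fun s => d s.1)
        ?_ ?_))
      · have := card_eq1 j; omega
      · intro a s h
        rw [hb, hyv] at h
        exact hcw _ _ h s.2
      · intro a a' haa hcc
        have hs : ∀ a, ∑ s, hc 𝒜 (b.val a s) ≤ ∑ l, hc 𝒜 (x.val (e (Sum.inr a)) l) := by
          intro a
          refine le_trans (le_of_eq ?_) (hsw (e (Sum.inr a)) ?_)
          · exact Finset.sum_congr rfl fun s _ => by rw [hb, hyv]; rfl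
          · rw [← hei]
            exact fun h => Sum.inr_ne_inl (e.injective h)
        rcases hx (e (Sum.inr a)) (e (Sum.inr a'))
          (fun h => haa (Sum.inr_injective (e.injective h))) hcc with h | h
        · exact Or.inl (le_trans (hs a) h)
        · exact Or.inr (le_trans (hs a') h)
    have hself : ∀ j a, ∑ l : {l // l ≠ j}, hc 𝒜 (x.val a l.1) ≤ ∑ l, hc 𝒜 (x.val a l) := by
      intro j a
      rw [sum_eq1 j]
      exact Nat.le_add_left _ _
    by_cases hshort : ∃ i, ∑ j, hc 𝒜 (x.val i j) ≤ 2
    · obtain ⟨i, hi⟩ := hshort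
      rcases short_cases 𝒜 (fun j => x.val i j) hi with ⟨j, hj⟩ | ⟨j, k, hjk, ⟨g, h, hr, hs⟩,
        hj0, hk0, hl⟩
      · -- one entry
        have h1 : x.val i j * Y j i = 1 := by
          have := congrFun (congrFun hxY i) i
          rw [Matrix.mul_apply, Matrix.one_apply_eq, Finset.sum_eq_single j] at this
          · exact this
          · intro l _ hlj
            rw [hj l hlj, zero_mul]
          · intro h; exact absurd (Finset.mem_univ _) h
        exact step1 x i j hj (unit_of_right 𝒜 hD _ _ h1) (fun a l h _ => hcd a l h)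
          (fun a _ => hself j a)
      · -- two entries
        obtain ⟨b, hb1, hb2⟩ := hD g _ hr hj0
        have hbg := inv_hom 𝒜 _ b g hr hb1 hb2
        have hmh : -(b * x.val i k) ∈ 𝒜 (-g + h) :=
          neg_mem (SetLike.GradedMul.mul_mem hbg hs)
        obtain ⟨w, hw⟩ : ∃ w, w = x * tv j k hjk (-(b * x.val i k)) := ⟨_, rfl⟩
        have hwv : ∀ a l, w.val a l = x.val a l
            + if l = k then x.val a j * -(b * x.val i k) else 0 := by
          intro a l
          rw [hw, Units.val_mul]
          change (x.val * (1 + Matrix.single j k (-(b * x.val i k)))) a l = _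
          rw [Matrix.mul_add, Matrix.mul_one, Matrix.add_apply]
          congr 1
          by_cases hlk : l = k
          · subst hlk
            rw [if_pos rfl, Matrix.mul_single_apply_same]
          · rw [if_neg hlk, Matrix.mul_single_apply_of_ne _ _ _ _ _ hlk]
        have hdj : d j = d k := (hcd i j hj0).symm.trans (hcd i k hk0)
        have hwT : TR φ (HU 𝒜) w := by
          refine step1 w i j (fun l hlj => ?_) ?_ (fun a l hal hlj => ?_) (fun a hai => ?_)
          · rw [hwv]
            by_cases hlk : l = k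
            · subst hlk
              rw [if_pos rfl, mul_neg, ← mul_assoc, hb1, one_mul, add_neg_cancel]
            · rw [if_neg hlk, add_zero]
              exact hl l hlj hlk
          · rw [hwv, if_neg hjk, add_zero]
            exact ⟨⟨x.val i j, b, hb1, hb2⟩, rfl, Subgroup.subset_closure ⟨g, hr⟩⟩
          · rw [hwv] at hal
            by_cases hlk : l = k
            · subst hlk
              rw [if_pos rfl] at hal
              by_cases h1 : x.val a l = 0
              · rw [h1, zero_add] at hal
                rw [← hdj]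
                exact hcd a j fun h2 => hal (by rw [h2, zero_mul])
              · exact hcd a l h1
            · rw [if_neg hlk, add_zero] at hal
              exact hcd a l hal
          · rw [sum_eq1 j (fun l => hc 𝒜 (x.val a l)),
              sum_eq1 (⟨k, Ne.symm hjk⟩ : {l // l ≠ j}) (fun l => hc 𝒜 (w.val a l.1)),
              sum_eq1 (⟨k, Ne.symm hjk⟩ : {l // l ≠ j}) (fun l => hc 𝒜 (x.val a l.1)),
              ← add_assoc]
            apply add_le_add
            · change hc 𝒜 (w.val a k) ≤ hc 𝒜 (x.val a j) + hc 𝒜 (x.val a k)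
              rw [hwv, if_pos rfl, add_comm (hc 𝒜 (x.val a j))]
              exact le_trans (hc_add 𝒜 _ _) (add_le_add le_rfl (hc_mul_hom 𝒜 _ _ _ hmh))
            · refine le_of_eq (Finset.sum_congr rfl fun l _ => ?_)
              rw [hwv, if_neg (fun h => l.2 (Subtype.ext h)), add_zero]
        have h3 : x = w * (tv j k hjk (-(b * x.val i k)))⁻¹ := by rw [hw]; group
        rw [h3]
        exact TR_mul φ _ _ _ hwT (TR_inv φ _ _ (TR_of_TT φ _ _ (TT_tv _ _ _ _ _)))
    · push Not at hshort
      obtain ⟨i⟩ := hne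
      have hcol : ∀ i' j, i' ≠ i → c i = d j → x.val i' j = 0 := by
        intro i' j hi' hcj
        by_contra hne
        have h1 : c i' = c i := (hcd i' j hne).trans hcj.symm
        rcases hx i' i hi' h1 with h | h
        · exact absurd h (not_le.2 (hshort i'))
        · exact absurd h (not_le.2 (hshort i))
      obtain ⟨j, hj⟩ : ∃ j, x.val i j ≠ 0 := by
        by_contra hcon
        push Not at hcon
        have := congrFun (congrFun hxY i) i
        rw [Matrix.mul_apply, Matrix.one_apply_eq, Finset.sum_eq_zero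
          (fun l _ => by rw [hcon, zero_mul])] at this
        exact zero_ne_one this
      have hBA : ∀ a l, c i = d l → Y a i * x.val i l = (1 : Matrix κ κ S) a l := by
        intro a l hl
        have := congrFun (congrFun hYx a) l
        rw [Matrix.mul_apply, Finset.sum_eq_single i] at this
        · exact this
        · intro i' _ hi'
          rw [hcol i' l hi' hl, mul_zero]
        · intro h; exact absurd (Finset.mem_univ _) h
      have hcj := hcd i j hj
      have h1 : Y j i * x.val i j = 1 := by rw [hBA j j hcj, Matrix.one_apply_eq]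
      obtain ⟨v, hv, _⟩ := unit_of_right 𝒜 hD _ _ h1
      have honly : ∀ l, l ≠ j → x.val i l = 0 := by
        intro l hlj
        by_contra hne
        have hcl := hcd i l hne
        have e2 := hBA j l hcl
        rw [Matrix.one_apply_ne (Ne.symm hlj), ← hv] at e2
        apply hne
        calc x.val i l = (↑v⁻¹ : S) * (v * x.val i l) := by rw [Units.inv_mul_cancel_left]
        _ = 0 := by rw [e2, mul_zero]
      exact step1 x i j honly (unit_of_left 𝒜 hD _ _ h1) (fun a l h _ => hcd a l h)
        (fun a _ => hself j a)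

/-- matrices that are stably products of commutators and diagonal matrices -/
def TTsub (U : Subgroup Sˣ) (κ : Type) [Fintype κ] [DecidableEq κ] : Subgroup (Matrix κ κ S)ˣ where
  carrier := {x | TT U x}
  one_mem' := TT_one U
  mul_mem' := fun {a b} ha hb => TT_mul U a b ha hb
  inv_mem' := fun {a} ha => TT_inv U a ha

theorem TT_of_TR (U : Subgroup Sˣ) (hneg : (-1 : Sˣ) ∈ U) {κ : Type} [Fintype κ] [DecidableEq κ]
    (x : (Matrix κ κ S)ˣ) (hx : TR (Int.castRingHom S) U x) : TT U x := by
  obtain ⟨μ, i1, i2, h⟩ := hx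
  apply TT_unst (μ := μ) U
  have h1 : HR (Int.castRingHom S) U (κ ⊕ μ) ≤ TTsub U (κ ⊕ μ) := by
    apply sup_le
    · intro y hy
      exact TT_of_mem U y hy
    · rintro _ ⟨y, rfl⟩
      refine TT_map ⊤ U (Int.castRingHom S) (fun u _ => ?_) y (TT_int _ _ rfl y)
      rcases Int.units_eq_one_or u with rfl | rfl
      · rw [map_one]; exact one_mem _
      · convert hneg using 1
        apply Units.ext
        simp
  exact h1 h

end TH57.TT2.GR
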