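import Pool.Agent.TH6.PF.PGen

set_option autoImplicit false
set_option linter.style.haveILetI false
set_option linter.unusedSectionVars false
set_option linter.unusedVariables false

/-! Support graphs with at most one circuit in every component. -/

namespace TH57.TT2

open Matrix

variable {G : Type} [Group G] {m n : Type} [Fintype m] [Fintype n]

open Classical in
/-- number of vertices with label `b` -/
noncomputable def nV (r : m ⊕ n → m ⊕ n) (b : m ⊕ n) : ℕ :=
  (Finset.univ.filter fun v => r v = b).card

open Classical in
/-- number of edges with label `b` -/
noncomputable def nE (S : Finset ((_ : m × n) × G)) (r : m ⊕ n → m ⊕ n) (b : m ⊕ n) : ℕ :=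
  (S.filter fun e => r (Sum.inl e.1.1) = b).card

/-- labels of the vertices, potentials and local groups -/
structure Lab (S : Finset ((_ : m × n) × G)) (r : m ⊕ n → m ⊕ n) (w : m ⊕ n → G)
    (C : m ⊕ n → Subgroup G) : Prop where
  mem : ∀ e ∈ S, r (Sum.inl e.1.1) = r (Sum.inr e.1.2) ∧
    w (Sum.inl e.1.1) * e.2 * (w (Sum.inr e.1.2))⁻¹ ∈ C (r (Sum.inl e.1.1))
  le : ∀ b, nV r b ≤ nE S r b + 1
  cyc : ∀ b, nE S r b ≤ nV r b → IsCyclic (C b)
  bot : ∀ b, nE S r b < nV r b → C b = ⊥

theorem isCyclic_map {C : Subgroup G} (h : IsCyclic C) (k : G) :
    IsCyclic (C.map (MulAut.conj k).toMonoidHom) := by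
  obtain ⟨g, hg⟩ := h
  refine ⟨⟨⟨k * g.1 * k⁻¹, ⟨g.1, g.2, rfl⟩⟩, ?_⟩⟩
  rintro ⟨x, y, hy, rfl⟩
  obtain ⟨z, hz⟩ := hg ⟨y, hy⟩
  refine ⟨z, Subtype.ext ?_⟩
  change (⟨k * g.1 * k⁻¹, _⟩ : C.map (MulAut.conj k).toMonoidHom).1 ^ z = k * y * k⁻¹
  have h1 : g.1 ^ z = y := congrArg Subtype.val hz
  rw [← h1]
  simp [conj_zpow]

open Classical in
theorem exists_lab (S : Finset ((_ : m × n) × G)) : ∃ r w C, Lab S r w C := by
  induction S using Finset.induction_on with
  | empty =>
    refine ⟨id, fun _ => 1, fun _ => ⊥, by simp, ?_, ?_, fun _ _ => rfl⟩
    · intro b
      unfold nV
      have : (Finset.univ.filter fun v : m ⊕ n => id v = b) ⊆ {b} := by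
        intro v hv; simpa using hv
      have := Finset.card_le_card this
      rw [Finset.card_singleton] at this
      omega
    · intro b _
      infer_instance
  | insert e S he ih =>
    obtain ⟨r, w, C, h⟩ := ih
    obtain ⟨⟨i, j⟩, g⟩ := e
    by_cases hij : r (Sum.inl i) = r (Sum.inr j)
    · -- the edge closes a circuit
      set b0 := r (Sum.inl i) with hb0
      set k := w (Sum.inl i) * g * (w (Sum.inr j))⁻¹ with hk
      refine ⟨r, w, Function.update C b0 (C b0 ⊔ Subgroup.zpowers k), ?_, ?_, ?_, ?_⟩
      · intro e he'
        rcases Finset.mem_insert.1 he' with rfl | he'
        · refine ⟨hij, ?_⟩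
          change k ∈ Function.update C b0 _ b0
          rw [Function.update_self]
          exact Subgroup.mem_sup_right (Subgroup.mem_zpowers k)
        · refine ⟨(h.mem e he').1, ?_⟩
          by_cases h1 : r (Sum.inl e.1.1) = b0
          · have h2 := (h.mem e he').2
            rw [h1] at h2 ⊢
            rw [Function.update_self]
            exact Subgroup.mem_sup_left h2
          · rw [Function.update_of_ne h1]
            exact (h.mem e he').2
      all_goals
        have hE : ∀ b, nE (insert ⟨(i, j), g⟩ S) r b = nE S r b + if b = b0 then 1 else 0 := by
          intro b
          unfold nE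
          rw [Finset.filter_insert]
          by_cases hb : b0 = b
          · rw [if_pos (show r (Sum.inl ((⟨(i, j), g⟩ : (_ : m × n) × G).1.1)) = b from hb),
              Finset.card_insert_of_notMem (by simp [he]), if_pos hb.symm]
          · rw [if_neg (show ¬ r (Sum.inl ((⟨(i, j), g⟩ : (_ : m × n) × G).1.1)) = b from hb),
              if_neg (Ne.symm hb), add_zero]
        intro b
        have h1 := h.le b
        have h2 := h.cyc b
        have h3 := h.bot b
      · rw [hE]
        split_ifs <;> omega
      · rw [hE]
        by_cases hb : b = b0
        · subst hb
          rw [if_pos rfl, Function.update_self]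
          intro h4
          rw [h3 (by omega), bot_sup_eq]
          infer_instance
        · rw [if_neg hb, Function.update_of_ne hb]
          intro h4
          exact h2 (by omega)
      · rw [hE]
        by_cases hb : b = b0
        · subst hb
          rw [if_pos rfl]
          intro h4; omega
        · rw [if_neg hb, Function.update_of_ne hb]
          intro h4
          exact h3 (by omega)
    · -- the edge joins two components
      set b1 := r (Sum.inl i) with hb1
      set b2 := r (Sum.inr j) with hb2
      set k := w (Sum.inl i) * g * (w (Sum.inr j))⁻¹ with hk
      have hne : b1 ≠ b2 := hij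
      refine ⟨fun v => if r v = b2 then b1 else r v, fun v => if r v = b2 then k * w v else w v,
        Function.update (Function.update C b2 ⊥) b1
          (C b1 ⊔ (C b2).map (MulAut.conj k).toMonoidHom), ?_, ?_, ?_, ?_⟩
      · intro e he'
        rcases Finset.mem_insert.1 he' with rfl | he'
        · change (if r (Sum.inl i) = b2 then b1 else r (Sum.inl i))
              = (if r (Sum.inr j) = b2 then b1 else r (Sum.inr j)) ∧
            (if r (Sum.inl i) = b2 then k * w (Sum.inl i) else w (Sum.inl i)) * g *
              (if r (Sum.inr j) = b2 then k * w (Sum.inr j) else w (Sum.inr j))⁻¹ ∈ _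
          rw [← hb1, ← hb2, if_neg hne, if_pos rfl, if_neg hne, if_pos rfl]
          refine ⟨rfl, ?_⟩
          have : w (Sum.inl i) * g * (k * w (Sum.inr j))⁻¹ = 1 := by
            rw [hk]; group
          rw [this]
          exact one_mem _
        · obtain ⟨h1, h2⟩ := h.mem e he'
          by_cases h3 : r (Sum.inl e.1.1) = b2
          · have h4 : r (Sum.inr e.1.2) = b2 := by rw [← h1, h3]
            simp only [if_pos h3, if_pos h4]
            refine ⟨trivial, ?_⟩
            rw [Function.update_self]
            apply Subgroup.mem_sup_right
            rw [h3] at h2
            refine ⟨_, h2, ?_⟩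
            change k * _ * k⁻¹ = _
            group
          · have h4 : ¬ r (Sum.inr e.1.2) = b2 := by rw [← h1]; exact h3
            simp only [if_neg h3, if_neg h4]
            refine ⟨h1, ?_⟩
            by_cases h5 : r (Sum.inl e.1.1) = b1
            · rw [h5, Function.update_self]
              rw [h5] at h2
              exact Subgroup.mem_sup_left h2
            · rw [Function.update_of_ne h5, Function.update_of_ne h3]
              exact h2
      all_goals
        have hV : ∀ b, nV (fun v => if r v = b2 then b1 else r v) b
            = if b = b1 then nV r b1 + nV r b2 else if b = b2 then 0 else nV r b := by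
          intro b
          unfold nV
          by_cases hb : b = b1
          · subst hb
            rw [if_pos rfl, ← Finset.card_union_of_disjoint]
            · congr 1
              ext v
              simp only [Finset.mem_filter, Finset.mem_univ, true_and, Finset.mem_union]
              by_cases h4 : r v = b2
              · simp [h4]
              · simp [h4]
            · rw [Finset.disjoint_filter]
              intro v _ h4 h5
              exact hne (h4.symm.trans h5)
          · rw [if_neg hb]
            by_cases hb' : b = b2
            · subst hb'
              rw [if_pos rfl, Finset.card_eq_zero, Finset.filter_eq_empty_iff]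
              intro v _
              by_cases h4 : r v = b2
              · simp [h4, hne]
              · simp [h4]
            · rw [if_neg hb']
              congr 1
              ext v
              simp only [Finset.mem_filter, Finset.mem_univ, true_and]
              by_cases h4 : r v = b2
              · simp [h4, Ne.symm hb, Ne.symm hb']
              · simp [h4]
        have hE : ∀ b, nE (insert ⟨(i, j), g⟩ S) (fun v => if r v = b2 then b1 else r v) b
            = if b = b1 then nE S r b1 + nE S r b2 + 1 else if b = b2 then 0 else nE S r b := by
          intro b
          unfold nE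
          rw [Finset.filter_insert]
          have e1 : ((if r (Sum.inl ((⟨(i, j), g⟩ : (_ : m × n) × G).1.1)) = b2 then b1 else
            r (Sum.inl ((⟨(i, j), g⟩ : (_ : m × n) × G).1.1)))) = b1 := by
            change (if b1 = b2 then b1 else b1) = b1
            simp
          simp only [e1]
          by_cases hb : b = b1
          · subst hb
            rw [if_pos rfl, if_pos rfl, Finset.card_insert_of_notMem (by simp [he]),
              ← Finset.card_union_of_disjoint]
            · congr 2
              ext v
              simp only [Finset.mem_filter, Finset.mem_union]
              by_cases h4 : r (Sum.inl v.1.1) = b2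
              · simp [h4, Ne.symm hne]
              · simp [h4]
            · rw [Finset.disjoint_filter]
              intro v _ h4 h5
              exact hne (h4.symm.trans h5)
          · rw [if_neg (Ne.symm hb), if_neg hb]
            by_cases hb' : b = b2
            · subst hb'
              rw [if_pos rfl, Finset.card_eq_zero, Finset.filter_eq_empty_iff]
              intro v _
              by_cases h4 : r (Sum.inl v.1.1) = b2
              · simp [h4, hne]
              · simp [h4]
            · rw [if_neg hb']
              congr 1
              ext v
              simp only [Finset.mem_filter]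
              by_cases h4 : r (Sum.inl v.1.1) = b2
              · simp [h4, Ne.symm hb, Ne.symm hb']
              · simp [h4]
        intro b
        have l1 := h.le b1
        have l2 := h.le b2
        have c1 := h.cyc b1
        have c2 := h.cyc b2
        have t1 := h.bot b1
        have t2 := h.bot b2
      · rw [hV, hE]
        have := h.le b
        split_ifs <;> omega
      · rw [hV, hE]
        by_cases hb : b = b1
        · subst hb
          rw [if_pos rfl, if_pos rfl, Function.update_self]
          intro h4
          by_cases h5 : nE S r b1 < nV r b1
          · rw [t1 h5, bot_sup_eq]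
            exact isCyclic_map (c2 (by omega)) k
          · rw [t2 (by omega), Subgroup.map_bot, sup_bot_eq]
            exact c1 (by omega)
        · rw [if_neg hb, if_neg hb, Function.update_of_ne hb]
          by_cases hb' : b = b2
          · subst hb'
            rw [Function.update_self]
            intro _; infer_instance
          · rw [if_neg hb', if_neg hb', Function.update_of_ne hb']
            exact h.cyc b
      · rw [hV, hE]
        by_cases hb : b = b1
        · subst hb
          rw [if_pos rfl, if_pos rfl, Function.update_self]
          intro h4
          rw [t1 (by omega), t2 (by omega), Subgroup.map_bot, sup_bot_eq]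
        · rw [if_neg hb, if_neg hb, Function.update_of_ne hb]
          by_cases hb' : b = b2
          · subst hb'
            rw [Function.update_self]
            intro _; rfl
          · rw [if_neg hb', if_neg hb', Function.update_of_ne hb']
            exact h.bot b

end TH57.TT2
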