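import Pool.Agent.TH57.TT2.Graph

set_option autoImplicit false
set_option linter.style.haveILetI false
set_option linter.unusedSectionVars false
set_option linter.unusedVariables false

/-! Invertible matrices over group rings with sparse support. -/

namespace TH57.TT2

open Matrix TH57.Thr TH6.PF TH6.LF

variable {R : Type} [Ring R] {G : Type} [Group G] {κ : Type} [Fintype κ] [DecidableEq κ]

/-- the number of nonzero coefficients of an element of the group ring -/
def nnz (x : MonoidAlgebra R G) : ℕ := x.coeff.support.card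

/-- the support of a matrix -/
def supS (A : Matrix κ κ (MonoidAlgebra R G)) : Finset ((_ : κ × κ) × G) :=
  (Finset.univ : Finset (κ × κ)).sigma fun p => (A p.1 p.2).coeff.support

theorem mem_supS (A : Matrix κ κ (MonoidAlgebra R G)) (i j : κ) (g : G) :
    (⟨(i, j), g⟩ : (_ : κ × κ) × G) ∈ supS A ↔ (A i j).coeff g ≠ 0 := by
  unfold supS
  rw [Finset.mem_sigma]
  simp

open Classical in
theorem nE_sup (A : Matrix κ κ (MonoidAlgebra R G)) (r : κ ⊕ κ → κ ⊕ κ) (b : κ ⊕ κ) :
    nE (supS A) r b = ∑ i ∈ Finset.univ.filter (fun i => r (Sum.inl i) = b),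
      ∑ j, nnz (A i j) := by
  unfold nE
  have h1 : (supS A).filter (fun e => r (Sum.inl e.1.1) = b)
      = ((Finset.univ.filter fun i => r (Sum.inl i) = b) ×ˢ (Finset.univ : Finset κ)).sigma
        fun p => (A p.1 p.2).coeff.support := by
    ext e
    unfold supS
    rw [Finset.mem_filter, Finset.mem_sigma, Finset.mem_sigma, Finset.mem_product]
    simp
    tauto
  have h2 := congrArg Finset.card h1
  rw [Finset.card_sigma, Finset.sum_product] at h2
  convert h2 using 1
  · congr
  · rfl

open Classical in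
theorem nV_sup (r : κ ⊕ κ → κ ⊕ κ) (b : κ ⊕ κ) :
    nV r b = (Finset.univ.filter fun i : κ => r (Sum.inl i) = b).card
      + (Finset.univ.filter fun j : κ => r (Sum.inr j) = b).card := by
  unfold nV
  rw [Finset.card_filter, Finset.card_filter, Finset.card_filter, Fintype.sum_sum_type]
  congr 1
  · refine Finset.sum_congr rfl fun _ _ => ?_
    congr
  · refine Finset.sum_congr rfl fun _ _ => ?_
    congr

/-- at most as many nonzero coefficients as rows and columns in every direct summand -/
def Sparse (A : Matrix κ κ (MonoidAlgebra R G)) : Prop :=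
  ∀ S T : Finset κ, (∀ i j, A i j ≠ 0 → (i ∈ S ↔ j ∈ T)) →
    ∑ i ∈ S, ∑ j ∈ T, nnz (A i j) ≤ S.card + T.card

theorem coeff_ne_zero' {x : MonoidAlgebra R G} {g : G} (h : x.coeff g ≠ 0) : x ≠ 0 := by
  rintro rfl
  exact h rfl

theorem exists_coeff {x : MonoidAlgebra R G} (h : x ≠ 0) : ∃ g, x.coeff g ≠ 0 := by
  by_contra hcon
  push Not at hcon
  apply h
  ext g
  exact hcon g

open Classical in
theorem lab_cyclic (A : Matrix κ κ (MonoidAlgebra R G)) (r : κ ⊕ κ → κ ⊕ κ) (w : κ ⊕ κ → G)
    (C : κ ⊕ κ → Subgroup G) (h : Lab (supS A) r w C) (hA : Sparse A) (b : κ ⊕ κ) :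
    IsCyclic (C b) := by
  apply h.cyc
  rw [nE_sup, nV_sup]
  have hlab : ∀ i j, A i j ≠ 0 → r (Sum.inl i) = r (Sum.inr j) := by
    intro i j hij
    obtain ⟨g, hg⟩ := exists_coeff hij
    exact (h.mem _ ((mem_supS A i j g).2 hg)).1
  refine le_trans (le_of_eq ?_) (hA _ _ ?_)
  · refine Finset.sum_congr rfl fun i hi => ?_
    symm
    apply Finset.sum_subset (Finset.subset_univ _)
    intro j _ hj
    rw [Finset.mem_filter] at hi hj
    have h0 : A i j = 0 := by
      by_contra h0
      exact hj ⟨Finset.mem_univ _, by rw [← hlab i j h0, hi.2]⟩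
    rw [h0]
    rfl
  · intro i j hij
    rw [Finset.mem_filter, Finset.mem_filter, hlab i j hij]
    simp

/-- the augmentation -/
noncomputable def augR (R : Type) [Ring R] (H : Type) [Group H] : MonoidAlgebra R H →+* R :=
  MonoidAlgebra.liftNCRingHom (RingHom.id R) (1 : H →* R) fun _ _ => Commute.one_right _

theorem main (A : (Matrix κ κ (MonoidAlgebra R G))ˣ)
    (hA : Sparse A.val ∨ (InvariantBasisNumber R ∧ ((∀ i, ∑ j, nnz (A.val i j) ≤ 2) ∨
      (∀ j, ∑ i, nnz (A.val i j) ≤ 2)))) :
    A ∈ VCGen R G κ ∧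
    ∃ (ρ σ : κ → κ ⊕ κ) (u v : κ → G) (C : κ ⊕ κ → Subgroup G)
      (θ : ∀ a, Matrix {i // ρ i = a} {j // σ j = a} (MonoidAlgebra R (C a)))
      (η : ∀ a, Matrix {j // σ j = a} {i // ρ i = a} (MonoidAlgebra R (C a))),
      (∀ a, IsCyclic (C a)) ∧ (∀ a, θ a * η a = 1 ∧ η a * θ a = 1) ∧
      (dmU R u).val * A.val * (dmU R v)⁻¹.val = blockSum ρ σ C θ := by
  classical
  obtain ⟨r, w, C, hL⟩ := exists_lab (supS A.val)
  set ρ : κ → κ ⊕ κ := fun i => r (Sum.inl i) with hρ
  set σ : κ → κ ⊕ κ := fun j => r (Sum.inr j) with hσ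
  set u : κ → G := fun i => w (Sum.inl i) with hu
  set v : κ → G := fun j => w (Sum.inr j) with hv
  set B : (Matrix κ κ (MonoidAlgebra R G))ˣ := dmU R u * A * (dmU R v)⁻¹ with hBd
  have hBs : ∀ i j g, (B.val i j).coeff g ≠ 0 → ρ i = σ j ∧ g ∈ C (ρ i) := by
    intro i j g hg
    rw [hBd, Units.val_mul, Units.val_mul, coeff_dmU] at hg
    have h1 := hL.mem _ ((mem_supS _ _ _ _).2 hg)
    refine ⟨h1.1, ?_⟩
    have h2 := h1.2
    have h3 : w (Sum.inl i) * ((u i)⁻¹ * g * v j) * (w (Sum.inr j))⁻¹ = g := by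
      rw [hu, hv]; group
    change w (Sum.inl i) * ((u i)⁻¹ * g * v j) * (w (Sum.inr j))⁻¹ ∈ C (ρ i) at h2
    rwa [h3] at h2
  have hinv : ∀ a, blk ρ σ C B.val a * blk σ ρ C B⁻¹.val a = 1 ∧
      blk σ ρ C B⁻¹.val a * blk ρ σ C B.val a = 1 := fun a =>
    ⟨blk_mul ρ σ C _ _ B.mul_inv hBs a, blk_mul' ρ σ C _ _ B.inv_mul hBs a⟩
  -- the local groups are cyclic
  have hcyc : ∀ a, IsCyclic (C a) := by
    intro a
    rcases hA with hA | ⟨hR, hA⟩
    · exact lab_cyclic A.val r w C hL hA a
    · apply hL.cyc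
      rw [nE_sup, nV_sup]
      have hsq : (Finset.univ.filter fun i : κ => r (Sum.inl i) = a).card
          = (Finset.univ.filter fun j : κ => r (Sum.inr j) = a).card := by
        have h1 : ((blk ρ σ C B.val a).map (augR R (C a)))
            * ((blk σ ρ C B⁻¹.val a).map (augR R (C a))) = 1 := by
          rw [← Matrix.map_mul, (hinv a).1, Matrix.map_one _ (map_zero _) (map_one _)]
        have h2 : ((blk σ ρ C B⁻¹.val a).map (augR R (C a)))
            * ((blk ρ σ C B.val a).map (augR R (C a))) = 1 := by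
          rw [← Matrix.map_mul, (hinv a).2, Matrix.map_one _ (map_zero _) (map_one _)]
        have h3 := Matrix.square_of_invertible _ _ h1 h2
        rw [Fintype.card_subtype, Fintype.card_subtype] at h3
        exact h3
      rcases hA with hA | hA
      · calc ∑ i ∈ Finset.univ.filter (fun i => r (Sum.inl i) = a), ∑ j, nnz (A.val i j)
            ≤ ∑ i ∈ Finset.univ.filter (fun i => r (Sum.inl i) = a), 2 :=
              Finset.sum_le_sum fun i _ => hA i
          _ = _ := by
              rw [Finset.sum_const, smul_eq_mul, ← hsq]; ring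
      · have hlab : ∀ i j, A.val i j ≠ 0 → r (Sum.inl i) = r (Sum.inr j) := by
          intro i j hij
          obtain ⟨g, hg⟩ := exists_coeff hij
          exact (hL.mem _ ((mem_supS A.val i j g).2 hg)).1
        calc ∑ i ∈ Finset.univ.filter (fun i => r (Sum.inl i) = a), ∑ j, nnz (A.val i j)
            = ∑ i ∈ Finset.univ.filter (fun i => r (Sum.inl i) = a),
                ∑ j ∈ Finset.univ.filter (fun j => r (Sum.inr j) = a), nnz (A.val i j) := by
              refine Finset.sum_congr rfl fun i hi => ?_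
              symm
              apply Finset.sum_subset (Finset.subset_univ _)
              intro j _ hj
              rw [Finset.mem_filter] at hi hj
              have h0 : A.val i j = 0 := by
                by_contra h0
                exact hj ⟨Finset.mem_univ _, by rw [← hlab i j h0, hi.2]⟩
              rw [h0]
              rfl
          _ = ∑ j ∈ Finset.univ.filter (fun j => r (Sum.inr j) = a),
                ∑ i ∈ Finset.univ.filter (fun i => r (Sum.inl i) = a), nnz (A.val i j) :=
              Finset.sum_comm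
          _ ≤ ∑ j ∈ Finset.univ.filter (fun j => r (Sum.inr j) = a), 2 :=
              Finset.sum_le_sum fun j _ => le_trans
                (Finset.sum_le_sum_of_subset (Finset.subset_univ _)) (hA j)
          _ = _ := by
              rw [Finset.sum_const, smul_eq_mul, hsq]; ring
  have hVC : ∀ a, IsVC (C a) := by
    intro a
    obtain ⟨s, hs⟩ := hcyc a
    refine ⟨s, ?_⟩
    have : Subgroup.zpowers s = ⊤ := by
      rw [eq_top_iff]
      intro x _
      exact hs x
    rw [this]
    infer_instance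
  refine ⟨?_, ρ, σ, u, v, C, blk ρ σ C B.val, blk σ ρ C B⁻¹.val, hcyc, hinv, ?_⟩
  · have h1 := block_mem C hVC ρ σ B hBs
    have h2 : A = (dmU R u)⁻¹ * B * dmU R v := by rw [hBd]; group
    rw [h2]
    exact mul_mem (mul_mem (inv_mem (dmU_mem u)) h1) (dmU_mem v)
  · rw [← Units.val_mul, ← Units.val_mul, ← hBd]
    exact (blockSum_blk ρ σ C B.val hBs).symm

end TH57.TT2
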