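import Pool.Agent.TH57.TT2.Long4
import Pool.Agent.TH57.FF.Bd

set_option autoImplicit false
set_option linter.style.haveILetI false
set_option linter.unusedSectionVars false
set_option linter.unusedVariables false

/-! Factorization of a rectangular matrix through the rational lines spanned by its rows. -/

namespace TH57.TT2.Rc

open Matrix TH57.Thr

variable {G : Type} [Group G] {n I : Type} [Fintype n] [DecidableEq n] {μ : Type}

theorem single_smul' (h : G) (a : ℤ) (x : μ → MonoidAlgebra ℤ G) :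
    (MonoidAlgebra.single h a : MonoidAlgebra ℤ G) • x = a • ((sg h : MonoidAlgebra ℤ G) • x) := by
  rw [single_eq, smul_assoc]

theorem sg_inv_smul (h : G) (x : μ → MonoidAlgebra ℤ G) :
    (sg h⁻¹ : MonoidAlgebra ℤ G) • (sg h : MonoidAlgebra ℤ G) • x = x := by
  rw [smul_smul, sg_mul, inv_mul_cancel, sg_one, one_smul]

theorem sg_smul_inv (h : G) (x : μ → MonoidAlgebra ℤ G) :
    (sg h : MonoidAlgebra ℤ G) • (sg h⁻¹ : MonoidAlgebra ℤ G) • x = x := by
  rw [smul_smul, sg_mul, mul_inv_cancel, sg_one, one_smul]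

/-- two rows span the same rational line up to a group element -/
def Rl (κ : n → I) (F : Matrix n μ (MonoidAlgebra ℤ G)) (i j : n) : Prop :=
  κ i = κ j ∧ ∃ a b : ℤ, a ≠ 0 ∧ b ≠ 0 ∧ ∃ h : G, a • F i = b • ((sg h : MonoidAlgebra ℤ G) • F j)

theorem Rl.symm' {κ : n → I} {F : Matrix n μ (MonoidAlgebra ℤ G)} {i j : n} (h : Rl κ F i j) :
    Rl κ F j i := by
  obtain ⟨hk, a, b, ha, hb, h, e⟩ := h
  refine ⟨hk.symm, b, a, hb, ha, h⁻¹, ?_⟩
  have h2 : (sg h⁻¹ : MonoidAlgebra ℤ G) • (a • F i)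
      = (sg h⁻¹ : MonoidAlgebra ℤ G) • (b • ((sg h : MonoidAlgebra ℤ G) • F j)) := by rw [e]
  rw [smul_comm, smul_comm _ b, sg_inv_smul] at h2
  exact h2.symm

theorem Rl.trans' {κ : n → I} {F : Matrix n μ (MonoidAlgebra ℤ G)} {i j k : n} (h : Rl κ F i j)
    (h' : Rl κ F j k) : Rl κ F i k := by
  obtain ⟨hk, a, b, ha, hb, h, e⟩ := h
  obtain ⟨hk', c, d, hc, hd, h', e'⟩ := h'
  refine ⟨hk.trans hk', c * a, b * d, mul_ne_zero hc ha, mul_ne_zero hb hd, h * h', ?_⟩
  rw [mul_smul, e, smul_comm, mul_smul, ← sg_mul, ← smul_smul]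
  congr 1
  rw [smul_comm c, e', smul_comm]

/-- the relation as a setoid on the nonzero rows -/
def Rs (κ : n → I) (F : Matrix n μ (MonoidAlgebra ℤ G)) : Setoid {i : n // F i ≠ 0} where
  r i j := Rl κ F i.1 j.1
  iseqv := ⟨fun i => ⟨rfl, 1, 1, one_ne_zero, one_ne_zero, 1, by
      rw [sg_one, one_smul, one_smul, one_smul]⟩,
    fun h => h.symm', fun h h' => h.trans' h'⟩

theorem line_factor (htf : ∀ g : G, ∀ n : ℕ, 0 < n → g ^ n = 1 → g = 1) (κ : n → I)
    (F : Matrix n μ (MonoidAlgebra ℤ G)) :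
    ∃ (C : Type) (_ : Fintype C) (_ : DecidableEq C) (κC : C → I)
      (Φ : Matrix n C (MonoidAlgebra ℤ G)) (W : Matrix C n (MonoidAlgebra ℤ G)),
      W * Φ = 1 ∧ F = Φ * (W * F) ∧ (∀ i c, Φ i c ≠ 0 → κ i = κC c) ∧
      ∀ (j1 j2 : n) (g1 g2 : G) (a1 a2 : ℤ),
        (j1 ≠ j2 → a1 ≠ 0 → a2 ≠ 0 → κ j1 = κ j2) →
        (MonoidAlgebra.single g1 a1 : MonoidAlgebra ℤ G) • F j1
          + (MonoidAlgebra.single g2 a2 : MonoidAlgebra ℤ G) • F j2 = 0 →
        ∀ c, MonoidAlgebra.single g1 a1 * Φ j1 c + MonoidAlgebra.single g2 a2 * Φ j2 c = 0 := by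
  classical
  by_cases hF0 : F = 0
  · refine ⟨Empty, inferInstance, inferInstance, fun c => c.elim, (0 : Matrix n Empty _),
      (0 : Matrix Empty n _), ?_, ?_, fun _ c => c.elim, fun _ _ _ _ _ _ _ _ c => c.elim⟩
    · ext c; exact c.elim
    · rw [hF0, Matrix.mul_zero, Matrix.mul_zero]
  obtain ⟨i0, hi0⟩ := Function.ne_iff.1 hF0
  have hi0 : F i0 ≠ 0 := hi0
  let C := Quotient (Rs κ F)
  letI instC : Fintype C := Fintype.ofFinite C
  letI instD : DecidableEq C := Classical.decEq C
  let cl : n → C := fun i => if hi : F i ≠ 0 then Quotient.mk (Rs κ F) ⟨i, hi⟩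
    else Quotient.mk (Rs κ F) ⟨i0, hi0⟩
  have hcl : ∀ (i : n) (hi : F i ≠ 0), cl i = Quotient.mk (Rs κ F) ⟨i, hi⟩ := fun i hi => by
    simp only [cl, dif_pos hi]
  have hrel : ∀ i, F i ≠ 0 → Rl κ F i (cl i).out.1 := by
    intro i hi
    have h1 : Quotient.mk (Rs κ F) (cl i).out = Quotient.mk (Rs κ F) ⟨i, hi⟩ := by
      rw [Quotient.out_eq, hcl i hi]
    exact (Quotient.exact h1).symm'
  have hdat : ∀ i, ∃ (a b : ℤ) (h : G), a ≠ 0 ∧ (F i ≠ 0 → κ i = κ (cl i).out.1 ∧
      a • F i = b • ((sg h : MonoidAlgebra ℤ G) • F (cl i).out.1)) := by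
    intro i
    by_cases hi : F i ≠ 0
    · obtain ⟨hk, a, b, ha, hb, h, e⟩ := hrel i hi
      exact ⟨a, b, h, ha, fun _ => ⟨hk, e⟩⟩
    · exact ⟨1, 0, 1, one_ne_zero, fun h => absurd h hi⟩
  choose a b h ha hdat using hdat
  let x : C → n → μ → MonoidAlgebra ℤ G := fun c i =>
    if F i ≠ 0 ∧ cl i = c then (sg (h i)⁻¹ : MonoidAlgebra ℤ G) • F i else 0
  have hline : ∀ c : C, ∃ q y : n → ℤ, (∀ i, x c i = q i • ∑ j, y j • x c j) ∧
      ∑ j, y j * q j = 1 := by
    intro c
    have hco : cl c.out.1 = c := by rw [hcl _ c.out.2]; exact Quotient.out_eq c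
    refine line_gen (x c) (F c.out.1) c.out.2 (fun i => a i)
      (fun i => if F i ≠ 0 ∧ cl i = c then b i else 0) ha (fun i => ?_) c.out.1 ?_
    · by_cases hi : F i ≠ 0 ∧ cl i = c
      · simp only [x, if_pos hi]
        rw [smul_comm, (hdat i hi.1).2, smul_comm _ (b i), sg_inv_smul, hi.2]
      · simp only [x, if_neg hi, smul_zero, zero_smul]
    · have hi : F c.out.1 ≠ 0 ∧ cl c.out.1 = c := ⟨c.out.2, hco⟩
      simp only [x, if_pos hi]
      intro h0
      apply c.out.2
      have := congrArg (fun z : μ → MonoidAlgebra ℤ G =>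
        (sg (h c.out.1) : MonoidAlgebra ℤ G) • z) h0
      simpa only [sg_smul_inv, smul_zero] using this
  choose q y hq hyq using hline
  let w : C → μ → MonoidAlgebra ℤ G := fun c => ∑ j, y c j • x c j
  have hq' : ∀ c i, x c i = q c i • w c := hq
  have hw0 : ∀ c, w c ≠ 0 := by
    intro c hc
    have hi : F c.out.1 ≠ 0 ∧ cl c.out.1 = c :=
      ⟨c.out.2, by rw [hcl _ c.out.2]; exact Quotient.out_eq c⟩
    have h1 := hq' c c.out.1
    rw [hc, smul_zero] at h1
    simp only [x, if_pos hi] at h1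
    apply c.out.2
    have := congrArg (fun z : μ → MonoidAlgebra ℤ G =>
      (sg (h c.out.1) : MonoidAlgebra ℤ G) • z) h1
    simpa only [sg_smul_inv, smul_zero] using this
  have hqz : ∀ c i, ¬ (F i ≠ 0 ∧ cl i = c) → q c i = 0 := by
    intro c i hi
    by_contra hne
    apply hw0 c
    apply tfree (q c i) _ _ hne
    rw [← hq']
    simp only [x, if_neg hi]
  have hrow : ∀ i, F i ≠ 0 → F i = (MonoidAlgebra.single (h i) (q (cl i) i) :
      MonoidAlgebra ℤ G) • w (cl i) := by
    intro i hi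
    have h1 := hq' (cl i) i
    simp only [x, if_pos (And.intro hi rfl)] at h1
    rw [single_smul', smul_comm, ← h1, sg_smul_inv]
  let Φ : Matrix n C (MonoidAlgebra ℤ G) := fun i c => MonoidAlgebra.single (h i) (q c i)
  let W : Matrix C n (MonoidAlgebra ℤ G) := fun c i =>
    if F i ≠ 0 ∧ cl i = c then MonoidAlgebra.single (h i)⁻¹ (y c i) else 0
  have hΦ0 : ∀ i c, ¬ (F i ≠ 0 ∧ cl i = c) → Φ i c = 0 := fun i c hi => by
    simp only [Φ]
    rw [hqz c i hi, MonoidAlgebra.single_zero]
  have hWF : ∀ c, (W * F) c = w c := by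
    intro c
    funext k
    rw [Matrix.mul_apply]
    simp only [w, Finset.sum_apply]
    refine Finset.sum_congr rfl fun i _ => ?_
    by_cases hi : F i ≠ 0 ∧ cl i = c
    · simp only [W, x, if_pos hi]
      rw [single_eq, smul_mul_assoc]
      rfl
    · simp only [W, x, if_neg hi, zero_mul, smul_zero, Pi.zero_apply]
  have hfac : F = Φ * (W * F) := by
    funext i
    have h1 : (Φ * (W * F)) i = ∑ c, Φ i c • w c := by
      funext k
      rw [Matrix.mul_apply, Finset.sum_apply]
      refine Finset.sum_congr rfl fun c _ => ?_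
      rw [hWF]
      rfl
    refine Eq.trans ?_ h1.symm
    by_cases hi : F i ≠ 0
    · rw [Finset.sum_eq_single (cl i)]
      · exact hrow i hi
      · intro c _ hc
        rw [hΦ0 i c (fun h' => hc h'.2.symm), zero_smul]
      · intro h'; exact absurd (Finset.mem_univ _) h'
    · rw [Finset.sum_eq_zero]
      · push Not at hi
        exact hi
      · intro c _
        rw [hΦ0 i c (fun h' => hi h'.1), zero_smul]
  refine ⟨C, instC, instD, fun c => κ c.out.1, Φ, W, ?_, hfac, ?_, ?_⟩
  · ext1 c c'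
    rw [Matrix.mul_apply, Matrix.one_apply]
    by_cases hcc : c = c'
    · subst hcc
      rw [if_pos rfl]
      have h1 : ∀ i, W c i * Φ i c = MonoidAlgebra.single 1 (y c i * q c i) := by
        intro i
        by_cases hi : F i ≠ 0 ∧ cl i = c
        · simp only [W, Φ, if_pos hi]
          rw [MonoidAlgebra.single_mul_single, inv_mul_cancel]
        · rw [hΦ0 i c hi, mul_zero, hqz c i hi, mul_zero, MonoidAlgebra.single_zero]
      simp only [h1]
      have h2 : ∀ s : Finset n, ∑ i ∈ s, (MonoidAlgebra.single 1 (y c i * q c i) :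
          MonoidAlgebra ℤ G) = MonoidAlgebra.single 1 (∑ i ∈ s, y c i * q c i) := by
        intro s
        induction s using Finset.induction_on with
        | empty => rw [Finset.sum_empty, Finset.sum_empty, MonoidAlgebra.single_zero]
        | insert j s hj ih =>
          rw [Finset.sum_insert hj, Finset.sum_insert hj, MonoidAlgebra.single_add, ih]
      rw [h2, hyq]
      rfl
    · rw [if_neg hcc]
      refine Finset.sum_eq_zero fun i _ => ?_
      by_cases hi : F i ≠ 0 ∧ cl i = c
      · rw [hΦ0 i c' (fun h' => hcc (hi.2.symm.trans h'.2)), mul_zero]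
      · simp only [W, if_neg hi, zero_mul]
  · intro i c hic
    by_cases hi : F i ≠ 0 ∧ cl i = c
    · rw [(hdat i hi.1).1, hi.2]
    · exact absurd (hΦ0 i c hi) hic
  · intro j1 j2 g1 g2 a1 a2 hcol hsum c
    have hz : ∀ (g : G) (a : ℤ) (j : n), F j ≠ 0 →
        (MonoidAlgebra.single g a : MonoidAlgebra ℤ G) • F j = 0 → a = 0 := by
      intro g a j hj h0
      by_contra hne
      rw [single_smul'] at h0
      have h1 := tfree a _ h0 hne
      apply hj
      have := congrArg (fun z : μ → MonoidAlgebra ℤ G =>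
        (sg g⁻¹ : MonoidAlgebra ℤ G) • z) h1
      simpa only [sg_inv_smul, smul_zero] using this
    have hΦF : ∀ j, F j = 0 → Φ j c = 0 := fun j hj => hΦ0 j c (fun h' => h'.1 hj)
    by_cases h1 : a1 = 0 ∨ F j1 = 0
    · have e1 : (MonoidAlgebra.single g1 a1 : MonoidAlgebra ℤ G) • F j1 = 0 := by
        rcases h1 with h1 | h1
        · rw [h1, MonoidAlgebra.single_zero, zero_smul]
        · rw [h1, smul_zero]
      have e2 : MonoidAlgebra.single g1 a1 * Φ j1 c = 0 := by
        rcases h1 with h1 | h1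
        · rw [h1, MonoidAlgebra.single_zero, zero_mul]
        · rw [hΦF _ h1, mul_zero]
      rw [e1, zero_add] at hsum
      rw [e2, zero_add]
      by_cases h2 : F j2 = 0
      · rw [hΦF _ h2, mul_zero]
      · rw [hz g2 a2 j2 h2 hsum, MonoidAlgebra.single_zero, zero_mul]
    · push Not at h1
      by_cases h2 : a2 = 0 ∨ F j2 = 0
      · exfalso
        have e1 : (MonoidAlgebra.single g2 a2 : MonoidAlgebra ℤ G) • F j2 = 0 := by
          rcases h2 with h2 | h2
          · rw [h2, MonoidAlgebra.single_zero, zero_smul]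
          · rw [h2, smul_zero]
        rw [e1, add_zero] at hsum
        exact h1.1 (hz g1 a1 j1 h1.2 hsum)
      · push Not at h2
        have hκ : κ j1 = κ j2 := by
          by_cases hj : j1 = j2
          · rw [hj]
          · exact hcol hj h1.1 h2.1
        have hR : Rl κ F j1 j2 := by
          refine ⟨hκ, a1, -a2, h1.1, neg_ne_zero.2 h2.1, g1⁻¹ * g2, ?_⟩
          rw [single_smul', single_smul'] at hsum
          have h3 : a1 • ((sg g1 : MonoidAlgebra ℤ G) • F j1)
              = (-a2) • ((sg g2 : MonoidAlgebra ℤ G) • F j2) := by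
            rw [neg_smul]; exact eq_neg_of_add_eq_zero_left hsum
          have h4 : (sg g1⁻¹ : MonoidAlgebra ℤ G) • (a1 • ((sg g1 : MonoidAlgebra ℤ G) • F j1))
              = (sg g1⁻¹ : MonoidAlgebra ℤ G) • ((-a2) • ((sg g2 : MonoidAlgebra ℤ G) • F j2)) := by
            rw [h3]
          rw [smul_comm, sg_inv_smul, smul_comm, smul_smul, sg_mul] at h4
          exact h4
        have hcc : cl j1 = cl j2 := by
          rw [hcl j1 h1.2, hcl j2 h2.2]
          exact Quotient.sound hR
        by_cases hc : cl j1 = c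
        · have e1 := hrow j1 h1.2
          have e2 := hrow j2 h2.2
          rw [hc] at e1
          rw [← hcc, hc] at e2
          rw [e1, e2, smul_smul, smul_smul, ← add_smul, MonoidAlgebra.single_mul_single,
            MonoidAlgebra.single_mul_single] at hsum
          have := two_nzd_vec htf _ _ _ _ _ (hw0 c) hsum
          simp only [Φ]
          rw [MonoidAlgebra.single_mul_single, MonoidAlgebra.single_mul_single]
          exact this
        · rw [hΦ0 j1 c (fun h' => hc h'.2), hΦ0 j2 c (fun h' => hc (hcc.trans h'.2)), mul_zero,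
            mul_zero, add_zero]

end TH57.TT2.Rc
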