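import Pool.Agent.TH57.TT2.Long5

set_option autoImplicit false
set_option linter.style.haveILetI false
set_option linter.unusedSectionVars false
set_option linter.unusedVariables false

/-! Boundary matrices with at most one long row of each colour. -/

namespace TH57.TT2

open Matrix TH57.Thr TH57.FF

variable {G : Type} [Group G] {I : Type}

theorem FR_dom [NoZeroDivisors (MonoidAlgebra ℤ G)]
    (htf : ∀ g : G, ∀ n : ℕ, 0 < n → g ^ n = 1 → g = 1) {m k l : ℕ}
    (A : Matrix (Fin m) (Fin k) (MonoidAlgebra ℤ G))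
    (B : Matrix (Fin k) (Fin l) (MonoidAlgebra ℤ G))
    (hAB : ∀ x : Fin k → MonoidAlgebra ℤ G, x ᵥ* B = 0 ↔
      ∃ y : Fin m → MonoidAlgebra ℤ G, y ᵥ* A = x)
    (cr : Fin m → I) (cc : Fin k → I) (hc : ∀ i j, A i j ≠ 0 → cr i = cc j)
    (hlong : ∀ i i', cr i = cr i' → 2 < rowNz A i → 2 < rowNz A i' → i = i') :
    FR (MonoidAlgebra ℤ G) 1 (Im B) := by
  classical
  obtain ⟨C, iC, iD, κC, Φ, W, hWΦ, hfac, hcol, hshort⟩ := Rc.line_factor htf cc B
  obtain ⟨Z, hZ⟩ : ∃ Z, Z = W * B := ⟨_, rfl⟩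
  rw [← hZ] at hfac
  obtain ⟨R, hR⟩ : ∃ R, R = A * Φ := ⟨_, rfl⟩
  have hAB0 : A * B = 0 := by
    ext1 i j
    have h1 := (hAB (A i)).2 ⟨Pi.single i 1, by
      funext j
      rw [Matrix.single_one_vecMul]
      rfl⟩
    have h2 := congrFun h1 j
    rw [Matrix.mul_apply]
    exact h2
  -- the rows of `R`
  have hRc : ∀ l c, R l c ≠ 0 → cr l = κC c := by
    intro l c hlc
    by_contra hne
    apply hlc
    rw [hR, Matrix.mul_apply]
    refine Finset.sum_eq_zero fun i _ => ?_
    by_cases h1 : A l i = 0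
    · rw [h1, zero_mul]
    · by_cases h2 : Φ i c = 0
      · rw [h2, mul_zero]
      · exact absurd ((hc l i h1).trans (hcol i c h2)) hne
  have hRs : ∀ l, rowNz A l ≤ 2 → R l = 0 := by
    intro l hl
    rcases isEmpty_or_nonempty (Fin k) with hemp | hne
    · funext c
      rw [hR, Matrix.mul_apply, Finset.univ_eq_empty, Finset.sum_empty]
      rfl
    · obtain ⟨j1, j2, g1, g2, a1, a2, hrow, hnz⟩ := short_form (A l) hl
      have hsum : ∀ {μ : Type} (M : Matrix (Fin k) μ (MonoidAlgebra ℤ G)) (c : μ), (A * M) l c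
          = MonoidAlgebra.single g1 a1 * M j1 c + MonoidAlgebra.single g2 a2 * M j2 c := by
        intro μ M c
        rw [Matrix.mul_apply]
        have h1 : ∀ i, A l i * M i c
            = (Pi.single j1 (MonoidAlgebra.single g1 a1 : MonoidAlgebra ℤ G) :
                Fin k → MonoidAlgebra ℤ G) i * M i c
              + (Pi.single j2 (MonoidAlgebra.single g2 a2 : MonoidAlgebra ℤ G) :
                Fin k → MonoidAlgebra ℤ G) i * M i c := by
          intro i
          rw [← add_mul, ← Pi.add_apply, ← hrow]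
        simp only [h1]
        rw [Finset.sum_add_distrib]
        congr 1
        · rw [Finset.sum_eq_single j1]
          · rw [Pi.single_eq_same]
          · intro b _ hb; rw [Pi.single_eq_of_ne hb, zero_mul]
          · intro h; exact absurd (Finset.mem_univ _) h
        · rw [Finset.sum_eq_single j2]
          · rw [Pi.single_eq_same]
          · intro b _ hb; rw [Pi.single_eq_of_ne hb, zero_mul]
          · intro h; exact absurd (Finset.mem_univ _) h
      funext c
      rw [hR, hsum Φ c]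
      refine hshort j1 j2 g1 g2 a1 a2 (fun hj h1 h2 => ?_) ?_ c
      · obtain ⟨n1, n2⟩ := hnz hj h1 h2
        exact (hc l j1 n1).symm.trans (hc l j2 n2)
      · funext q
        have := hsum B q
        rw [hAB0] at this
        exact this.symm
  have huniq : ∀ l l' c c', cr l = cr l' → R l c ≠ 0 → R l' c' ≠ 0 → l = l' := by
    intro l l' c c' hll h1 h2
    apply hlong l l' hll
    · by_contra hcon
      exact h1 (by rw [hRs l (by omega)]; rfl)
    · by_contra hcon
      exact h2 (by rw [hRs l' (by omega)]; rfl)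
  -- the kernel of `Z`
  have hker : ∀ x : C → MonoidAlgebra ℤ G, x ᵥ* Z = 0 ↔
      ∃ y : Fin m → MonoidAlgebra ℤ G, y ᵥ* R = x := by
    intro x
    constructor
    · intro hx
      rw [hZ, ← Matrix.vecMul_vecMul] at hx
      obtain ⟨y, hy⟩ := (hAB _).1 hx
      refine ⟨y, ?_⟩
      rw [hR, ← Matrix.vecMul_vecMul, hy, Matrix.vecMul_vecMul, hWΦ, Matrix.vecMul_one]
    · rintro ⟨y, rfl⟩
      rw [Matrix.vecMul_vecMul, hR, Matrix.mul_assoc, ← hfac, hAB0, Matrix.vecMul_zero]
  -- the nonzero rows of `R`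
  let p : Fin m → Prop := fun l => R l ≠ 0
  let R' : Matrix {l // p l} C (MonoidAlgebra ℤ G) := fun l c => R l.1 c
  have hsub : ∀ f : Fin m → MonoidAlgebra ℤ G, (∀ l, ¬ p l → f l = 0) →
      ∑ l, f l = ∑ l : {l // p l}, f l.1 := by
    intro f hf
    rw [← Finset.sum_filter_of_ne (p := p) (fun l _ h => by
      by_contra hp
      exact h (hf l (fun hp' => hp' hp)))]
    exact Finset.sum_subtype _ (fun l => by simp) f
  have hIm : Im R = Im R' := by
    ext v
    constructor
    · rintro ⟨y, rfl⟩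
      refine ⟨fun l => y l.1, ?_⟩
      funext c
      change ∑ l : {l // p l}, y l.1 * R l.1 c = ∑ l, y l * R l c
      rw [hsub (fun l => y l * R l c) fun l hl => by
        have h1 : R l = 0 := not_not.1 hl
        rw [h1]; exact mul_zero _]
    · rintro ⟨y, rfl⟩
      refine ⟨fun l => if h : p l then y ⟨l, h⟩ else 0, ?_⟩
      funext c
      change ∑ l, (if h : p l then y ⟨l, h⟩ else 0) * R l c = ∑ l : {l // p l}, y l * R l.1 c
      rw [hsub (fun l => (if h : p l then y ⟨l, h⟩ else 0) * R l c) fun l hl => by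
        rw [dif_neg hl, zero_mul]]
      refine Finset.sum_congr rfl fun l _ => ?_
      rw [dif_pos l.2]
  have hRes : Res 0 R' := by
    intro x hx
    funext l
    obtain ⟨c, hcl⟩ := Function.ne_iff.1 l.2
    have hcl' : R l.1 c ≠ 0 := hcl
    have h1 := congrFun hx c
    have h2 : (x ᵥ* R') c = x l * R l.1 c := by
      change ∑ l', x l' * R l'.1 c = _
      refine Finset.sum_eq_single l (fun l' _ hl' => ?_) (fun h => absurd (Finset.mem_univ _) h)
      by_cases h3 : R l'.1 c = 0
      · rw [h3, mul_zero]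
      · exact absurd (Subtype.ext (huniq l'.1 l.1 c c
          ((hRc _ c h3).trans (hRc _ c hcl').symm) h3 hcl')) hl'
    rw [h2] at h1
    rcases mul_eq_zero.1 h1 with h4 | h4
    · exact h4
    · exact absurd h4 hcl'
  have h0 : FR (MonoidAlgebra ℤ G) 0 (Im R) := by
    rw [hIm]
    exact FR_of_Res 0 R' hRes
  have h1 : FR (MonoidAlgebra ℤ G) 1 (Im Z) := FR_step 0 Z R hker h0
  have hImB : Im B = Im Z := by
    ext v
    constructor
    · rintro ⟨y, rfl⟩
      refine ⟨y ᵥ* Φ, ?_⟩
      rw [Matrix.vecMulLinear_apply, Matrix.vecMulLinear_apply, Matrix.vecMul_vecMul, ← hfac]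
    · rintro ⟨y, rfl⟩
      refine ⟨y ᵥ* W, ?_⟩
      rw [Matrix.vecMulLinear_apply, Matrix.vecMulLinear_apply, Matrix.vecMul_vecMul, ← hZ]
  rw [hImB]
  exact h1

/-- stably free modules have resolutions of length one -/
theorem FR_of_stablyFree {R : Type} [Ring R] {P : Type} [AddCommGroup P] [Module R P] (a b : ℕ)
    (e : (P × (Fin a → R)) ≃ₗ[R] (Fin b → R)) : FR R 1 P := by
  refine ⟨Fin b, inferInstance, LinearMap.fst R P (Fin a → R) ∘ₗ e.symm.toLinearMap,
    (LinearMap.fst_surjective (R := R) (M := P) (M₂ := Fin a → R)).comp e.symm.surjective, ?_⟩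
  obtain ⟨f, hf⟩ : ∃ f : (Fin b → R) →ₗ[R] P,
    f = LinearMap.fst R P (Fin a → R) ∘ₗ e.symm.toLinearMap := ⟨_, rfl⟩
  rw [← hf]
  let g : (Fin a → R) →ₗ[R] LinearMap.ker f :=
    LinearMap.codRestrict _ (e.toLinearMap ∘ₗ LinearMap.inr R P (Fin a → R)) (fun x => by
      rw [LinearMap.mem_ker, hf]
      simp)
  have hg : Function.Bijective g := by
    constructor
    · intro x y hxy
      have h1 := congrArg Subtype.val hxy
      have h2 : e (0, x) = e (0, y) := h1
      exact (Prod.ext_iff.1 (e.injective h2)).2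
    · rintro ⟨x, hx⟩
      rw [LinearMap.mem_ker, hf] at hx
      refine ⟨(e.symm x).2, Subtype.ext ?_⟩
      change e (0, (e.symm x).2) = x
      have h1 : (e.symm x).1 = 0 := hx
      have h2 : ((0 : P), (e.symm x).2) = e.symm x := by rw [← h1]
      rw [h2, LinearEquiv.apply_symm_apply]
  exact ⟨Module.Finite.equiv (LinearEquiv.ofBijective g hg),
    Module.Free.of_equiv (LinearEquiv.ofBijective g hg)⟩

theorem FR_proj {m k l : ℕ} (A : Matrix (Fin m) (Fin k) (MonoidAlgebra ℤ G))
    (B : Matrix (Fin k) (Fin l) (MonoidAlgebra ℤ G))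
    (hAB : ∀ x : Fin k → MonoidAlgebra ℤ G, x ᵥ* B = 0 ↔
      ∃ y : Fin m → MonoidAlgebra ℤ G, y ᵥ* A = x) (hS : SFC A) :
    FR (MonoidAlgebra ℤ G) 1 (Im B) := by
  have hk : LinearMap.ker B.vecMulLinear = LinearMap.range A.vecMulLinear := by
    ext x
    exact hAB x
  let e : Im B ≃ₗ[MonoidAlgebra ℤ G] (Fin k → MonoidAlgebra ℤ G) ⧸ LinearMap.range A.vecMulLinear :=
    (LinearMap.quotKerEquivRange B.vecMulLinear).symm.trans (Submodule.quotEquivOfEq _ _ hk)
  obtain ⟨a, b, ⟨f⟩⟩ := free_of_SFC A hS (Im B) e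
  exact FR_of_stablyFree a b f

end TH57.TT2
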