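import Pool.Agent.TH57.TT2.Piv

set_option autoImplicit false
set_option linter.style.haveILetI false
set_option linter.unusedSectionVars false
set_option linter.unusedVariables false

/-! Modules whose relations have at most two terms. -/

namespace TH57.TT2

variable {S : Type} [Ring S] {ι : Type} [Fintype ι] [DecidableEq ι] {U : Subgroup Sˣ}

theorem single_at_zero (a b : ι) (v : S) (hb : b ≠ a ∨ v = 0) :
    (Pi.single b v : ι → S) a = 0 := by
  rcases hb with hb | hb
  · rw [Pi.single_eq_of_ne (Ne.symm hb)]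
  · rw [hb, Pi.single_zero]; rfl

/-- base change for a pivot -/
def pivEquiv (a b : ι) (u : Sˣ) (v : S) (hb : b ≠ a ∨ v = 0) : (ι → S) ≃ₗ[S] (ι → S) where
  toFun x := x + x a • (((u⁻¹ : Sˣ) : S) • (Pi.single a 1 - Pi.single b v) - Pi.single a 1)
  invFun x := x + x a • (Pi.single a (u : S) + Pi.single b v - Pi.single a 1)
  map_add' x y := by
    rw [Pi.add_apply, add_smul]; abel
  map_smul' c x := by
    rw [Pi.smul_apply, smul_eq_mul, mul_smul, RingHom.id_apply, smul_add]
  left_inv x := by
    have h0 := single_at_zero a b v hb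
    have k1 : ((x + x a • (((u⁻¹ : Sˣ) : S) • ((Pi.single a 1 : ι → S) - (Pi.single b v : ι → S))
        - (Pi.single a 1 : ι → S)) : ι → S)) a = x a * ((u⁻¹ : Sˣ) : S) := by
      simp only [Pi.add_apply, Pi.smul_apply, Pi.sub_apply, smul_eq_mul, h0, Pi.single_eq_same]
      noncomm_ring
    beta_reduce
    rw [k1]
    have k2 : (Pi.single a (u : S) : ι → S) = (u : S) • Pi.single a 1 := by
      rw [← Pi.single_smul, smul_eq_mul, mul_one]
    rw [k2]
    have k3 : x a * ((u⁻¹ : Sˣ) : S) * (u : S) = x a := by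
      rw [mul_assoc, Units.inv_mul, mul_one]
    rw [smul_sub (x a * _), smul_add, smul_smul (x a * _), k3, smul_sub (x a), smul_smul (x a),
      smul_sub (x a * _)]
    abel
  right_inv x := by
    have h0 := single_at_zero a b v hb
    have k1 : ((x + x a • ((Pi.single a (u : S) : ι → S) + (Pi.single b v : ι → S)
        - (Pi.single a 1 : ι → S)) : ι → S)) a = x a * (u : S) := by
      simp only [Pi.add_apply, Pi.smul_apply, Pi.sub_apply, smul_eq_mul, h0, Pi.single_eq_same]
      noncomm_ring
    beta_reduce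
    rw [k1]
    have k2 : (Pi.single a (u : S) : ι → S) = (u : S) • Pi.single a 1 := by
      rw [← Pi.single_smul, smul_eq_mul, mul_one]
    rw [k2]
    have k3 : x a * (u : S) * ((u⁻¹ : Sˣ) : S) = x a := by
      rw [mul_assoc, Units.mul_inv, mul_one]
    rw [smul_sub (x a * _), smul_smul (x a * _), k3, smul_sub (x a), smul_add (x a),
      smul_sub (x a), smul_smul (x a)]
    abel

theorem pivEquiv_apply (a b : ι) (u : Sˣ) (v : S) (hb : b ≠ a ∨ v = 0) (x : ι → S) :
    pivEquiv a b u v hb x
      = x + x a • (((u⁻¹ : Sˣ) : S) • (Pi.single a 1 - Pi.single b v) - Pi.single a 1) := rfl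

/-- the row without its entry at `a` -/
def redRow (a b : ι) (u : Sˣ) (v : S) (r : ι → S) : ι → S :=
  r - r a • Pi.single a 1 - (r a * ((u⁻¹ : Sˣ) : S)) • Pi.single b v

theorem piv_row (a b : ι) (u : Sˣ) (v : S) (hb : b ≠ a ∨ v = 0) (r : ι → S) :
    pivEquiv a b u v hb r = redRow a b u v r + (r a * ((u⁻¹ : Sˣ) : S)) • Pi.single a 1 := by
  rw [pivEquiv_apply, redRow, smul_sub, smul_smul, smul_sub]
  abel

theorem redRow_at (a b : ι) (u : Sˣ) (v : S) (hb : b ≠ a ∨ v = 0) (r : ι → S) :
    redRow a b u v r a = 0 := by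
  have h0 := single_at_zero a b v hb
  simp only [redRow, Pi.sub_apply, Pi.smul_apply, smul_eq_mul, h0, Pi.single_eq_same]
  noncomm_ring

theorem redRow_self (a b : ι) (u : Sˣ) (v : S) (hb : b ≠ a ∨ v = 0) :
    redRow a b u v (Pi.single a (u : S) + Pi.single b v) = 0 := by
  have h0 := single_at_zero a b v hb
  have k1 : (Pi.single a (u : S) + Pi.single b v : ι → S) a = (u : S) := by
    rw [Pi.add_apply, h0, Pi.single_eq_same, add_zero]
  rw [redRow, k1, Units.mul_inv, one_smul]
  have k2 : (Pi.single a (u : S) : ι → S) = (u : S) • Pi.single a 1 := by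
    rw [← Pi.single_smul, smul_eq_mul, mul_one]
  rw [k2]
  abel

/-- a submodule which becomes a product of left ideals after a base change -/
def Nice (U : Subgroup Sˣ) (N : Submodule S (ι → S)) : Prop :=
  ∃ (e : (ι → S) ≃ₗ[S] (ι → S)) (T : ι → Set S),
    (∀ c, ∀ x ∈ T c, ∃ x1 x2, UZ U x1 ∧ UZ U x2 ∧ x = x1 + x2) ∧
    ∀ w, w ∈ N.map e.toLinearMap ↔ ∀ c, w c ∈ Submodule.span S (T c)

theorem Nice.of_equiv {N N' : Submodule S (ι → S)} (e1 : (ι → S) ≃ₗ[S] (ι → S))
    (h : N.map e1.toLinearMap = N') (h' : Nice U N') : Nice U N := by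
  obtain ⟨e, T, hT, hN⟩ := h'
  refine ⟨e1.trans e, T, hT, fun w => ?_⟩
  rw [← hN w, ← h, ← Submodule.map_comp]
  rfl

theorem Two.red [Nontrivial S] (hneg : (-1 : Sˣ) ∈ U) (a b : ι) (u : Sˣ) (hu : u ∈ U) (v : S)
    (hv : UZ U v) {r : ι → S} (h : Two U r) : Two U (redRow a b u v r) := by
  refine Two.map h (redRow a b u v) ?_ ?_
  · intro x y
    simp only [redRow, Pi.add_apply, add_smul, add_mul]
    abel
  · intro c x hx
    by_cases hc : c = a
    · subst hc
      refine ⟨b, -(x * ((u⁻¹ : Sˣ) : S) * v), ((hx.mul (UZ.of_mem (inv_mem hu))).mul hv).neg hneg,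
        ?_⟩
      rw [redRow, Pi.single_eq_same]
      funext j
      simp only [Pi.sub_apply, Pi.smul_apply, smul_eq_mul, Pi.single_apply]
      split_ifs <;> noncomm_ring
    · refine ⟨c, x, hx, ?_⟩
      rw [redRow, Pi.single_eq_of_ne (Ne.symm hc), zero_smul, zero_mul, zero_smul, sub_zero,
        sub_zero]

/-- rows with one nonzero column -/
theorem nice_flat (Q : Set (ι → S))
    (hQ : ∀ r ∈ Q, ∃ c x, (∃ x1 x2, UZ U x1 ∧ UZ U x2 ∧ x = x1 + x2) ∧ r = Pi.single c x) :
    Nice U (Submodule.span S Q) := by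
  classical
  refine ⟨LinearEquiv.refl S _, fun c => {x : S | (Pi.single c x : ι → S) ∈ Q ∧
    ∃ x1 x2, UZ U x1 ∧ UZ U x2 ∧ x = x1 + x2}, fun c x hx => hx.2, fun w => ?_⟩
  rw [LinearEquiv.refl_toLinearMap, Submodule.map_id]
  constructor
  · intro hw c
    have : Submodule.span S Q ≤ (Submodule.span S {x : S | (Pi.single c x : ι → S) ∈ Q ∧
        ∃ x1 x2, UZ U x1 ∧ UZ U x2 ∧ x = x1 + x2}).comap (LinearMap.proj c) := by
      rw [Submodule.span_le]
      intro r hr
      obtain ⟨c', x, hx, rfl⟩ := hQ r hr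
      rw [SetLike.mem_coe, Submodule.mem_comap, LinearMap.proj_apply]
      by_cases h : c = c'
      · subst h
        rw [Pi.single_eq_same]
        exact Submodule.subset_span ⟨hr, hx⟩
      · rw [Pi.single_eq_of_ne h]
        exact Submodule.zero_mem _
    exact this hw
  · intro hw
    have h1 : w = ∑ c, Pi.single c (w c) := (Finset.univ_sum_single w).symm
    rw [h1]
    refine Submodule.sum_mem _ fun c _ => ?_
    have : Submodule.span S {x : S | (Pi.single c x : ι → S) ∈ Q ∧
        ∃ x1 x2, UZ U x1 ∧ UZ U x2 ∧ x = x1 + x2} ≤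
        (Submodule.span S Q).comap (LinearMap.single S (fun _ : ι => S) c) := by
      rw [Submodule.span_le]
      intro x hx
      exact Submodule.subset_span hx.1
    exact this (hw c)

theorem nice_span [Nontrivial S] (hneg : (-1 : Sˣ) ∈ U) : ∀ (k : ℕ) (L : Finset ι)
    (Q : Set (ι → S)), L.card = k → (∀ r ∈ Q, Two U r ∧ ∀ j ∉ L, r j = 0) →
    Nice U (Submodule.span S (Q ∪ {r | ∃ j ∉ L, r = Pi.single j 1})) := by
  intro k
  induction k with
  | zero =>
    intro L Q hL hQ
    apply nice_flat
    rintro r (hr | ⟨j, hj, rfl⟩)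
    · obtain ⟨h2, h0⟩ := hQ r hr
      have hL' : L = ∅ := Finset.card_eq_zero.1 hL
      have hr0 : r = 0 := by
        funext j
        exact h0 j (by rw [hL']; exact Finset.notMem_empty j)
      obtain ⟨c, c', x, x', hx, hx', h⟩ := h2
      exact ⟨c, 0, ⟨0, 0, UZ.zero, UZ.zero, by rw [add_zero]⟩, by rw [hr0, Pi.single_zero]⟩
    · exact ⟨j, 1, ⟨1, 0, Or.inr ⟨1, one_mem U, by simp⟩, UZ.zero, by rw [add_zero]⟩, rfl⟩
  | succ k ih =>
    intro L Q hL hQ
    by_cases hex : ∃ r0 ∈ Q, ∃ a ∈ L, ∃ u ∈ U, r0 a = ((u : Sˣ) : S)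
    · obtain ⟨r0, hr0, a, haL, u, hu, hau⟩ := hex
      obtain ⟨b, v, hv, hb, hr0e⟩ := (hQ r0 hr0).1.at a u hu hau
      have hbL : v = 0 ∨ b ∈ L := by
        by_contra hcon
        push Not at hcon
        have h1 := (hQ r0 hr0).2 b hcon.2
        have hba : b ≠ a := by
          rcases hb with h | h
          · exact h
          · exact absurd h hcon.1
        rw [hr0e, Pi.add_apply, Pi.single_eq_same, Pi.single_eq_of_ne hba, zero_add] at h1
        exact hcon.1 h1
      let e1 := pivEquiv a b u v hb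
      have hL' : (L.erase a).card = k := by rw [Finset.card_erase_of_mem haL, hL]; rfl
      refine Nice.of_equiv (N' := Submodule.span S ((redRow a b u v '' Q) ∪
        {r | ∃ j ∉ L.erase a, r = Pi.single j 1})) e1 ?_ (ih (L.erase a) _ hL' ?_)
      · rw [Submodule.map_span]
        apply le_antisymm
        · rw [Submodule.span_le]
          rintro _ ⟨r, (hr | ⟨j, hj, rfl⟩), rfl⟩
          · show e1 r ∈ _
            rw [show e1 r = _ from piv_row a b u v hb r]
            refine Submodule.add_mem _ (Submodule.subset_span (Or.inl ⟨r, hr, rfl⟩))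
              (Submodule.smul_mem _ _ (Submodule.subset_span (Or.inr ⟨a, by simp, rfl⟩)))
          · show e1 (Pi.single j 1) ∈ _
            have hja : j ≠ a := fun h => hj (h ▸ haL)
            rw [show e1 (Pi.single j 1) = _ from pivEquiv_apply a b u v hb _,
              Pi.single_eq_of_ne (Ne.symm hja), zero_smul, add_zero]
            exact Submodule.subset_span (Or.inr ⟨j, fun h => hj (Finset.mem_of_mem_erase h), rfl⟩)
        · rw [Submodule.span_le]
          have ha : (Pi.single a 1 : ι → S) ∈ Submodule.span S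
              ((e1 : (ι → S) →ₗ[S] (ι → S)) '' (Q ∪ {r | ∃ j ∉ L, r = Pi.single j 1})) := by
            have h1 : e1 r0 = Pi.single a 1 := by
              rw [show e1 r0 = _ from piv_row a b u v hb r0]
              conv_lhs => rw [hr0e]
              rw [redRow_self a b u v hb, zero_add, ← hr0e, hau, Units.mul_inv, one_smul]
            rw [← h1]
            exact Submodule.subset_span ⟨r0, Or.inl hr0, rfl⟩
          rintro _ (⟨r, hr, rfl⟩ | ⟨j, hj, rfl⟩)
          · have h1 : redRow a b u v r = e1 r - (r a * ((u⁻¹ : Sˣ) : S)) • Pi.single a 1 := by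
              rw [show e1 r = _ from piv_row a b u v hb r, add_sub_cancel_right]
            rw [h1]
            exact Submodule.sub_mem _ (Submodule.subset_span ⟨r, Or.inl hr, rfl⟩)
              (Submodule.smul_mem _ _ ha)
          · by_cases hja : j = a
            · rw [hja]; exact ha
            · have hjL : j ∉ L := fun h => hj (Finset.mem_erase.2 ⟨hja, h⟩)
              refine Submodule.subset_span ⟨Pi.single j 1, Or.inr ⟨j, hjL, rfl⟩, ?_⟩
              show e1 (Pi.single j 1) = _
              rw [show e1 (Pi.single j 1) = _ from pivEquiv_apply a b u v hb _,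
                Pi.single_eq_of_ne (Ne.symm hja), zero_smul, add_zero]
      · rintro _ ⟨r, hr, rfl⟩
        refine ⟨(hQ r hr).1.red hneg a b u hu v hv, fun j hj => ?_⟩
        by_cases hja : j = a
        · rw [hja]; exact redRow_at a b u v hb r
        · have hjL : j ∉ L := fun h => hj (Finset.mem_erase.2 ⟨hja, h⟩)
          have h1 : (Pi.single b v : ι → S) j = 0 := by
            rcases hbL with h | h
            · rw [h, Pi.single_zero]; rfl
            · exact Pi.single_eq_of_ne (fun hjb : j = b => hjL (by rw [hjb]; exact h)) _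
          simp only [redRow, Pi.sub_apply, Pi.smul_apply, smul_eq_mul, h1,
            Pi.single_eq_of_ne hja, (hQ r hr).2 j hjL, mul_zero, sub_zero]
    · push Not at hex
      apply nice_flat
      rintro r (hr | ⟨j, hj, rfl⟩)
      · obtain ⟨⟨c, c', x, x', hx, hx', h⟩, h0⟩ := hQ r hr
        have key : ∀ y, y ∈ ({c, c'} : Set ι) → ∀ u ∈ U, r y ≠ ((u : Sˣ) : S) := by
          intro y hy u hu hyu
          by_cases hyL : y ∈ L
          · exact hex r hr y hyL u hu hyu
          · rw [h0 y hyL] at hyu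
            exact u.ne_zero hyu.symm
        by_cases hcc : c = c'
        · subst hcc
          exact ⟨c, x + x', ⟨x, x', hx, hx', rfl⟩, by rw [h, Pi.single_add]⟩
        · have hx0 : x = 0 := by
            rcases hx with hx | ⟨u, hu, hx⟩
            · exact hx
            · exfalso
              refine key c (Or.inl rfl) u hu ?_
              rw [h, Pi.add_apply, Pi.single_eq_same, Pi.single_eq_of_ne hcc, add_zero, hx]
          refine ⟨c', x', ⟨x', 0, hx', UZ.zero, by rw [add_zero]⟩, ?_⟩
          rw [h, hx0, Pi.single_zero, zero_add]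
      · exact ⟨j, 1, ⟨1, 0, Or.inr ⟨1, one_mem U, by simp⟩, UZ.zero, by rw [add_zero]⟩, rfl⟩

end TH57.TT2
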