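import Pool.Agent.TH57.TT2.Long3

set_option autoImplicit false
set_option linter.style.haveILetI false
set_option linter.unusedSectionVars false
set_option linter.unusedVariables false

/-! Rational lines over a principal ideal domain. -/

namespace TH57.TT2.PL

open Matrix TH57.Thr

variable {K : Type} [CommRing K] [IsDomain K] [IsPrincipalIdealRing K] {G : Type} [Group G]

/-- vectors over a group ring with integral coefficients have no additive torsion -/
theorem tfree {n : Type} (a : K) (x : n → MonoidAlgebra K G) (h : a • x = 0) (ha : a ≠ 0) :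
    x = 0 := by
  funext k
  ext g
  have h1 : (a • x k).coeff g = 0 := by
    have := congrFun h k
    rw [Pi.smul_apply] at this
    rw [this]; rfl
  rw [MonoidAlgebra.coeff_smul, Finsupp.smul_apply, smul_eq_mul] at h1
  exact (mul_eq_zero.1 h1).resolve_left ha

/-- a nonzero element with at most two terms is not a zero divisor -/
theorem two_nzd (htf : ∀ g : G, ∀ n : ℕ, 0 < n → g ^ n = 1 → g = 1) (h1 h2 : G) (b1 b2 : K)
    (z : MonoidAlgebra K G) (hz : z ≠ 0)
    (h : (MonoidAlgebra.single h1 b1 + MonoidAlgebra.single h2 b2) * z = 0) :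
    (MonoidAlgebra.single h1 b1 + MonoidAlgebra.single h2 b2 : MonoidAlgebra K G) = 0 := by
  have hc : ∀ x, b1 * z.coeff (h1⁻¹ * x) + b2 * z.coeff (h2⁻¹ * x) = 0 := by
    intro x
    have := congrArg (fun y : MonoidAlgebra K G => y.coeff x) h
    rw [add_mul] at this
    simpa [MonoidAlgebra.coeff_single_mul_apply] using this
  obtain ⟨u, hu⟩ : ∃ u, z.coeff u ≠ 0 := by
    by_contra hcon
    push Not at hcon
    exact hz (by ext g; simpa using hcon g)
  by_cases h12 : h1 = h2
  · subst h12
    have h3 := hc (h1 * u)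
    rw [inv_mul_cancel_left, ← add_mul] at h3
    have h4 : b1 + b2 = 0 := (mul_eq_zero.1 h3).resolve_right hu
    rw [← MonoidAlgebra.single_add, h4, MonoidAlgebra.single_zero]
  · by_cases hb1 : b1 = 0
    · subst hb1
      have h3 := hc (h2 * u)
      rw [zero_mul, zero_add, inv_mul_cancel_left] at h3
      have h4 : b2 = 0 := (mul_eq_zero.1 h3).resolve_right hu
      rw [h4, MonoidAlgebra.single_zero, MonoidAlgebra.single_zero, add_zero]
    · by_cases hb2 : b2 = 0
      · subst hb2
        have h3 := hc (h1 * u)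
        rw [zero_mul, add_zero, inv_mul_cancel_left] at h3
        exact absurd ((mul_eq_zero.1 h3).resolve_right hu) hb1
      · exfalso
        have hstep : ∀ w, z.coeff w ≠ 0 → z.coeff (h1⁻¹ * h2 * w) ≠ 0 := by
          intro w hw h0
          have h3 := hc (h2 * w)
          rw [inv_mul_cancel_left, ← mul_assoc, h0, mul_zero, zero_add] at h3
          exact hw ((mul_eq_zero.1 h3).resolve_left hb2)
        have hall : ∀ k : ℕ, z.coeff ((h1⁻¹ * h2) ^ k * u) ≠ 0 := by
          intro k
          induction k with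
          | zero => simpa using hu
          | succ k ih =>
            rw [pow_succ', mul_assoc]
            exact hstep _ ih
        have ht : h1⁻¹ * h2 ≠ 1 := fun h => h12 (inv_mul_eq_one.1 h)
        have hinj : Function.Injective (fun k : ℕ => (h1⁻¹ * h2) ^ k * u) := by
          intro a b hab
          have hab' : (h1⁻¹ * h2) ^ a = (h1⁻¹ * h2) ^ b := mul_right_cancel hab
          by_contra hne
          rcases lt_or_gt_of_ne hne with hlt | hlt
          · apply ht
            apply htf _ (b - a) (by omega)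
            have h5 : (h1⁻¹ * h2) ^ (b - a) * (h1⁻¹ * h2) ^ a = (h1⁻¹ * h2) ^ a := by
              rw [← pow_add, Nat.sub_add_cancel hlt.le, hab']
            exact mul_eq_right.1 h5
          · apply ht
            apply htf _ (a - b) (by omega)
            have h5 : (h1⁻¹ * h2) ^ (a - b) * (h1⁻¹ * h2) ^ b = (h1⁻¹ * h2) ^ b := by
              rw [← pow_add, Nat.sub_add_cancel hlt.le, hab']
            exact mul_eq_right.1 h5
        exact Set.infinite_of_injective_forall_mem hinj
          (fun k => (by simpa using hall k :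
            (h1⁻¹ * h2) ^ k * u ∈ (z.coeff.support : Set G))) (Finset.finite_toSet _)

theorem two_nzd_vec (htf : ∀ g : G, ∀ n : ℕ, 0 < n → g ^ n = 1 → g = 1) {n : Type} (h1 h2 : G)
    (b1 b2 : K) (z : n → MonoidAlgebra K G) (hz : z ≠ 0)
    (h : (MonoidAlgebra.single h1 b1 + MonoidAlgebra.single h2 b2 : MonoidAlgebra K G) • z = 0) :
    (MonoidAlgebra.single h1 b1 + MonoidAlgebra.single h2 b2 : MonoidAlgebra K G) = 0 := by
  obtain ⟨k, hk⟩ := Function.ne_iff.1 hz
  exact two_nzd htf h1 h2 b1 b2 (z k) hk (congrFun h k)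

/-- generators of a rational line -/
theorem line_gen {n ι : Type} [Fintype ι] (x : ι → n → MonoidAlgebra K G)
    (v : n → MonoidAlgebra K G) (hv : v ≠ 0) (a b : ι → K) (ha : ∀ i, a i ≠ 0)
    (hx : ∀ i, a i • x i = b i • v) (i0 : ι) (hi0 : x i0 ≠ 0) :
    ∃ q y : ι → K, (∀ i, x i = q i • ∑ j, y j • x j) ∧ ∑ j, y j * q j = 1 := by
  classical
  obtain ⟨k, hk⟩ := Function.ne_iff.1 hv
  obtain ⟨u, hu⟩ : ∃ u, (v k).coeff u ≠ 0 := by
    by_contra hcon
    push Not at hcon
    exact hk (by ext g; simpa using hcon g)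
  let l : (n → MonoidAlgebra K G) → K := fun z => (z k).coeff u
  have ladd : ∀ z w, l (z + w) = l z + l w := fun z w => by simp [l]
  have lsub : ∀ z w, l (z - w) = l z - l w := fun z w => by simp [l]
  have lsmul : ∀ (c : K) z, l (c • z) = c * l z := fun c z => by
    change ((c • z) k).coeff u = c * (z k).coeff u
    rw [Pi.smul_apply, MonoidAlgebra.coeff_smul, Finsupp.smul_apply, smul_eq_mul]
  have lsum : ∀ (c : ι → K), l (∑ j, c j • x j) = ∑ j, c j * l (x j) := by
    intro c
    have : ∀ s : Finset ι, l (∑ j ∈ s, c j • x j) = ∑ j ∈ s, c j * l (x j) := by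
      intro s
      induction s using Finset.induction_on with
      | empty => simp [l]
      | insert j s hj ih => rw [Finset.sum_insert hj, Finset.sum_insert hj, ladd, lsmul, ih]
    exact this _
  obtain ⟨d, hd⟩ := (IsPrincipalIdealRing.principal
    (Ideal.span (Set.range fun j => l (x j)))).principal
  have hd' : d ∈ Ideal.span (Set.range fun j => l (x j)) := by
    rw [hd]; exact Submodule.mem_span_singleton_self d
  obtain ⟨y, hy⟩ := Ideal.mem_span_range_iff_exists_fun.1 hd'
  have hq : ∀ i, ∃ q, l (x i) = q * d := by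
    intro i
    have : l (x i) ∈ Ideal.span (Set.range fun j => l (x j)) :=
      Ideal.subset_span ⟨i, rfl⟩
    rw [hd] at this
    obtain ⟨q, hq⟩ := Submodule.mem_span_singleton.1 this
    exact ⟨q, by rw [← hq, smul_eq_mul]⟩
  choose q hq using hq
  set w := ∑ j, y j • x j with hw
  have hlw : l w = d := by rw [hw, lsum, hy]
  -- everything is on the line of `v`
  set N : K := ∏ i, a i with hN
  have hN0 : N ≠ 0 := Finset.prod_ne_zero_iff.2 fun i _ => ha i
  have hβ : ∀ i, ∃ β : K, N • x i = β • v := by
    intro i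
    refine ⟨(∏ j ∈ Finset.univ.erase i, a j) * b i, ?_⟩
    rw [hN, ← Finset.prod_erase_mul _ _ (Finset.mem_univ i), mul_smul, hx, mul_smul]
  choose β hβ using hβ
  have hwβ : N • w = (∑ j, y j * β j) • v := by
    rw [hw, Finset.smul_sum, Finset.sum_smul]
    refine Finset.sum_congr rfl fun j _ => ?_
    rw [smul_comm, hβ, mul_smul]
  have hmain : ∀ i, x i = q i • w := by
    intro i
    rw [← sub_eq_zero]
    apply tfree N _ _ hN0
    have h1 : N • (x i - q i • w) = (β i - q i * ∑ j, y j * β j) • v := by
      rw [smul_sub, smul_comm N (q i) w, hwβ, hβ, sub_smul, mul_smul]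
    have h2 : l (N • (x i - q i • w)) = 0 := by
      rw [lsmul, lsub, lsmul, hlw, hq, sub_self, mul_zero]
    rw [h1, lsmul] at h2
    have h3 := (mul_eq_zero.1 h2).resolve_right hu
    rw [h1, h3, zero_smul]
  refine ⟨q, y, hmain, ?_⟩
  have hw0 : w ≠ 0 := fun h => hi0 (by rw [hmain i0, h, smul_zero])
  by_contra hne
  apply hw0
  apply tfree (∑ j, y j * q j - 1) _ _ (sub_ne_zero.2 hne)
  rw [sub_smul, one_smul, Finset.sum_smul, sub_eq_zero]
  conv_rhs => rw [hw]
  refine Finset.sum_congr rfl fun j _ => ?_
  conv_rhs => rw [hmain j]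
  rw [mul_smul]

end TH57.TT2.PL
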