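import Pool.Agent.TH57.TT2.PL2

set_option autoImplicit false
set_option linter.style.haveILetI false
set_option linter.unusedSectionVars false
set_option linter.unusedVariables false

/-! The main theorem over a principal ideal domain. -/

namespace TH57.TT2.PL

open Matrix TH57.Thr TH6.LF

section group

variable {K : Type} [CommRing K] [IsDomain K] [IsPrincipalIdealRing K] {G : Type} [Group G] {κ ι : Type} [Fintype κ] [DecidableEq κ] [Fintype ι] [DecidableEq ι]

theorem SF_adj (E : Matrix κ κ (MonoidAlgebra K G)) (h : SF E) : SF (adj E) := by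
  obtain ⟨a, b, i1, i2, i3, i4, U, V, h1, h2⟩ := h
  refine ⟨a, b, i1, i2, i3, i4, adj V, adj U, ?_, ?_⟩
  · rw [← adj_mul, h1, adj_fromBlocks, adj_one, adj_zero, adj_zero]
  · rw [← adj_mul, h2, adj_one]

/-- a matrix has a stably free projective cokernel if its adjoint does -/
theorem SFC_of_adj (A : Matrix ι κ (MonoidAlgebra K G)) (h : SFC (adj A)) : SFC A := by
  obtain ⟨Z, hZ, hs⟩ := h
  have hY : A * adj Z * A = A := by
    have := congrArg adj hZ
    rw [adj_mul, adj_mul, adj_adj] at this
    rw [Matrix.mul_assoc]; exact this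
  have hs' : SF (1 - A * adj Z) := by
    have := SF_adj _ hs
    rwa [adj_sub, adj_one, adj_mul, adj_adj] at this
  refine ⟨adj Z, hY, SF_one_sub (adj Z) A ?_ ?_ hs'⟩
  · rw [Matrix.mul_assoc, ← Matrix.mul_assoc A, hY]
  · rw [← Matrix.mul_assoc, hY]

/-- idempotents in a group ring without zero divisors are trivial -/
theorem idem_trivial [NoZeroDivisors (MonoidAlgebra K G)] (e : MonoidAlgebra K G)
    (he : e * e = e) : e = 0 ∨ e = 1 := by
  have h1 : e * (1 - e) = 0 := by rw [mul_sub, mul_one, he, sub_self]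
  rcases mul_eq_zero.1 h1 with h | h
  · exact Or.inl h
  · exact Or.inr (sub_eq_zero.1 h).symm

end group

open Matrix TH57.Thr TH6.LF

variable {K : Type} [CommRing K] [IsDomain K] [IsPrincipalIdealRing K] {G : Type} [Group G] {κ ι I : Type} [Fintype κ] [DecidableEq κ] [Fintype ι]
  [DecidableEq ι]

/-- the number of nonzero coefficients of a row -/
def rowNz (A : Matrix ι κ (MonoidAlgebra K G)) (i : ι) : ℕ := ∑ j, nzr (A i j)

/-- a vector with at most two nonzero coefficients -/
theorem short_form [Nonempty κ] (r : κ → MonoidAlgebra K G) (hr : ∑ j, nzr (r j) ≤ 2) :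
    ∃ (j1 j2 : κ) (g1 g2 : G) (a1 a2 : K),
      r = Pi.single j1 (MonoidAlgebra.single g1 a1 : MonoidAlgebra K G)
        + Pi.single j2 (MonoidAlgebra.single g2 a2 : MonoidAlgebra K G) ∧
      (j1 ≠ j2 → a1 ≠ 0 → a2 ≠ 0 → r j1 ≠ 0 ∧ r j2 ≠ 0) := by
  classical
  have hmain : ∃ (j1 j2 : κ) (g1 g2 : G) (a1 a2 : K),
      r = Pi.single j1 (MonoidAlgebra.single g1 a1 : MonoidAlgebra K G)
        + Pi.single j2 (MonoidAlgebra.single g2 a2 : MonoidAlgebra K G) := by
    have hnz : ∀ x : MonoidAlgebra K G, nzr x ≤ 2 → ∃ g h a b,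
        x = MonoidAlgebra.single g a + MonoidAlgebra.single h b := by
      intro x hx
      have hsum : x = ∑ g ∈ x.coeff.support, MonoidAlgebra.single g (x.coeff g) :=
        (MonoidAlgebra.sum_coeff_single x).symm
      have hc : x.coeff.support.card = 0 ∨ x.coeff.support.card = 1 ∨
          x.coeff.support.card = 2 := by unfold nzr at hx; omega
      rcases hc with hc | hc | hc
      · rw [Finset.card_eq_zero] at hc
        rw [hc, Finset.sum_empty] at hsum
        exact ⟨1, 1, 0, 0, by rw [hsum, MonoidAlgebra.single_zero, add_zero]⟩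
      · obtain ⟨g, hg⟩ := Finset.card_eq_one.1 hc
        rw [hg, Finset.sum_singleton] at hsum
        exact ⟨g, 1, x.coeff g, 0, by rw [MonoidAlgebra.single_zero, add_zero]; exact hsum⟩
      · obtain ⟨g, h, hgh, hg⟩ := Finset.card_eq_two.1 hc
        rw [hg, Finset.sum_pair hgh] at hsum
        exact ⟨g, h, _, _, hsum⟩
    have hnz1 : ∀ x : MonoidAlgebra K G, nzr x ≤ 1 → ∃ g a, x = MonoidAlgebra.single g a := by
      intro x hx
      have hsum : x = ∑ g ∈ x.coeff.support, MonoidAlgebra.single g (x.coeff g) :=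
        (MonoidAlgebra.sum_coeff_single x).symm
      have hc : x.coeff.support.card = 0 ∨ x.coeff.support.card = 1 := by
        unfold nzr at hx; omega
      rcases hc with hc | hc
      · rw [Finset.card_eq_zero] at hc
        rw [hc, Finset.sum_empty] at hsum
        exact ⟨1, 0, by rw [hsum, MonoidAlgebra.single_zero]⟩
      · obtain ⟨g, hg⟩ := Finset.card_eq_one.1 hc
        rw [hg, Finset.sum_singleton] at hsum
        exact ⟨g, x.coeff g, hsum⟩
    have hnz0 : ∀ x : MonoidAlgebra K G, nzr x = 0 → x = 0 := by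
      intro x hx
      have : x.coeff.support = ∅ := Finset.card_eq_zero.1 hx
      have h1 : x = ∑ g ∈ x.coeff.support, MonoidAlgebra.single g (x.coeff g) :=
        (MonoidAlgebra.sum_coeff_single x).symm
      rw [h1, this, Finset.sum_empty]
    by_cases h0 : r = 0
    · let c : κ := Classical.arbitrary κ
      exact ⟨c, c, 1, 1, 0, 0, by
        rw [h0, MonoidAlgebra.single_zero, Pi.single_zero, add_zero]⟩
    · obtain ⟨i, hi⟩ := Function.ne_iff.1 h0
      have hi' : 1 ≤ nzr (r i) := by
        by_contra hcon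
        exact hi (hnz0 _ (by omega))
      by_cases h1 : ∃ j, j ≠ i ∧ r j ≠ 0
      · obtain ⟨j, hji, hj⟩ := h1
        have hj' : 1 ≤ nzr (r j) := by
          by_contra hcon
          exact hj (hnz0 _ (by omega))
        have hle : nzr (r i) + nzr (r j) ≤ 2 := by
          refine le_trans ?_ hr
          rw [← Finset.sum_pair (f := fun j => nzr (r j)) (Ne.symm hji)]
          exact Finset.sum_le_sum_of_subset (Finset.subset_univ _)
        obtain ⟨g, a, ha⟩ := hnz1 (r i) (by omega)
        obtain ⟨h, b, hb⟩ := hnz1 (r j) (by omega)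
        refine ⟨i, j, g, h, a, b, ?_⟩
        funext l
        rw [Pi.add_apply]
        by_cases hli : l = i
        · subst hli
          rw [Pi.single_eq_same, Pi.single_eq_of_ne (Ne.symm hji), add_zero, ha]
        · by_cases hlj : l = j
          · subst hlj
            rw [Pi.single_eq_same, Pi.single_eq_of_ne hli, zero_add, hb]
          · rw [Pi.single_eq_of_ne hli, Pi.single_eq_of_ne hlj, add_zero]
            apply hnz0
            have hle2 : nzr (r i) + (nzr (r j) + nzr (r l)) ≤ 2 := by
              refine le_trans ?_ hr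
              rw [← Finset.sum_pair (f := fun j => nzr (r j)) (Ne.symm hlj),
                ← Finset.sum_insert (f := fun j => nzr (r j)) (by
                  simp [Ne.symm hji, Ne.symm hli])]
              exact Finset.sum_le_sum_of_subset (Finset.subset_univ _)
            omega
      · push Not at h1
        have hle : nzr (r i) ≤ 2 := le_trans (Finset.single_le_sum (f := fun j => nzr (r j))
          (fun _ _ => Nat.zero_le _) (Finset.mem_univ i)) hr
        obtain ⟨g, h, a, b, hab⟩ := hnz (r i) hle
        refine ⟨i, i, g, h, a, b, ?_⟩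
        funext l
        rw [← Pi.single_add, ← hab]
        by_cases hli : l = i
        · subst hli
          rw [Pi.single_eq_same]
        · rw [Pi.single_eq_of_ne hli, h1 l hli]
  obtain ⟨j1, j2, g1, g2, a1, a2, h⟩ := hmain
  refine ⟨j1, j2, g1, g2, a1, a2, h, fun hj h1 h2 => ?_⟩
  have hs : ∀ (g : G) (a : K), a ≠ 0 → (MonoidAlgebra.single g a : MonoidAlgebra K G) ≠ 0 := by
    intro g a ha h0
    have := congrArg (fun y : MonoidAlgebra K G => y.coeff g) h0
    rw [MonoidAlgebra.coeff_single, Finsupp.single_eq_same] at this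
    exact ha this
  constructor
  · rw [h, Pi.add_apply, Pi.single_eq_same, Pi.single_eq_of_ne hj, add_zero]
    exact hs _ _ h1
  · rw [h, Pi.add_apply, Pi.single_eq_same, Pi.single_eq_of_ne (Ne.symm hj), zero_add]
    exact hs _ _ h2

theorem SFC_long [NoZeroDivisors (MonoidAlgebra K G)] (htf : ∀ g : G, ∀ n : ℕ, 0 < n → g ^ n = 1 → g = 1)
    (A : Matrix ι κ (MonoidAlgebra K G)) (Y : Matrix κ ι (MonoidAlgebra K G))
    (hY : A * Y * A = A) (cr : ι → I) (cc : κ → I) (hc : ∀ i j, A i j ≠ 0 → cr i = cc j)
    (hlong : ∀ i i', cr i = cr i' → 2 < rowNz A i → 2 < rowNz A i' → i = i') : SFC A := by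
  classical
  refine ⟨Y, hY, ?_⟩
  obtain ⟨F, hF⟩ : ∃ F, F = 1 - Y * A := ⟨_, rfl⟩
  have hYA : Y * A * (Y * A) = Y * A := by
    calc Y * A * (Y * A) = Y * (A * Y * A) := by simp only [Matrix.mul_assoc]
      _ = Y * A := by rw [hY]
  have hFF : F * F = F := by
    rw [hF, Matrix.mul_sub, Matrix.sub_mul, Matrix.sub_mul, hYA]; simp
  have hAF : A * F = 0 := by
    rw [hF, Matrix.mul_sub, Matrix.mul_one, ← Matrix.mul_assoc, hY, sub_self]
  rw [← hF]
  obtain ⟨C, iC, iD, κC, Φ, W, hWΦ, hfac, hcol, hshort⟩ := line_factor htf cc F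
  obtain ⟨E, hE⟩ : ∃ E, E = W * F * Φ := ⟨_, rfl⟩
  have hEE : E * E = E := by
    rw [hE]
    calc W * F * Φ * (W * F * Φ) = W * F * (Φ * (W * F)) * Φ := by simp only [Matrix.mul_assoc]
      _ = W * F * Φ := by rw [← hfac, Matrix.mul_assoc W, hFF]
  obtain ⟨R, hR⟩ : ∃ R, R = A * Φ := ⟨_, rfl⟩
  have hRE : R * E = 0 := by
    rw [hR, hE]
    calc A * Φ * (W * F * Φ) = A * (Φ * (W * F)) * Φ := by simp only [Matrix.mul_assoc]
      _ = 0 := by rw [← hfac, hAF, Matrix.zero_mul]
  -- the rows of `R`
  have hRc : ∀ l c, R l c ≠ 0 → cr l = κC c := by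
    intro l c hlc
    by_contra hne
    apply hlc
    rw [hR, Matrix.mul_apply]
    refine Finset.sum_eq_zero fun i _ => ?_
    by_cases h1 : A l i = 0
    · rw [h1, zero_mul]
    · by_cases h2 : Φ i c = 0
      · rw [h2, mul_zero]
      · exact absurd ((hc l i h1).trans (hcol i c h2)) hne
  have hRs : ∀ l, rowNz A l ≤ 2 → R l = 0 := by
    intro l hl
    rcases isEmpty_or_nonempty κ with hemp | hne
    · funext c
      rw [hR, Matrix.mul_apply, Finset.univ_eq_empty, Finset.sum_empty]
      rfl
    · obtain ⟨j1, j2, g1, g2, a1, a2, hrow, hnz⟩ := short_form (A l) hl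
      have hsum : ∀ {μ : Type} (M : Matrix κ μ (MonoidAlgebra K G)) (c : μ), (A * M) l c
          = MonoidAlgebra.single g1 a1 * M j1 c + MonoidAlgebra.single g2 a2 * M j2 c := by
        intro μ M c
        rw [Matrix.mul_apply]
        have h1 : ∀ i, A l i * M i c
            = (Pi.single j1 (MonoidAlgebra.single g1 a1 : MonoidAlgebra K G) :
                κ → MonoidAlgebra K G) i * M i c
              + (Pi.single j2 (MonoidAlgebra.single g2 a2 : MonoidAlgebra K G) :
                κ → MonoidAlgebra K G) i * M i c := by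
          intro i
          rw [← add_mul, ← Pi.add_apply, ← hrow]
        simp only [h1]
        rw [Finset.sum_add_distrib]
        congr 1
        · rw [Finset.sum_eq_single j1]
          · rw [Pi.single_eq_same]
          · intro b _ hb; rw [Pi.single_eq_of_ne hb, zero_mul]
          · intro h; exact absurd (Finset.mem_univ _) h
        · rw [Finset.sum_eq_single j2]
          · rw [Pi.single_eq_same]
          · intro b _ hb; rw [Pi.single_eq_of_ne hb, zero_mul]
          · intro h; exact absurd (Finset.mem_univ _) h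
      funext c
      rw [hR, hsum Φ c]
      refine hshort j1 j2 g1 g2 a1 a2 (fun hj h1 h2 => ?_) ?_ c
      · obtain ⟨n1, n2⟩ := hnz hj h1 h2
        exact (hc l j1 n1).symm.trans (hc l j2 n2)
      · funext k
        have := hsum F k
        rw [hAF] at this
        exact this.symm
  have huniq : ∀ l l' c c', cr l = cr l' → R l c ≠ 0 → R l' c' ≠ 0 → l = l' := by
    intro l l' c c' hll h1 h2
    apply hlong l l' hll
    · by_contra hcon
      exact h1 (by rw [hRs l (by omega)]; rfl)
    · by_contra hcon
      exact h2 (by rw [hRs l' (by omega)]; rfl)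
  -- the complement of `E`
  let δ : ι → Prop := fun l => R l ≠ 0
  obtain ⟨D, hD⟩ : ∃ D : Matrix ι ι (MonoidAlgebra K G),
    D = Matrix.diagonal (fun l => if δ l then (1 : MonoidAlgebra K G) else 0) := ⟨_, rfl⟩
  have hDR : D * R = R := by
    ext1 l c
    rw [hD, Matrix.diagonal_mul]
    by_cases h : R l = 0
    · rw [if_neg (not_not.2 h), zero_mul, h]; rfl
    · rw [if_pos h, one_mul]
  obtain ⟨Z, hZ⟩ : ∃ Z, Z = (1 - E) * W * Y * D := ⟨_, rfl⟩
  have hZR : Z * R = 1 - E := by
    have h1 : (1 - E) * W * F = 0 := by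
      have : E * W * F = W * F := by
        rw [hE]
        calc W * F * Φ * W * F = W * F * (Φ * (W * F)) := by simp only [Matrix.mul_assoc]
          _ = W * F := by rw [← hfac, Matrix.mul_assoc, hFF]
      rw [Matrix.sub_mul, Matrix.sub_mul, this, Matrix.one_mul, sub_self]
    have h2 : (1 - E) * W * (Y * A) = (1 - E) * W := by
      have h3 : (1 - E) * W * F = (1 - E) * W - (1 - E) * W * (Y * A) := by
        rw [hF, Matrix.mul_sub, Matrix.mul_one]
      rw [h1] at h3
      exact (sub_eq_zero.1 h3.symm).symm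
    calc Z * R = (1 - E) * W * Y * (D * R) := by rw [hZ]; simp only [Matrix.mul_assoc]
      _ = (1 - E) * W * (Y * A) * Φ := by rw [hDR, hR]; simp only [Matrix.mul_assoc]
      _ = (1 - E) * (W * Φ) := by rw [h2, Matrix.mul_assoc]
      _ = 1 - E := by rw [hWΦ, Matrix.mul_one]
  have hRZR : R * Z * R = R := by
    rw [Matrix.mul_assoc, hZR, Matrix.mul_sub, Matrix.mul_one, hRE, sub_zero]
  obtain ⟨H, hH⟩ : ∃ H, H = R * Z := ⟨_, rfl⟩
  have hHz1 : ∀ l, R l = 0 → ∀ l', H l l' = 0 := by
    intro l hl l'
    rw [hH, Matrix.mul_apply]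
    exact Finset.sum_eq_zero fun c _ => by rw [hl]; exact zero_mul _
  have hHz2 : ∀ l', R l' = 0 → ∀ l, H l l' = 0 := by
    intro l' hl' l
    rw [hH, Matrix.mul_apply]
    refine Finset.sum_eq_zero fun c _ => ?_
    rw [hZ, hD, Matrix.mul_diagonal, if_neg (not_not.2 hl'), mul_zero, mul_zero]
  have hHR : ∀ l l' c, R l' c ≠ 0 → R l c = H l l' * R l' c := by
    intro l l' c hc'
    have h1 : (H * R) l c = R l c := by rw [hH, hRZR]
    rw [← h1, Matrix.mul_apply]
    refine Finset.sum_eq_single l' (fun k _ hk => ?_) (fun h => absurd (Finset.mem_univ _) h)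
    by_cases h2 : R k c = 0
    · rw [h2, mul_zero]
    · exact absurd (huniq k l' c c ((hRc k c h2).trans (hRc l' c hc').symm) h2 hc') hk
  have hdiag : ∀ l, R l ≠ 0 → H l l = 1 := by
    intro l hl
    have hε : ∀ c, R l c = H l l * R l c := by
      intro c
      by_cases h : R l c = 0
      · rw [h, mul_zero]
      · exact hHR l l c h
    have hid : H l l * H l l = H l l := by
      have h1 : H l l = ∑ c, R l c * Z c l := by rw [hH, Matrix.mul_apply]
      calc H l l * H l l = H l l * ∑ c, R l c * Z c l := by rw [← h1]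
        _ = ∑ c, H l l * R l c * Z c l := by
            rw [Finset.mul_sum]
            exact Finset.sum_congr rfl fun c _ => (mul_assoc _ _ _).symm
        _ = ∑ c, R l c * Z c l := Finset.sum_congr rfl fun c _ => by rw [← hε c]
        _ = H l l := h1.symm
    rcases idem_trivial _ hid with h0 | h1
    · exfalso
      apply hl
      funext c
      rw [hε c, h0, zero_mul]
      rfl
    · exact h1
  have hoff : ∀ l l', l ≠ l' → H l l' = 0 := by
    intro l l' hne
    by_cases h1 : R l' = 0
    · exact hHz2 l' h1 l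
    · -- `H l l' R l' = 0`
      have h2 : ∀ c, H l l' * R l' c = 0 := by
        intro c
        by_cases h3 : R l' c = 0
        · rw [h3, mul_zero]
        · rw [← hHR l l' c h3]
          by_contra h4
          exact hne (huniq l l' c c ((hRc l c h4).trans (hRc l' c h3).symm) h4 h3)
      have h3 : H l' l' = ∑ c, R l' c * Z c l' := by rw [hH, Matrix.mul_apply]
      calc H l l' = H l l' * H l' l' := by rw [hdiag l' h1, mul_one]
        _ = H l l' * ∑ c, R l' c * Z c l' := by rw [← h3]
        _ = ∑ c, H l l' * R l' c * Z c l' := by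
            rw [Finset.mul_sum]
            exact Finset.sum_congr rfl fun c _ => (mul_assoc _ _ _).symm
        _ = 0 := Finset.sum_eq_zero fun c _ => by rw [h2 c, zero_mul]
  have hHd : 1 - H = Matrix.diagonal (fun l => if ¬ δ l then (1 : MonoidAlgebra K G) else 0) := by
    ext1 l l'
    rw [Matrix.sub_apply, Matrix.one_apply, Matrix.diagonal_apply]
    by_cases hll : l = l'
    · subst hll
      rw [if_pos rfl, if_pos rfl]
      by_cases h1 : R l = 0
      · rw [hHz1 l h1, sub_zero, if_pos (not_not.2 h1)]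
      · rw [hdiag l h1, sub_self, if_neg (not_not.2 h1)]
    · rw [if_neg hll, if_neg hll, hoff l l' hll, sub_zero]
  have hs1 : SF (1 - R * Z) := by
    rw [← hH, hHd]
    convert SF_diag (R := MonoidAlgebra K G) (fun l => ¬ δ l)
  have hEc : Z * R * (Z * R) = Z * R := by
    rw [← Matrix.mul_assoc, Matrix.mul_assoc Z, Matrix.mul_assoc Z, hRZR]
  have hRc' : R * Z * (R * Z) = R * Z := by
    rw [← Matrix.mul_assoc, hRZR]
  have hs2 : SF (1 - Z * R) := SF_one_sub Z R hEc hRc' hs1
  rw [hZR, sub_sub_cancel] at hs2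
  have hs3 : SF (F * Φ * (W * F)) := by
    apply SF_iso
    · have : F * Φ * (W * F) = F := by rw [Matrix.mul_assoc, ← hfac, hFF]
      rw [this, hFF]
    · have : W * F * (F * Φ) = E := by
        rw [hE]
        calc W * F * (F * Φ) = W * (F * F) * Φ := by simp only [Matrix.mul_assoc]
          _ = W * F * Φ := by rw [hFF]
      rw [this]; exact hs2
  have : F * Φ * (W * F) = F := by rw [Matrix.mul_assoc, ← hfac, hFF]
  rwa [this] at hs3

/-- the same with columns -/
theorem SFC_long_col [NoZeroDivisors (MonoidAlgebra K G)] (htf : ∀ g : G, ∀ n : ℕ, 0 < n → g ^ n = 1 → g = 1)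
    (A : Matrix ι κ (MonoidAlgebra K G)) (Y : Matrix κ ι (MonoidAlgebra K G))
    (hY : A * Y * A = A) (cr : ι → I) (cc : κ → I) (hc : ∀ i j, A i j ≠ 0 → cr i = cc j)
    (hlong : ∀ j j', cc j = cc j' → 2 < ∑ i, nzr (A i j) → 2 < ∑ i, nzr (A i j') → j = j') :
    SFC A := by
  classical
  have hb0 : ∀ x : MonoidAlgebra K G, bar x ≠ 0 → x ≠ 0 := fun x h h' => h (by rw [h', bar_zero])
  have hnz : ∀ x : MonoidAlgebra K G, nzr (bar x) = nzr x := by
    intro x
    unfold nzr
    have : (bar x).coeff.support = x.coeff.support.image (fun g => g⁻¹) := by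
      ext g
      rw [Finset.mem_image, Finsupp.mem_support_iff, coeff_bar]
      constructor
      · intro h
        exact ⟨g⁻¹, Finsupp.mem_support_iff.2 h, inv_inv g⟩
      · rintro ⟨h, hh, rfl⟩
        rw [inv_inv]; exact Finsupp.mem_support_iff.1 hh
    rw [this, Finset.card_image_of_injective _ inv_injective]
  apply SFC_of_adj
  refine SFC_long htf (adj A) (adj Y) ?_ cc cr (fun j i h => (hc i j (hb0 _ h)).symm) ?_
  · have := congrArg adj hY
    rw [adj_mul, adj_mul] at this
    rw [Matrix.mul_assoc]; exact this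
  · intro j j' hjj h1 h2
    have e : ∀ j, rowNz (adj A) j = ∑ i, nzr (A i j) := fun j => by
      unfold rowNz
      exact Finset.sum_congr rfl fun i _ => hnz _
    rw [e] at h1 h2
    exact hlong j j' hjj h1 h2

end TH57.TT2.PL
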