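import Pool.Agent.TH57.TT2.PL3

set_option autoImplicit false
set_option linter.unusedSectionVars false
set_option linter.unusedVariables false

/-! A group whose group ring has no zero divisors is torsion-free. -/

namespace TH57.TT2.PL

open MonoidAlgebra

theorem torsionFree_of_domain {R : Type} [CommRing R] [Nontrivial R] {G : Type} [Group G]
    [NoZeroDivisors (MonoidAlgebra R G)] (g : G) (n : ℕ) (hn : 0 < n) (h : g ^ n = 1) : g = 1 := by
  classical
  by_contra hg
  have hN : 0 < orderOf g := orderOf_pos_iff.2 (isOfFinOrder_iff_pow_eq_one.2 ⟨n, hn, h⟩)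
  obtain ⟨a, ha⟩ : ∃ a : MonoidAlgebra R G, a = MonoidAlgebra.single g 1 := ⟨_, rfl⟩
  have hpow : ∀ i : ℕ, a ^ i = MonoidAlgebra.single (g ^ i) 1 := by
    intro i
    rw [ha, MonoidAlgebra.single_pow, one_pow]
  have h1 : (∑ i ∈ Finset.range (orderOf g), a ^ i) * (a - 1) = 0 := by
    rw [geom_sum_mul, hpow, pow_orderOf_eq_one, MonoidAlgebra.one_def, sub_self]
  rcases mul_eq_zero.1 h1 with h2 | h2
  · have h3 := congrArg (fun x : MonoidAlgebra R G => x.coeff 1) h2
    have h4 : ∀ s : Finset ℕ, (∑ i ∈ s, a ^ i).coeff 1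
        = ∑ i ∈ s, (if g ^ i = 1 then (1 : R) else 0) := by
      intro s
      induction s using Finset.induction_on with
      | empty => rw [Finset.sum_empty, Finset.sum_empty]; rfl
      | insert j s hj ih =>
        rw [Finset.sum_insert hj, Finset.sum_insert hj, MonoidAlgebra.coeff_add,
          Finsupp.add_apply, ih, hpow, MonoidAlgebra.coeff_single, Finsupp.single_apply]
    rw [h4, Finset.sum_eq_single 0] at h3
    · rw [pow_zero, if_pos rfl] at h3
      exact one_ne_zero h3
    · intro i hi hi0
      rw [if_neg]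
      intro h5
      exact absurd (Nat.le_of_dvd (Nat.pos_of_ne_zero hi0) (orderOf_dvd_of_pow_eq_one h5))
        (not_le.2 (Finset.mem_range.1 hi))
    · intro h5
      exact absurd (Finset.mem_range.2 hN) h5
  · apply hg
    have h3 := congrArg (fun x : MonoidAlgebra R G => x.coeff g) h2
    rw [ha, MonoidAlgebra.coeff_sub, Finsupp.sub_apply, MonoidAlgebra.coeff_single,
      Finsupp.single_eq_same, MonoidAlgebra.one_def, MonoidAlgebra.coeff_single,
      Finsupp.single_apply] at h3
    by_contra hne
    rw [if_neg (Ne.symm hne), sub_zero] at h3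
    exact one_ne_zero h3

end TH57.TT2.PL
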