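import Pool.Agent.TH6.CX.Tor
import Pool.Agent.TH57.Thr.IntMat

set_option autoImplicit false
set_option linter.style.haveILetI false
set_option linter.unusedSectionVars false
set_option linter.unusedVariables false

/-! Cancelling pairs of basis elements in complexes whose boundary maps have at most two terms in
every row, or in every column. -/

namespace TH57.TT2

open Matrix TH57.Thr TH6.CX

variable {R : Type} [Ring R] {ι : Type} [Fintype ι] [DecidableEq ι]

/-- zero or a member of `U` -/
def UZ (U : Subgroup Rˣ) (x : R) : Prop := x = 0 ∨ ∃ u ∈ U, x = ((u : Rˣ) : R)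

variable {U : Subgroup Rˣ}

theorem UZ.zero : UZ U (0 : R) := Or.inl rfl

theorem UZ.mul {x y : R} (hx : UZ U x) (hy : UZ U y) : UZ U (x * y) := by
  rcases hx with rfl | ⟨u, hu, rfl⟩
  · rw [zero_mul]; exact UZ.zero
  rcases hy with rfl | ⟨v, hv, rfl⟩
  · rw [mul_zero]; exact UZ.zero
  · exact Or.inr ⟨u * v, mul_mem hu hv, by rw [Units.val_mul]⟩

theorem UZ.neg (hneg : (-1 : Rˣ) ∈ U) {x : R} (hx : UZ U x) : UZ U (-x) := by
  have := UZ.mul (U := U) (Or.inr ⟨-1, hneg, rfl⟩ : UZ U (((-1 : Rˣ)) : R)) hx
  simpa using this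

theorem UZ.of_mem {u : Rˣ} (hu : u ∈ U) : UZ U (u : R) := Or.inr ⟨u, hu, rfl⟩

/-- a sum of at most two members of `U`, placed anywhere -/
def Two (U : Subgroup Rˣ) (r : ι → R) : Prop :=
  ∃ c c' x x', UZ U x ∧ UZ U x' ∧ r = Pi.single c x + Pi.single c' x'

theorem Two.map {r : ι → R} (h : Two U r) (F : (ι → R) → (ι → R))
    (hadd : ∀ v w, F (v + w) = F v + F w)
    (hF : ∀ c x, UZ U x → ∃ c' x', UZ U x' ∧ F (Pi.single c x) = Pi.single c' x') :
    Two U (F r) := by
  obtain ⟨c, c', x, x', hx, hx', rfl⟩ := h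
  obtain ⟨e, y, hy, h1⟩ := hF c x hx
  obtain ⟨e', y', hy', h2⟩ := hF c' x' hx'
  exact ⟨e, e', y, y', hy, hy', by rw [hadd, h1, h2]⟩

/-- if one entry of a row with at most two terms is a member of `U`, the rest is at most one
term -/
theorem Two.at [Nontrivial R] {r : ι → R} (h : Two U r) (b : ι) (u : Rˣ) (hu : u ∈ U)
    (hb : r b = u) :
    ∃ c v, UZ U v ∧ (c ≠ b ∨ v = 0) ∧ r = Pi.single b (u : R) + Pi.single c v := by
  obtain ⟨c, c', x, x', hx, hx', rfl⟩ := h
  by_cases h1 : c = b
  · subst h1
    by_cases h2 : c' = c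
    · subst h2
      refine ⟨c', 0, UZ.zero, Or.inr rfl, ?_⟩
      rw [Pi.single_zero, add_zero, ← Pi.single_add]
      rw [← hb]
      simp
    · refine ⟨c', x', hx', Or.inl h2, ?_⟩
      rw [← hb]
      simp [Pi.single_eq_of_ne (Ne.symm h2)]
  · by_cases h2 : c' = b
    · subst h2
      refine ⟨c, x, hx, Or.inl h1, ?_⟩
      rw [← hb]
      simp [Pi.single_eq_of_ne (Ne.symm h1), add_comm]
    · exfalso
      have h3 : (u : R) = 0 := by
        rw [← hb]
        simp [Pi.single_eq_of_ne (Ne.symm h1), Pi.single_eq_of_ne (Ne.symm h2)]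
      exact u.ne_zero h3

/-! ### degree-preserving matrices with stably trivial odd and even parts -/

variable {deg : ι → ℤ}

/-- entries preserve the degree -/
def Dp (deg : ι → ℤ) (W : Matrix ι ι R) : Prop := ∀ i j, W i j ≠ 0 → deg i = deg j

theorem Dp.mul {A B : Matrix ι ι R} (hA : Dp deg A) (hB : Dp deg B) : Dp deg (A * B) := by
  intro i k h
  rw [Matrix.mul_apply] at h
  obtain ⟨j, _, hj⟩ := Finset.exists_ne_zero_of_sum_ne_zero h
  exact (hA i j fun h => hj (by rw [h, zero_mul])).trans
    (hB j k fun h => hj (by rw [h, mul_zero]))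

theorem Dp.one : Dp deg (1 : Matrix ι ι R) := by
  intro i j h
  by_cases h1 : i = j
  · rw [h1]
  · exact absurd (Matrix.one_apply_ne h1) h

theorem Dp.inv {W : (Matrix ι ι R)ˣ} (h : Dp deg W.val) : Dp deg (W⁻¹).val := by
  set Y : Matrix ι ι R := fun i j => if deg i = deg j then (W⁻¹).val i j else 0 with hY
  have h1 : W.val * Y = 1 := by
    ext1 i j
    have h2 : (W.val * Y) i j = if deg i = deg j then (W.val * (W⁻¹).val) i j else 0 := by
      rw [Matrix.mul_apply, Matrix.mul_apply]
      by_cases hij : deg i = deg j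
      · rw [if_pos hij]
        refine Finset.sum_congr rfl fun k _ => ?_
        by_cases hk : W.val i k = 0
        · rw [hk, zero_mul, zero_mul]
        · have := h i k hk
          simp only [hY]
          rw [if_pos (by rw [← this, hij])]
      · rw [if_neg hij]
        refine Finset.sum_eq_zero fun k _ => ?_
        by_cases hk : W.val i k = 0
        · rw [hk, zero_mul]
        · have := h i k hk
          simp only [hY]
          rw [if_neg (by rw [← this]; exact hij), mul_zero]
    rw [h2, Units.mul_inv]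
    by_cases hij : deg i = deg j
    · rw [if_pos hij]
    · rw [if_neg hij, Matrix.one_apply_ne (fun h => hij (by rw [h]))]
  have h3 : (W⁻¹).val = Y := by
    calc (W⁻¹).val = (W⁻¹).val * (W.val * Y) := by rw [h1, Matrix.mul_one]
      _ = Y := by rw [← Matrix.mul_assoc, Units.inv_mul, Matrix.one_mul]
  rw [h3]
  intro i j hij
  by_contra hne
  exact hij (by simp only [hY]; rw [if_neg hne])

/-- the part of the matrix on the indices with the property `P` is invertible and stably
trivial -/
def Gp (U : Subgroup Rˣ) (P : ι → Prop) [DecidablePred P] (W : Matrix ι ι R) : Prop :=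
  ∃ w : (Matrix {i // P i} {i // P i} R)ˣ,
    w.val = W.submatrix Subtype.val Subtype.val ∧ TT U w

theorem Gp.mul {P : ι → Prop} [DecidablePred P] {A B : Matrix ι ι R} (hA : Gp U P A)
    (hB : Gp U P B) (h : ∀ i j, P i → A i j ≠ 0 → P j) : Gp U P (A * B) := by
  obtain ⟨a, ha, ta⟩ := hA
  obtain ⟨b, hb, tb⟩ := hB
  refine ⟨a * b, ?_, TT_mul U _ _ ta tb⟩
  rw [Units.val_mul, ha, hb, TH6.CX.sub_mul P _ _ A B (fun x j hx => h _ _ x.2 hx)]
  rfl

theorem Gp.one {P : ι → Prop} [DecidablePred P] : Gp U P (1 : Matrix ι ι R) := by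
  refine ⟨1, ?_, TT_one U⟩
  ext1 i j
  simp [Matrix.one_apply, Subtype.ext_iff]

theorem Gp.unip {P : ι → Prop} [DecidablePred P] (S : Finset ι) (Z : Matrix ι ι R)
    (hZ : ∀ i j, Z i j ≠ 0 → i ∈ S ∧ j ∉ S) : Gp U P (1 + Z) := by
  obtain ⟨w, hw, tw⟩ := El_unit (1 + Z.submatrix (Subtype.val : {i // P i} → ι) Subtype.val)
    (el_unip (S.subtype P) _ (by
      intro i j h
      have := hZ i.1 j.1 h
      simpa using this))
  refine ⟨w, ?_, tw U⟩
  rw [hw]
  ext1 i j
  simp [Matrix.one_apply, Subtype.ext_iff]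

theorem Gp.dgm {P : ι → Prop} [DecidablePred P] (b : ι) (u : Rˣ) (hu : u ∈ U) :
    Gp U P (dgm b (u : R)) := by
  by_cases hb : P b
  · refine ⟨Units.map (TH57.Thr.dgm (⟨b, hb⟩ : {i // P i})) u, ?_,
      TT_of_mem U _ (dgm_mem_HH U _ u hu)⟩
    ext1 i j
    change Matrix.diagonal (Function.update 1 (⟨b, hb⟩ : {i // P i}) (u : R)) i j =
      Matrix.diagonal (Function.update 1 b (u : R)) i.1 j.1
    by_cases hij : i = j
    · subst hij
      rw [Matrix.diagonal_apply_eq, Matrix.diagonal_apply_eq]
      simp [Function.update_apply, Subtype.ext_iff]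
    · rw [Matrix.diagonal_apply_ne _ hij,
        Matrix.diagonal_apply_ne _ (fun h => hij (Subtype.ext h))]
  · refine ⟨1, ?_, TT_one U⟩
    ext1 i j
    change (1 : Matrix {i // P i} {i // P i} R) i j =
      Matrix.diagonal (Function.update 1 b (u : R)) i.1 j.1
    by_cases hij : i = j
    · subst hij
      rw [Matrix.one_apply_eq, Matrix.diagonal_apply_eq,
        Function.update_of_ne (show i.1 ≠ b from fun h => hb (h ▸ i.2))]
      rfl
    · rw [Matrix.one_apply_ne hij, Matrix.diagonal_apply_ne _ (fun h => hij (Subtype.ext h))]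

/-- degree-preserving, and the odd and the even parts are stably trivial -/
def Good (U : Subgroup Rˣ) (deg : ι → ℤ) (W : Matrix ι ι R) : Prop :=
  Dp deg W ∧ Gp U (fun i => Odd (deg i)) W ∧ Gp U (fun i => Even (deg i)) W

theorem Good.mul {A B : Matrix ι ι R} (hA : Good U deg A) (hB : Good U deg B) :
    Good U deg (A * B) :=
  ⟨hA.1.mul hB.1, hA.2.1.mul hB.2.1 (fun i j hi h => by rw [← hA.1 i j h]; exact hi),
    hA.2.2.mul hB.2.2 (fun i j hi h => by rw [← hA.1 i j h]; exact hi)⟩

theorem Good.one : Good U deg (1 : Matrix ι ι R) := ⟨Dp.one, Gp.one, Gp.one⟩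

theorem Good.unip (S : Finset ι) (Z : Matrix ι ι R)
    (hZ : ∀ i j, Z i j ≠ 0 → i ∈ S ∧ j ∉ S) (hd : Dp deg Z) : Good U deg (1 + Z) := by
  refine ⟨?_, Gp.unip S Z hZ, Gp.unip S Z hZ⟩
  intro i j h
  by_cases h1 : Z i j = 0
  · rw [Matrix.add_apply, h1, add_zero] at h
    exact Dp.one i j h
  · exact hd i j h1

theorem Good.dgm (b : ι) (u : Rˣ) (hu : u ∈ U) : Good U deg (dgm b (u : R)) := by
  refine ⟨?_, Gp.dgm b u hu, Gp.dgm b u hu⟩
  intro i j h
  by_cases h1 : i = j
  · rw [h1]
  · exact absurd (Matrix.diagonal_apply_ne _ h1) h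

/-! ### partially matched complexes -/

/-- the indices are partially matched by `σ`, and the matched pairs split off -/
structure St (deg : ι → ℤ) (d : Matrix ι ι R) (σ : ι → ι) : Prop where
  bd : IsBd deg d
  inv : ∀ i, σ (σ i) = i
  mat : ∀ i, σ i ≠ i → (d i = Pi.single (σ i) 1 ∧ d (σ i) = 0) ∨
    (d i = 0 ∧ d (σ i) = Pi.single i 1)
  unm : ∀ i j, σ i = i → σ j ≠ j → d i j = 0

/-- in every degree all unmatched rows, or all unmatched columns, have at most two terms -/
def Sp (U : Subgroup Rˣ) (deg : ι → ℤ) (d : Matrix ι ι R) (σ : ι → ι) : Prop :=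
  ∀ l : ℤ, (∀ i, σ i = i → deg i = l → Two U (d i)) ∨
    (∀ j, σ j = j → deg j = l - 1 → Two U (fun i => d i j))

/-- new boundary operator -/
def nd (d : Matrix ι ι R) (a b : ι) (u : Rˣ) : Matrix ι ι R := fun i j =>
  if i = a then (if j = b then 1 else 0) else if i = b then 0 else
    if j = a ∨ j = b then 0 else d i j - d i b * (u⁻¹ : Rˣ) * d a j

/-- new matching -/
def nσ (σ : ι → ι) (a b : ι) : ι → ι := fun i => if i = a then b else if i = b then a else σ i

/-- base change -/
def nW (d : Matrix ι ι R) (a b : ι) (u : Rˣ) : Matrix ι ι R := fun i j =>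
  if i = b then d a j else
    (if i = j then 1 else 0) - (if j = a ∧ i ≠ a then d i b * (u⁻¹ : Rˣ) else 0)

section pivot

variable {d : Matrix ι ι R} {σ : ι → ι} {a b : ι} {u : Rˣ}

theorem dzero (h : IsBd deg d) {i j : ι} (hij : deg i ≠ deg j + 1) : d i j = 0 := by
  by_contra h1
  exact hij (h.degree i j h1)

theorem nW_good [Nontrivial R] (h : IsBd deg d) (hab : d a b = u) (hu : u ∈ U) :
    ∃ W : (Matrix ι ι R)ˣ, W.val = nW d a b u ∧ Good U deg W.val := by
  have hdeg : deg a = deg b + 1 := h.degree a b (by rw [hab]; exact u.ne_zero)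
  have hne : a ≠ b := by rintro rfl; omega
  have hbb : d b b = 0 := dzero h (by omega)
  set X : Matrix ι ι R := fun i j => if j = a ∧ i ≠ a then -(d i b * (u⁻¹ : Rˣ)) else 0 with hX
  set Z : Matrix ι ι R := fun i j => if i = b ∧ j ≠ b then (u⁻¹ : Rˣ) * d a j else 0 with hZ
  have hXs : ∀ i j, X i j ≠ 0 → i ∈ Finset.univ.erase a ∧ j ∉ Finset.univ.erase a := by
    intro i j hij
    by_cases h1 : j = a ∧ i ≠ a
    · exact ⟨Finset.mem_erase.2 ⟨h1.2, Finset.mem_univ _⟩, by rw [h1.1]; simp⟩
    · exact absurd (if_neg h1) hij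
  have hXd : Dp deg X := by
    intro i j hij
    by_cases h1 : j = a ∧ i ≠ a
    · have h2 : d i b ≠ 0 := by
        intro h2; apply hij
        simp only [hX, if_pos h1, h2, zero_mul, neg_zero]
      rw [h1.1, hdeg, h.degree i b h2]
    · exact absurd (if_neg h1) hij
  have hZs : ∀ i j, Z i j ≠ 0 → i ∈ ({b} : Finset ι) ∧ j ∉ ({b} : Finset ι) := by
    intro i j hij
    by_cases h1 : i = b ∧ j ≠ b
    · simpa using h1
    · exact absurd (if_neg h1) hij
  have hZd : Dp deg Z := by
    intro i j hij
    by_cases h1 : i = b ∧ j ≠ b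
    · have h2 : d a j ≠ 0 := by
        intro h2; apply hij
        simp only [hZ, if_pos h1, h2, mul_zero]
      have := h.degree a j h2
      rw [h1.1]; omega
    · exact absurd (if_neg h1) hij
  have g1 : Good U deg (1 + X) := Good.unip _ X hXs hXd
  have g2 : Good U deg (dgm b (u : R)) := Good.dgm b u hu
  have g3 : Good U deg (1 + Z) := Good.unip _ Z hZs hZd
  obtain ⟨w1, hw1, _⟩ := El_unit (1 + X) (el_unip _ X hXs)
  obtain ⟨w3, hw3, _⟩ := El_unit (1 + Z) (el_unip _ Z hZs)
  have hval : (w1 * (Units.map (dgm b) u * w3) : (Matrix ι ι R)ˣ).val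
      = (1 + X) * (dgm b (u : R) * (1 + Z)) := by
    rw [Units.val_mul, Units.val_mul, hw1, hw3]; rfl
  refine ⟨w1 * (Units.map (dgm b) u * w3), ?_, ?_⟩
  · rw [hval]
    set N := dgm b (u : R) * (1 + Z) with hN
    have hNe : ∀ i j, N i j = if i = b then d a j else (if i = j then 1 else 0) := by
      intro i j
      rw [hN, dgm_apply, Matrix.diagonal_mul, Matrix.add_apply]
      by_cases hi : i = b
      · subst hi
        rw [if_pos rfl, Function.update_self]
        by_cases hj : j = i
        · subst hj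
          simp only [hZ]
          rw [Matrix.one_apply_eq, if_neg (by simp), add_zero, mul_one, hab]
        · simp only [hZ]
          rw [Matrix.one_apply_ne (Ne.symm hj), if_pos ⟨trivial, hj⟩, zero_add, ← mul_assoc,
            Units.mul_inv, one_mul]
      · rw [if_neg hi, Function.update_of_ne hi]
        simp only [hZ]
        rw [if_neg (by tauto), add_zero, Matrix.one_apply]
        simp
    ext1 i j
    rw [Matrix.add_mul, Matrix.one_mul, Matrix.add_apply, Matrix.mul_apply]
    have h1 : ∑ k, X i k * N k j = X i a * N a j := by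
      rw [Finset.sum_eq_single a]
      · intro k _ hk
        simp only [hX]
        rw [if_neg (by tauto), zero_mul]
      · intro h; exact absurd (Finset.mem_univ a) h
    rw [h1, hNe, hNe, if_neg hne]
    simp only [nW, hX]
    by_cases hi : i = b
    · subst hi
      rw [if_pos rfl, if_pos rfl]
      simp [hbb]
    · rw [if_neg hi, if_neg hi]
      by_cases hia : i = a
      · subst hia
        simp
      · by_cases hja : j = a
        · subst hja
          simp [hia, sub_eq_add_neg]
        · simp [hja, Ne.symm hja]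
  · rw [hval]
    exact g1.mul (g2.mul g3)

theorem nW_conj [Nontrivial R] (h : IsBd deg d) (hab : d a b = u) :
    nW d a b u * d = nd d a b u * nW d a b u := by
  have hdeg : deg a = deg b + 1 := h.degree a b (by rw [hab]; exact u.ne_zero)
  have hne : a ≠ b := by rintro rfl; omega
  have haa : d a a = 0 := dzero h (by omega)
  have hbb : d b b = 0 := dzero h (by omega)
  have hba : d b a = 0 := dzero h (by omega)
  have hsq : ∀ i j, ∑ k, d i k * d k j = 0 := fun i j => by
    rw [← Matrix.mul_apply, h.sq]; rfl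
  ext1 i l
  rw [Matrix.mul_apply, Matrix.mul_apply]
  by_cases hib : i = b
  · subst hib
    have h1 : ∀ k, nW d a i u i k = d a k := fun k => by simp [nW]
    have h2 : ∀ k, nd d a i u i k = 0 := fun k => by simp [nd, Ne.symm hne]
    simp only [h1, h2, zero_mul, Finset.sum_const_zero]
    exact hsq a l
  by_cases hia : i = a
  · subst hia
    have h1 : ∀ k, nW d i b u i k = if i = k then 1 else 0 := fun k => by simp [nW, hne]
    have h2 : ∀ k, nd d i b u i k = if k = b then 1 else 0 := fun k => by simp [nd]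
    simp only [h1, h2, ite_mul, one_mul, zero_mul]
    rw [Finset.sum_ite_eq, if_pos (Finset.mem_univ _), Finset.sum_ite_eq',
      if_pos (Finset.mem_univ _)]
    simp [nW]
  -- other rows
  set x := d i b * (u⁻¹ : Rˣ) with hx
  have hL : ∑ k, nW d a b u i k * d k l = d i l - x * d a l := by
    have h1 : ∀ k, nW d a b u i k * d k l
        = (if i = k then d k l else 0) - (if k = a then x * d k l else 0) := by
      intro k
      simp only [nW, if_neg hib, _root_.sub_mul, ite_mul, one_mul, zero_mul]
      by_cases hk : k = a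
      · simp [hk, hia, hx]
      · simp [hk]
    simp only [h1]
    rw [Finset.sum_sub_distrib, Finset.sum_ite_eq, if_pos (Finset.mem_univ _),
      Finset.sum_ite_eq', if_pos (Finset.mem_univ _)]
  rw [hL]
  have hy : ∀ k, nd d a b u i k = if k = a ∨ k = b then 0 else d i k - x * d a k := by
    intro k
    simp only [nd, if_neg hia, if_neg hib, hx]
  have hyb : d i b - x * d a b = 0 := by
    rw [hab, hx, mul_assoc, Units.inv_mul, mul_one, sub_self]
  by_cases hla : l = a
  · subst hla
    have h1 : ∀ k, nd d l b u i k * nW d l b u k l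
        = -((if k = l ∨ k = b then 0 else d i k - x * d l k) * (d k b * (u⁻¹ : Rˣ))) := by
      intro k
      rw [hy]
      by_cases hk : k = l ∨ k = b
      · rw [if_pos hk, zero_mul, zero_mul, neg_zero]
      · push Not at hk
        simp only [nW, if_neg hk.2, if_neg hk.1, zero_sub, mul_neg]
        simp [hk.1]
    have h2 : ∑ k, (if k = l ∨ k = b then 0 else d i k - x * d l k) * d k b = - (d i l * u) := by
      have h3 : ∑ k, (d i k - x * d l k) * d k b = 0 := by
        simp only [_root_.sub_mul, mul_assoc]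
        rw [Finset.sum_sub_distrib, hsq, ← Finset.mul_sum, hsq, mul_zero, sub_zero]
      have h4 : ∀ k, (d i k - x * d l k) * d k b
          = (if k = l ∨ k = b then 0 else d i k - x * d l k) * d k b
            + (if k = l then d i l * u else 0) := by
        intro k
        by_cases hk : k = l
        · subst hk
          simp [haa, hab]
        · by_cases hk2 : k = b
          · subst hk2
            simp [hbb, hk]
          · simp [hk, hk2]
      simp only [h4] at h3
      rw [Finset.sum_add_distrib, Finset.sum_ite_eq', if_pos (Finset.mem_univ _)] at h3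
      exact eq_neg_of_add_eq_zero_left h3
    have h5 : ∑ k, (if k = l ∨ k = b then 0 else d i k - x * d l k) * (d k b * (u⁻¹ : Rˣ))
        = -(d i l) := by
      simp only [← mul_assoc]
      rw [← Finset.sum_mul, h2, neg_mul, mul_assoc, Units.mul_inv, mul_one]
    simp only [h1]
    rw [Finset.sum_neg_distrib, h5, neg_neg, haa, mul_zero, sub_zero]
  · have h1 : ∀ k, nd d a b u i k * nW d a b u k l
        = if k = l then (if k = a ∨ k = b then 0 else d i k - x * d a k) else 0 := by
      intro k
      rw [hy]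
      by_cases hk : k = a ∨ k = b
      · rw [if_pos hk, zero_mul]
        simp
      · rw [if_neg hk]
        push Not at hk
        simp only [nW, if_neg hk.2]
        rw [if_neg (show ¬ (l = a ∧ k ≠ a) from fun h => hla h.1), sub_zero]
        by_cases hkl : k = l
        · simp [hkl]
        · simp [hkl]
    simp only [h1]
    rw [Finset.sum_ite_eq', if_pos (Finset.mem_univ _)]
    by_cases hlb : l = b
    · subst hlb
      rw [hyb]; simp
    · rw [if_neg (by tauto)]

end pivot

end TH57.TT2
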